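import Pool.Agent.Lib.MP_e6ed9e_al.Defs

/-!
Glue for the polar spaces: a vector `v ≥ -1` with zero sum on all translates of a set gives
non-spreading.
-/

namespace SpreadPerm

open Finset

/-- If all translates of the set `B` have zero `v`-sum and the group is transitive, then the total
sum of `v` is zero. -/
theorem total_zero {G : Type*} [Group G] {Ω : Type*} [Fintype Ω] [MulAction G Ω]
    [MulAction.IsPretransitive G Ω] (v : Ω → ℤ) (B : Finset Ω) (hB : B.Nonempty)
    (hsum : ∀ g : G, ∑ i ∈ B, v (g • i) = 0) : ∑ i, v i = 0 := by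
  classical
  -- the finite image of the group
  let H : Subgroup (Equiv.Perm Ω) := (MulAction.toPermHom G Ω).range
  have : Fintype H := Fintype.ofFinite H
  have hsumH : ∀ h : H, ∑ i ∈ B, v ((h : Equiv.Perm Ω) i) = 0 := by
    rintro ⟨h, g, rfl⟩
    exact hsum g
  have hconst : ∀ i j : Ω, ∑ h : H, v ((h : Equiv.Perm Ω) i) = ∑ h : H, v ((h : Equiv.Perm Ω) j) := by
    intro i j
    obtain ⟨g, hg⟩ := MulAction.exists_smul_eq G j i
    have hk : MulAction.toPermHom G Ω g ∈ H := ⟨g, rfl⟩
    rw [← Equiv.sum_comp (Equiv.mulRight (⟨_, hk⟩ : H)) (fun h : H => v ((h : Equiv.Perm Ω) j))]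
    refine Finset.sum_congr rfl fun h _ => ?_
    simp only [Equiv.coe_mulRight, Subgroup.coe_mul, Equiv.Perm.mul_apply]
    congr 2
    exact hg.symm
  obtain ⟨j, hj⟩ := hB
  have h0 : ∑ h : H, v ((h : Equiv.Perm Ω) j) = 0 := by
    have h1 : ∑ h : H, ∑ i ∈ B, v ((h : Equiv.Perm Ω) i) = 0 :=
      Finset.sum_eq_zero fun h _ => hsumH h
    rw [Finset.sum_comm] at h1
    rw [Finset.sum_congr rfl fun i _ => hconst i j, Finset.sum_const, nsmul_eq_mul] at h1
    rcases mul_eq_zero.1 h1 with h2 | h2
    · exact absurd (Nat.cast_eq_zero.1 h2) (Finset.card_pos.2 ⟨j, hj⟩).ne'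
    · exact h2
  have h2 : ∑ i : Ω, ∑ h : H, v ((h : Equiv.Perm Ω) i) = 0 :=
    Finset.sum_eq_zero fun i _ => (hconst i j).trans h0
  rw [Finset.sum_comm] at h2
  have h3 : ∀ h : H, ∑ i : Ω, v ((h : Equiv.Perm Ω) i) = ∑ i, v i := fun h =>
    Equiv.sum_comp (h : Equiv.Perm Ω) v
  rw [Finset.sum_congr rfl fun h _ => h3 h, Finset.sum_const, nsmul_eq_mul] at h2
  rcases mul_eq_zero.1 h2 with h4 | h4
  · have : 0 < (Finset.univ : Finset H).card := Finset.card_pos.2 ⟨1, Finset.mem_univ _⟩
    exact absurd (Nat.cast_eq_zero.1 h4) this.ne'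
  · exact h4

/-- The glue: `A = 1 + v` and `B` witness that `G` is non-spreading. -/
theorem nonSpreading_of_vector {G : Type*} [Group G] {Ω : Type*} [Fintype Ω] [MulAction G Ω]
    [MulAction.IsPretransitive G Ω] (v : Ω → ℤ) (hv1 : ∀ i, -1 ≤ v i) (hv0 : ∃ i, v i ≠ 0)
    (B : Finset Ω) (hB2 : 1 < B.card) (hBn : B.card < Fintype.card Ω)
    (hsum : ∀ g : G, ∑ i ∈ B, v (g • i) = 0) : NonSpreading G Ω := by
  classical
  have htot := total_zero v B (Finset.card_pos.1 (by omega)) hsum
  let A : Ω → ℕ := fun i => (1 + v i).toNat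
  have hA : ∀ i, ((A i : ℕ) : ℤ) = 1 + v i := fun i => Int.toNat_of_nonneg (by linarith [hv1 i])
  have hAsum : ∑ i, A i = Fintype.card Ω := by
    have h1 : ((∑ i, A i : ℕ) : ℤ) = (Fintype.card Ω : ℤ) := by
      push_cast
      rw [Finset.sum_congr rfl fun i _ => hA i, Finset.sum_add_distrib, htot]
      simp
    exact_mod_cast h1
  have hAB : ∀ g : G, ∑ i ∈ B, A (g • i) = B.card := by
    intro g
    have h1 : ((∑ i ∈ B, A (g • i) : ℕ) : ℤ) = (B.card : ℤ) := by
      push_cast
      rw [Finset.sum_congr rfl fun i _ => hA (g • i), Finset.sum_add_distrib, hsum g]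
      simp
    exact_mod_cast h1
  refine ⟨A, fun i => if i ∈ B then 1 else 0, B.card, by omega, ?_, ?_, ?_, ?_, ?_⟩
  · rintro (⟨c, hc⟩ | ⟨i, hi⟩)
    · obtain ⟨j, hj⟩ := hv0
      have h1 : Fintype.card Ω * c = Fintype.card Ω := by
        have h := hAsum
        rwa [Finset.sum_congr rfl fun i _ => hc i, Finset.sum_const, Finset.card_univ,
          smul_eq_mul] at h
      have hn : 0 < Fintype.card Ω := by omega
      have hc1 : c = 1 := by
        have := Nat.eq_of_mul_eq_mul_left hn (h1.trans (mul_one _).symm)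
        exact this
      have h2 := hA j
      rw [hc j, hc1] at h2
      apply hj
      push_cast at h2
      linarith
    · -- all translates contain `i`
      have h1 : ∀ g : G, g⁻¹ • i ∈ B := by
        intro g
        by_contra hg
        have h2 : ∑ j ∈ B, A (g • j) = 0 := by
          refine Finset.sum_eq_zero fun j hj => ?_
          by_contra h3
          have h4 := (hi (g • j)).1 h3
          apply hg
          rw [← h4, inv_smul_smul]
          exact hj
        rw [hAB g] at h2
        omega
      have h2 : B = Finset.univ := by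
        refine Finset.eq_univ_iff_forall.2 fun j => ?_
        obtain ⟨g, hg⟩ := MulAction.exists_smul_eq G i j
        have := h1 g⁻¹
        rwa [inv_inv, hg] at this
      rw [h2, Finset.card_univ] at hBn
      exact lt_irrefl _ hBn
  · rintro (⟨c, hc⟩ | ⟨i, hi⟩)
    · obtain ⟨j, hj⟩ : B.Nonempty := Finset.card_pos.1 (by omega)
      have h1 : B = Finset.univ := by
        refine Finset.eq_univ_iff_forall.2 fun k => ?_
        by_contra hk
        have h2 := hc j
        have h3 := hc k
        simp only [hj, hk, if_true, if_false] at h2 h3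
        omega
      rw [h1, Finset.card_univ] at hBn
      exact lt_irrefl _ hBn
    · have h1 : B ⊆ {i} := by
        intro j hj
        rw [Finset.mem_singleton]
        exact (hi j).1 (by simp [hj])
      have := Finset.card_le_card h1
      simp at this
      omega
  · intro g
    have h1 : ∑ i, A i * (if g⁻¹ • i ∈ B then 1 else 0) = ∑ i ∈ B, A (g • i) := by
      rw [← Equiv.sum_comp (MulAction.toPerm g) (fun i => A i * (if g⁻¹ • i ∈ B then 1 else 0))]
      simp only [MulAction.toPerm_apply, inv_smul_smul, mul_ite, mul_one, mul_zero]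
      rw [Finset.sum_ite_mem, Finset.univ_inter]
    rw [← hAB g, ← h1]
  · intro i
    by_cases h : i ∈ B
    · right; simp [h]
    · left; simp [h]
  · rw [hAsum]

end SpreadPerm
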