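import Pool.Agent.Lib.MP_e6ed9e_al.Polar.PForm88

/-!
Generic Witt decomposition for the structure `PForm`.
-/

namespace SpreadPerm

namespace PForm

open Module

variable {K V : Type*} [Field K] [AddCommGroup V] [Module K V] (P : PForm K V)

/-- A hyperbolic system of `r` pairs. -/
structure Hyp {r : ℕ} (e f : Fin r → V) : Prop where
  ee : ∀ i j, P.f (e i) (e j) = 0
  ff : ∀ i j, P.f (f i) (f j) = 0
  ef : ∀ i j, P.f (e i) (f j) = if i = j then 1 else 0
  qe : ∀ i, P.Q (e i) = 0
  qf : ∀ i, P.Q (f i) = 0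

/-- The complement of a hyperbolic system. -/
def compl {r : ℕ} (e f : Fin r → V) : Submodule K V where
  carrier := {y | (∀ i, P.f y (e i) = 0) ∧ ∀ i, P.f y (f i) = 0}
  zero_mem' := ⟨fun i => P.f_zero_left _, fun i => P.f_zero_left _⟩
  add_mem' := by
    rintro x y ⟨h1, h2⟩ ⟨h3, h4⟩
    exact ⟨fun i => by rw [P.f_add_left, h1, h3, add_zero],
      fun i => by rw [P.f_add_left, h2, h4, add_zero]⟩
  smul_mem' := by
    rintro a x ⟨h1, h2⟩
    exact ⟨fun i => by rw [P.f_smul_left, h1, mul_zero],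
      fun i => by rw [P.f_smul_left, h2, mul_zero]⟩

variable {P}

theorem Hyp.fe {r : ℕ} {e f : Fin r → V} (h : P.Hyp e f) (i j : Fin r) :
    P.f (f i) (e j) = if i = j then P.eps else 0 := by
  rw [P.f_symm, h.ef]
  by_cases hij : i = j
  · subst hij; simp
  · rw [if_neg hij, if_neg (fun h' => hij h'.symm)]; simp

theorem Hyp.eps_ne {r : ℕ} {e f : Fin r → V} (h : P.Hyp e f) (i : Fin r) : P.eps ≠ 0 := by
  intro h0
  have h1 := h.ef i i
  rw [P.f_symm (f i) (e i), h0, zero_mul, if_pos rfl] at h1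
  exact zero_ne_one h1

/-- Projection to the complement. -/
theorem Hyp.exists_proj {r : ℕ} {e f : Fin r → V} (h : P.Hyp e f) (y : V) :
    ∃ u w : Fin r → K, ∃ z ∈ P.compl e f, y = (∑ i, u i • e i) + (∑ i, w i • f i) + z := by
  refine ⟨fun i => P.f y (f i), fun i => P.s (P.f (e i) y),
    y - ((∑ i, P.f y (f i) • e i) + (∑ i, P.s (P.f (e i) y) • f i)), ⟨?_, ?_⟩, by abel⟩
  · intro j
    rw [sub_eq_add_neg, P.f_add_left, P.f_neg_left, P.f_add_left, P.f_sum_left, P.f_sum_left]
    have h1 : ∑ i, P.f (P.f y (f i) • e i) (e j) = 0 :=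
      Finset.sum_eq_zero fun i _ => by rw [P.f_smul_left, h.ee, mul_zero]
    have h2 : ∑ i, P.f (P.s (P.f (e i) y) • f i) (e j) = P.s (P.f (e j) y) * P.eps := by
      rw [Finset.sum_eq_single j]
      · rw [P.f_smul_left, h.fe, if_pos rfl]
      · intro i _ hij
        rw [P.f_smul_left, h.fe, if_neg hij, mul_zero]
      · intro hj; exact absurd (Finset.mem_univ j) hj
    rw [h1, h2, P.f_symm (e j) y]
    ring
  · intro j
    rw [sub_eq_add_neg, P.f_add_left, P.f_neg_left, P.f_add_left, P.f_sum_left, P.f_sum_left]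
    have h1 : ∑ i, P.f (P.f y (f i) • e i) (f j) = P.f y (f j) := by
      rw [Finset.sum_eq_single j]
      · rw [P.f_smul_left, h.ef, if_pos rfl, mul_one]
      · intro i _ hij
        rw [P.f_smul_left, h.ef, if_neg hij, mul_zero]
      · intro hj; exact absurd (Finset.mem_univ j) hj
    have h2 : ∑ i, P.f (P.s (P.f (e i) y) • f i) (f j) = 0 :=
      Finset.sum_eq_zero fun i _ => by rw [P.f_smul_left, h.ff, mul_zero]
    rw [h1, h2]
    ring

/-- The value of the form on combinations. -/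
theorem Hyp.f_comb {r : ℕ} {e f : Fin r → V} (h : P.Hyp e f) (u w u' w' : Fin r → K) (z z' : V)
    (hz : z ∈ P.compl e f) (hz' : z' ∈ P.compl e f) :
    P.f ((∑ i, u i • e i) + (∑ i, w i • f i) + z) ((∑ i, u' i • e i) + (∑ i, w' i • f i) + z') =
      ∑ i, (u i * P.s (w' i) + P.eps * (w i * P.s (u' i))) + P.f z z' := by
  have hze : ∀ i, P.f z (e i) = 0 := hz.1
  have hzf : ∀ i, P.f z (f i) = 0 := hz.2
  have hze' : ∀ i, P.f (e i) z' = 0 := fun i => P.f_comm_zero (hz'.1 i)
  have hzf' : ∀ i, P.f (f i) z' = 0 := fun i => P.f_comm_zero (hz'.2 i)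
  have a1 : P.f (∑ i, u i • e i) (∑ i, u' i • e i) = 0 := by
    rw [P.f_sum_left]
    refine Finset.sum_eq_zero fun i _ => ?_
    rw [P.f_sum_right]
    refine Finset.sum_eq_zero fun j _ => ?_
    rw [P.f_smul_left, P.f_smul_right, h.ee, mul_zero, mul_zero]
  have a2 : P.f (∑ i, w i • f i) (∑ i, w' i • f i) = 0 := by
    rw [P.f_sum_left]
    refine Finset.sum_eq_zero fun i _ => ?_
    rw [P.f_sum_right]
    refine Finset.sum_eq_zero fun j _ => ?_
    rw [P.f_smul_left, P.f_smul_right, h.ff, mul_zero, mul_zero]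
  have a3 : P.f (∑ i, u i • e i) (∑ i, w' i • f i) = ∑ i, u i * P.s (w' i) := by
    rw [P.f_sum_left]
    refine Finset.sum_congr rfl fun i _ => ?_
    rw [P.f_sum_right, Finset.sum_eq_single i]
    · rw [P.f_smul_left, P.f_smul_right, h.ef, if_pos rfl, mul_one]
    · intro j _ hij
      rw [P.f_smul_left, P.f_smul_right, h.ef, if_neg hij.symm, mul_zero, mul_zero]
    · intro hj; exact absurd (Finset.mem_univ i) hj
  have a4 : P.f (∑ i, w i • f i) (∑ i, u' i • e i) = ∑ i, P.eps * (w i * P.s (u' i)) := by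
    rw [P.f_sum_left]
    refine Finset.sum_congr rfl fun i _ => ?_
    rw [P.f_sum_right, Finset.sum_eq_single i]
    · rw [P.f_smul_left, P.f_smul_right, h.fe, if_pos rfl]
      ring
    · intro j _ hij
      rw [P.f_smul_left, P.f_smul_right, h.fe, if_neg hij.symm, mul_zero, mul_zero]
    · intro hj; exact absurd (Finset.mem_univ i) hj
  have a5 : P.f (∑ i, u i • e i) z' = 0 := by
    rw [P.f_sum_left]
    exact Finset.sum_eq_zero fun i _ => by rw [P.f_smul_left, hze', mul_zero]
  have a6 : P.f (∑ i, w i • f i) z' = 0 := by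
    rw [P.f_sum_left]
    exact Finset.sum_eq_zero fun i _ => by rw [P.f_smul_left, hzf', mul_zero]
  have a7 : P.f z (∑ i, u' i • e i) = 0 := by
    rw [P.f_sum_right]
    exact Finset.sum_eq_zero fun i _ => by rw [P.f_smul_right, hze, mul_zero]
  have a8 : P.f z (∑ i, w' i • f i) = 0 := by
    rw [P.f_sum_right]
    exact Finset.sum_eq_zero fun i _ => by rw [P.f_smul_right, hzf, mul_zero]
  simp only [P.f_add_left, P.f_add_right]
  rw [a1, a2, a3, a4, a5, a6, a7, a8, Finset.sum_add_distrib]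
  ring

theorem Q_sum_zero (P : PForm K V) {r : ℕ} (u : Fin r → K) (e : Fin r → V)
    (hq : ∀ i, P.Q (e i) = 0) (hf : ∀ i j, P.f (e i) (e j) = 0) : P.Q (∑ i, u i • e i) = 0 := by
  have h := P.ts_span (S := Set.range e) (by rintro _ ⟨i, rfl⟩; exact hq i)
    (by rintro _ ⟨i, rfl⟩ _ ⟨j, rfl⟩; exact hf i j)
  exact h.1 _ (Submodule.sum_mem _ fun i _ =>
    Submodule.smul_mem _ _ (Submodule.subset_span ⟨i, rfl⟩))

/-- The value of the quadratic map on combinations. -/
theorem Hyp.Q_comb {r : ℕ} {e f : Fin r → V} (h : P.Hyp e f) (u w : Fin r → K) (z : V)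
    (hz : z ∈ P.compl e f) :
    P.Q ((∑ i, u i • e i) + (∑ i, w i • f i) + z) = P.T (∑ i, u i * P.s (w i)) + P.Q z := by
  have h1 : P.Q (∑ i, u i • e i) = 0 := P.Q_sum_zero u e h.qe h.ee
  have h2 : P.Q (∑ i, w i • f i) = 0 := P.Q_sum_zero w f h.qf h.ff
  have h3 : P.f (∑ i, u i • e i) (∑ i, w i • f i) = ∑ i, u i * P.s (w i) := by
    have := h.f_comb u 0 0 w 0 0 (Submodule.zero_mem _) (Submodule.zero_mem _)
    simpa [P.f_zero_left] using this
  have h4 : P.f ((∑ i, u i • e i) + (∑ i, w i • f i)) z = 0 := by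
    have := h.f_comb u w 0 0 0 z (Submodule.zero_mem _) hz
    simpa [P.f_zero_left] using this
  rw [P.Q_add, P.Q_add, h1, h2, h3, h4, map_zero]
  ring

/-- The coordinates are unique. -/
theorem Hyp.coord {r : ℕ} {e f : Fin r → V} (h : P.Hyp e f) (u w : Fin r → K) (z : V)
    (hz : z ∈ P.compl e f) (h0 : (∑ i, u i • e i) + (∑ i, w i • f i) + z = 0) :
    u = 0 ∧ w = 0 ∧ z = 0 := by
  have hu : u = 0 := by
    funext j
    have h1 := h.f_comb u w 0 (Pi.single j 1) z 0 hz (Submodule.zero_mem _)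
    rw [h0, P.f_zero_left, P.f_zero_right, add_zero] at h1
    simp only [Pi.zero_apply, map_zero, mul_zero, add_zero] at h1
    rw [Finset.sum_eq_single j] at h1
    · simpa using h1.symm
    · intro i _ hij
      simp [Pi.single_eq_of_ne hij]
    · intro hj; exact absurd (Finset.mem_univ j) hj
  have hw : w = 0 := by
    funext j
    have h1 := h.f_comb u w (Pi.single j 1) 0 z 0 hz (Submodule.zero_mem _)
    rw [h0, P.f_zero_left, P.f_zero_right, add_zero] at h1
    simp only [Pi.zero_apply, map_zero, mul_zero, zero_add] at h1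
    rw [Finset.sum_eq_single j] at h1
    · have h2 : P.eps * w j = 0 := by simpa using h1.symm
      rcases mul_eq_zero.1 h2 with h3 | h3
      · exact absurd h3 (h.eps_ne j)
      · exact h3
    · intro i _ hij
      simp [Pi.single_eq_of_ne hij]
    · intro hj; exact absurd (Finset.mem_univ j) hj
  refine ⟨hu, hw, ?_⟩
  rw [hu, hw] at h0
  simpa using h0

theorem Hyp.card_le [FiniteDimensional K V] {r : ℕ} {e f : Fin r → V} (h : P.Hyp e f) :
    r ≤ finrank K V := by
  have hli : LinearIndependent K e := by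
    rw [Fintype.linearIndependent_iff]
    intro g hg i
    have := (h.coord g 0 0 (Submodule.zero_mem _) (by simpa using hg)).1
    exact congrFun this i
  have := hli.fintype_card_le_finrank
  simpa using this

theorem Hyp.nil (P : PForm K V) : P.Hyp (fun i : Fin 0 => i.elim0) (fun i : Fin 0 => i.elim0) :=
  ⟨fun i => i.elim0, fun i => i.elim0, fun i => i.elim0, fun i => i.elim0, fun i => i.elim0⟩

/-- Extension of a hyperbolic system by a singular vector of the complement. -/
theorem Hyp.extend (hnd : P.Nondeg) {r : ℕ} {e f : Fin r → V} (h : P.Hyp e f) {x : V}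
    (hx : x ∈ P.compl e f) (hq : P.Q x = 0) (hx0 : x ≠ 0) :
    ∃ e' f' : Fin (r + 1) → V, P.Hyp e' f' := by
  have h1 : ∃ y, P.f x y ≠ 0 := by
    by_contra hcon
    push Not at hcon
    exact hx0 (hnd x hq hcon)
  obtain ⟨y, hy⟩ := h1
  obtain ⟨u, w, y', hy', hyy⟩ := h.exists_proj y
  have hc : P.f x y' ≠ 0 := by
    have h2 := h.f_comb 0 0 u w x y' hx hy'
    rw [← hyy] at h2
    have h3 : P.f x y = P.f x y' := by simpa using h2
    rwa [← h3]
  have hxx : P.f x x = 0 := P.f_self x hq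
  set c := P.f x y' with hcdef
  -- the normalised vector
  obtain ⟨y2, hy2, h2⟩ : ∃ y2 ∈ P.compl e f, P.f x y2 = 1 := by
    refine ⟨P.s c⁻¹ • y', Submodule.smul_mem _ _ hy', ?_⟩
    rw [P.f_smul_right, P.s_s, ← hcdef, inv_mul_cancel₀ hc]
  have h3 : P.f y2 x = P.eps := by
    rw [P.f_symm, h2, map_one, mul_one]
  have heps : P.eps ≠ 0 := by
    intro h0
    have h4 := P.f_symm y2 x
    rw [h2, h0, zero_mul] at h4
    exact one_ne_zero h4
  obtain ⟨t, ht⟩ := P.Q_T y2
  let z : V := y2 + P.s (-t / P.eps) • x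
  have hz : z ∈ P.compl e f := Submodule.add_mem _ hy2 (Submodule.smul_mem _ _ hx)
  have hzq : P.Q z = 0 := by
    show P.Q (y2 + P.s (-t / P.eps) • x) = 0
    rw [P.Q_add, P.Q_smul _ x, hq, mul_zero, P.f_smul_right _ y2 x, P.s_s, h3,
      div_mul_cancel₀ _ heps, map_neg, ht]
    ring
  have hxz : P.f x z = 1 := by
    show P.f x (y2 + P.s (-t / P.eps) • x) = 1
    rw [P.f_add_right, P.f_smul_right, hxx, mul_zero, add_zero, h2]
  have hzz : P.f z z = 0 := P.f_self z hzq
  refine ⟨Fin.snoc e x, Fin.snoc f z, ⟨?_, ?_, ?_, ?_, ?_⟩⟩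
  · intro i j
    refine Fin.lastCases ?_ (fun i => ?_) i
    · refine Fin.lastCases ?_ (fun j => ?_) j
      · simpa using hxx
      · simpa using hx.1 j
    · refine Fin.lastCases ?_ (fun j => ?_) j
      · simpa using P.f_comm_zero (hx.1 i)
      · simpa using h.ee i j
  · intro i j
    refine Fin.lastCases ?_ (fun i => ?_) i
    · refine Fin.lastCases ?_ (fun j => ?_) j
      · simpa using hzz
      · simpa using hz.2 j
    · refine Fin.lastCases ?_ (fun j => ?_) j
      · simpa using P.f_comm_zero (hz.2 i)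
      · simpa using h.ff i j
  · intro i j
    refine Fin.lastCases ?_ (fun i => ?_) i
    · refine Fin.lastCases ?_ (fun j => ?_) j
      · simpa using hxz
      · have h5 : Fin.last r ≠ j.castSucc := (Fin.castSucc_lt_last j).ne'
        simpa [h5] using hx.2 j
    · refine Fin.lastCases ?_ (fun j => ?_) j
      · have h5 : i.castSucc ≠ Fin.last r := (Fin.castSucc_lt_last i).ne
        simpa [h5] using P.f_comm_zero (hz.1 i)
      · simpa using h.ef i j
  · intro i
    refine Fin.lastCases ?_ (fun i => ?_) i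
    · simpa using hq
    · simpa using h.qe i
  · intro i
    refine Fin.lastCases ?_ (fun i => ?_) i
    · simpa using hzq
    · simpa using h.qf i

/-- Witt decomposition: a maximal hyperbolic system with anisotropic complement. -/
theorem hypsys (P : PForm K V) [FiniteDimensional K V] (hnd : P.Nondeg) :
    ∃ (r : ℕ) (e f : Fin r → V), P.Hyp e f ∧ ∀ x ∈ P.compl e f, P.Q x = 0 → x = 0 := by
  by_contra hcon
  push Not at hcon
  have hall : ∀ r : ℕ, ∃ e f : Fin r → V, P.Hyp e f := by
    intro r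
    induction r with
    | zero => exact ⟨_, _, Hyp.nil P⟩
    | succ r ih =>
      obtain ⟨e, f, h⟩ := ih
      obtain ⟨x, hx, hq, hx0⟩ := hcon r e f h
      exact h.extend hnd hx hq hx0
  obtain ⟨e, f, h⟩ := hall (finrank K V + 1)
  have := h.card_le
  omega

/-- The coordinates of a hyperbolic system. -/
noncomputable def Hyp.equiv {r : ℕ} {e f : Fin r → V} (h : P.Hyp e f) :
    ((Fin r → K) × (Fin r → K) × P.compl e f) ≃ₗ[K] V :=
  LinearEquiv.ofBijective
    { toFun := fun x => (∑ i, x.1 i • e i) + (∑ i, x.2.1 i • f i) + (x.2.2 : V)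
      map_add' := by
        intro x y
        simp only [Prod.fst_add, Prod.snd_add, Pi.add_apply, add_smul, Finset.sum_add_distrib,
          Submodule.coe_add]
        abel
      map_smul' := by
        intro a x
        simp only [Prod.smul_fst, Prod.smul_snd, Pi.smul_apply, smul_assoc, RingHom.id_apply,
          Submodule.coe_smul, smul_add, Finset.smul_sum] }
    (by
      constructor
      · rw [← LinearMap.ker_eq_bot, LinearMap.ker_eq_bot']
        rintro ⟨u, w, z⟩ h0
        obtain ⟨h1, h2, h3⟩ := h.coord u w z z.2 h0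
        refine Prod.ext h1 (Prod.ext h2 (Subtype.ext h3))
      · intro y
        obtain ⟨u, w, z, hz, hy⟩ := h.exists_proj y
        exact ⟨(u, w, ⟨z, hz⟩), hy.symm⟩)

theorem Hyp.equiv_apply {r : ℕ} {e f : Fin r → V} (h : P.Hyp e f)
    (x : (Fin r → K) × (Fin r → K) × P.compl e f) :
    h.equiv x = (∑ i, x.1 i • e i) + (∑ i, x.2.1 i • f i) + (x.2.2 : V) := rfl

/-- Witt decomposition in coordinates: the form and the quadratic map. -/
theorem decomp (P : PForm K V) [FiniteDimensional K V] (hnd : P.Nondeg) :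
    ∃ (r : ℕ) (E : Submodule K V) (φ : ((Fin r → K) × (Fin r → K) × E) ≃ₗ[K] V),
      (∀ x ∈ E, P.Q x = 0 → x = 0) ∧
      (∀ x, P.Q (φ x) = P.T (∑ i, x.1 i * P.s (x.2.1 i)) + P.Q x.2.2) ∧
      (∀ x y, P.f (φ x) (φ y) =
        ∑ i, (x.1 i * P.s (y.2.1 i) + P.eps * (x.2.1 i * P.s (y.1 i))) + P.f x.2.2 y.2.2) := by
  obtain ⟨r, e, f, h, han⟩ := P.hypsys hnd
  refine ⟨r, P.compl e f, h.equiv, han, ?_, ?_⟩
  · intro x
    rw [h.equiv_apply]
    exact h.Q_comb _ _ _ x.2.2.2
  · intro x y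
    rw [h.equiv_apply, h.equiv_apply]
    exact h.f_comb _ _ _ _ _ _ x.2.2.2 y.2.2.2

end PForm

end SpreadPerm
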