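import Pool.Agent.Lib.MP_e6ed9e_al.Polar.FreeDefs
import Pool.Agent.Lib.MP_e6ed9e_al.Polar.Witt88

/-!
Row EMB H: every nondegenerate hermitian form over a finite field is one of the two unitary kinds.
-/

namespace Pool.Agent.Lib.MP_e6ed9e_al.Polar

open Module SpreadPerm

section Norm

variable {F : Type} [Field F]

/-- The norm `u ↦ u σ(u)` on units. -/
def nrm (σ : F →+* F) : Fˣ →* Fˣ where
  toFun u := u * Units.map σ.toMonoidHom u
  map_one' := by simp
  map_mul' u v := by
    rw [map_mul]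
    exact mul_mul_mul_comm _ _ _ _

/-- The map `u ↦ u / σ(u)` on units. -/
def hlb (σ : F →+* F) : Fˣ →* Fˣ where
  toFun u := u / Units.map σ.toMonoidHom u
  map_one' := by simp
  map_mul' u v := by
    rw [map_mul]
    exact mul_div_mul_comm _ _ _ _

theorem nrm_ker (σ : F →+* F) (h2 : ∀ a, σ (σ a) = a) (h1 : ∃ a, σ a ≠ a) :
    (nrm σ).ker = (hlb σ).range := by
  ext u
  constructor
  · intro hu
    have hu1 : (u : F) * σ u = 1 := by
      have h3 : nrm σ u = 1 := hu
      have h4 := congrArg (fun z : Fˣ => (z : F)) h3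
      simpa [nrm] using h4
    have hex : ∃ y : F, y + (u : F) * σ y ≠ 0 := by
      by_contra hcon
      push Not at hcon
      have h3 : (u : F) = -1 := by
        have := hcon 1
        rw [map_one, mul_one] at this
        linear_combination this
      obtain ⟨a, ha⟩ := h1
      apply ha
      have := hcon a
      rw [h3] at this
      linear_combination -this
    obtain ⟨y, hy⟩ := hex
    refine ⟨Units.mk0 _ hy, ?_⟩
    apply Units.ext
    show ((Units.mk0 _ hy / Units.map σ.toMonoidHom (Units.mk0 _ hy) : Fˣ) : F) = (u : F)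
    rw [Units.val_div_eq_div_val]
    show (y + (u : F) * σ y) / σ (y + (u : F) * σ y) = u
    have hs : σ (y + (u : F) * σ y) ≠ 0 := fun h => hy ((map_eq_zero σ).1 h)
    rw [div_eq_iff hs, map_add, map_mul, h2]
    linear_combination (-y) * hu1
  · rintro ⟨w, rfl⟩
    show nrm σ (hlb σ w) = 1
    apply Units.ext
    have hw : (w : F) ≠ 0 := w.ne_zero
    have hs : σ (w : F) ≠ 0 := fun h => hw ((map_eq_zero σ).1 h)
    show ((w / Units.map σ.toMonoidHom w : Fˣ) : F) *
      σ ((w / Units.map σ.toMonoidHom w : Fˣ) : F) = 1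
    rw [Units.val_div_eq_div_val]
    show ((w : F) / σ w) * σ ((w : F) / σ w) = 1
    rw [map_div₀, h2]
    field_simp

/-- The norm is onto the fixed field. -/
theorem nrm_surj [Finite F] (σ : F →+* F) (h2 : ∀ a, σ (σ a) = a) (h1 : ∃ a, σ a ≠ a) (k : F)
    (hk : σ k = k) : ∃ a : F, a * σ a = k := by
  by_cases hk0 : k = 0
  · exact ⟨0, by rw [hk0, zero_mul]⟩
  have hsub : (nrm σ).range ≤ (hlb σ).ker := by
    rintro _ ⟨u, rfl⟩
    show hlb σ (nrm σ u) = 1
    apply Units.ext
    have hu : (u : F) ≠ 0 := u.ne_zero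
    have hs : σ (u : F) ≠ 0 := fun h => hu ((map_eq_zero σ).1 h)
    show (((u * Units.map σ.toMonoidHom u) / Units.map σ.toMonoidHom
      (u * Units.map σ.toMonoidHom u) : Fˣ) : F) = 1
    rw [Units.val_div_eq_div_val]
    show ((u : F) * σ u) / σ ((u : F) * σ u) = 1
    rw [map_mul, h2, mul_comm (σ (u : F)) (u : F), div_self (mul_ne_zero hu hs)]
  have hcard : Nat.card (nrm σ).range = Nat.card (hlb σ).ker := by
    have e1 := Subgroup.card_mul_index (nrm σ).ker
    have e2 := Subgroup.card_mul_index (hlb σ).ker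
    rw [Subgroup.index_ker] at e1 e2
    rw [nrm_ker σ h2 h1] at e1
    have hpos : 0 < Nat.card (hlb σ).range := Nat.card_pos
    rw [← e2, mul_comm (Nat.card (hlb σ).ker)] at e1
    exact Nat.eq_of_mul_eq_mul_left hpos e1
  have heq : (nrm σ).range = (hlb σ).ker :=
    Subgroup.eq_of_le_of_card_ge hsub hcard.ge
  have hmem : Units.mk0 k hk0 ∈ (hlb σ).ker := by
    show hlb σ (Units.mk0 k hk0) = 1
    apply Units.ext
    show ((Units.mk0 k hk0 / Units.map σ.toMonoidHom (Units.mk0 k hk0) : Fˣ) : F) = 1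
    rw [Units.val_div_eq_div_val]
    show k / σ k = 1
    rw [hk, div_self hk0]
  rw [← heq] at hmem
  obtain ⟨u, hu⟩ := hmem
  refine ⟨u, ?_⟩
  have h4 := congrArg (fun z : Fˣ => (z : F)) hu
  simpa [nrm] using h4

/-- The trace is onto the fixed field. -/
theorem tr_surj (σ : F →+* F) (h2 : ∀ a, σ (σ a) = a) (h1 : ∃ a, σ a ≠ a) (k : F)
    (hk : σ k = k) : ∃ t : F, t + σ t = k := by
  have hex : ∃ w : F, w + σ w ≠ 0 := by
    by_contra hcon
    push Not at hcon
    have h3 : (2 : F) = 0 := by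
      have := hcon 1
      rw [map_one] at this
      linear_combination this
    obtain ⟨a, ha⟩ := h1
    apply ha
    have := hcon a
    linear_combination this - a * h3
  obtain ⟨w, hw⟩ := hex
  refine ⟨w * k / (w + σ w), ?_⟩
  rw [map_div₀, map_mul, map_add, h2, hk, add_comm (σ w) w]
  field_simp

end Norm

section Rules

variable {F V : Type} [Field F] [AddCommGroup V] [Module F V] {σ : F →+* F}
  (h : V →ₗ[F] V →ₛₗ[σ] F)

theorem sadd1 (x y z : V) : h (x + y) z = h x z + h y z := by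
  rw [map_add, LinearMap.add_apply]

theorem sadd2 (x y z : V) : h x (y + z) = h x y + h x z := map_add _ _ _

theorem ssm1 (a : F) (x y : V) : h (a • x) y = a * h x y := by
  have h1 : h (a • x) = a • h x := h.map_smul a x
  rw [h1, LinearMap.smul_apply, smul_eq_mul]

theorem ssm2 (a : F) (x y : V) : h x (a • y) = σ a * h x y := by
  rw [LinearMap.map_smulₛₗ, smul_eq_mul]

end Rules

/-- The structure of a hermitian form. -/
def hermForm {F V : Type} [Field F] [AddCommGroup V] [Module F V] (σ : F →+* F)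
    (h2 : ∀ a, σ (σ a) = a) (h1 : ∃ a, σ a ≠ a) (h : V →ₗ[F] V →ₛₗ[σ] F)
    (hh : ∀ x y, h y x = σ (h x y)) : PForm F V where
  s := σ
  s_s := h2
  eps := 1
  f x y := h x y
  Q x := h x x
  T := { toFun := fun t => t + σ t
         map_zero' := by rw [map_zero, add_zero]
         map_add' := fun a b => by rw [map_add]; ring }
  f_add_left x y z := sadd1 h x y z
  f_smul_left a x y := ssm1 h a x y
  f_symm x y := by rw [one_mul, hh]
  Q_smul a x := by
    rw [ssm1, ssm2]
    ring
  Q_add x y := by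
    show h (x + y) (x + y) = h x x + h y y + (h x y + σ (h x y))
    rw [sadd1, sadd2, sadd2, hh x y]
    ring
  Q_T x := tr_surj σ h2 h1 _ (hh x x).symm
  f_self x hx := hx

theorem embH88 : StEmbH := by
  intro F V _ _ _ _ _ σ h2 h1 h hh hn
  let P : PForm F V := hermForm σ h2 h1 h hh
  have hPf : ∀ x y, P.f x y = h x y := fun _ _ => rfl
  have hPQ : ∀ x, P.Q x = h x x := fun _ => rfl
  have hPT : ∀ t, P.T t = t + σ t := fun _ => rfl
  have hPs : P.s = σ := rfl
  have hPe : P.eps = 1 := rfl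
  have hnd : P.Nondeg := fun x _ hy => hn x hy
  obtain ⟨r, E, φ, han, hQ, hf⟩ := P.decomp hnd
  -- the anisotropic part
  have hE : (∀ z ∈ E, z = 0) ∨ ∃ z1 ∈ E, h z1 z1 = 1 ∧ ∀ z ∈ E, z = h z z1 • z1 := by
    by_cases h0 : ∀ z ∈ E, z = 0
    · exact Or.inl h0
    right
    push Not at h0
    obtain ⟨z0, hz0, hz00⟩ := h0
    have hc : h z0 z0 ≠ 0 := fun h3 => hz00 (han z0 hz0 h3)
    obtain ⟨μ, hμ⟩ := nrm_surj σ h2 h1 (h z0 z0) (hh z0 z0).symm
    have hμ0 : μ ≠ 0 := by
      rintro rfl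
      rw [zero_mul] at hμ
      exact hc hμ.symm
    have hσμ : σ μ ≠ 0 := fun h3 => hμ0 ((map_eq_zero σ).1 h3)
    obtain ⟨z1, hz1, h11⟩ : ∃ z1 ∈ E, h z1 z1 = 1 := by
      refine ⟨μ⁻¹ • z0, Submodule.smul_mem _ _ hz0, ?_⟩
      rw [ssm1, ssm2, map_inv₀, ← hμ]
      field_simp
    refine ⟨z1, hz1, h11, ?_⟩
    intro z hz
    by_contra hne
    -- z' = z - h z z1 z1 orthogonal to z1
    obtain ⟨z', hz', hz'0, hz'1⟩ : ∃ z' ∈ E, z' ≠ 0 ∧ h z' z1 = 0 := by
      refine ⟨z - h z z1 • z1, Submodule.sub_mem _ hz (Submodule.smul_mem _ _ hz1),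
        fun h3 => hne (sub_eq_zero.1 h3), ?_⟩
      have e9 : h (z - h z z1 • z1) z1 + h (h z z1 • z1) z1 = h z z1 := by
        rw [← sadd1, sub_add_cancel]
      rw [ssm1, h11, mul_one] at e9
      linear_combination e9
    have hk : σ (-(h z' z')) = -(h z' z') := by rw [map_neg, ← hh z' z']
    obtain ⟨a, ha⟩ := nrm_surj σ h2 h1 (-(h z' z')) hk
    have h5 : h z1 z' = 0 := by rw [hh z' z1, hz'1, map_zero]
    have h6 : h (a • z1 + z') (a • z1 + z') = 0 := by
      rw [sadd1, sadd2, sadd2, ssm1, ssm1, ssm2, ssm2, h11, h5, hz'1]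
      linear_combination ha
    have h7 : a • z1 + z' = 0 :=
      han _ (Submodule.add_mem _ (Submodule.smul_mem _ _ hz1) hz') h6
    have h8 : h (a • z1 + z') z1 = a := by
      rw [sadd1, ssm1, h11, hz'1, mul_one, add_zero]
    rw [h7, map_zero, LinearMap.zero_apply] at h8
    rw [← h8, zero_smul, zero_add] at h7
    exact hz'0 h7
  rcases hE with hE | ⟨z1, hz1, h11, hz⟩
  · -- even dimension
    refine ⟨Kind.unitaryEven σ h2 h1, r, ?_⟩
    let ι : V →ₗ[F] Vec F r :=
      { toFun := fun x => ((φ.symm x).1, (φ.symm x).2.1, 0, 0)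
        map_add' := by
          intro x y
          rw [map_add]
          simp
        map_smul' := by
          intro a x
          rw [map_smul]
          simp }
    have hι : ∀ x, ι x = ((φ.symm x).1, (φ.symm x).2.1, 0, 0) := fun _ => rfl
    have hz0 : ∀ x : (Fin r → F) × (Fin r → F) × E, (x.2.2 : V) = 0 := fun x => hE _ x.2.2.2
    refine ⟨ι, ?_, ?_, ?_, ?_⟩
    · rw [← LinearMap.ker_eq_bot, LinearMap.ker_eq_bot']
      intro x hx
      rw [hι] at hx
      have e1 : φ.symm x = 0 := by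
        refine Prod.ext (congrArg (fun z : Vec F r => z.1) hx)
          (Prod.ext (congrArg (fun z : Vec F r => z.2.1) hx) (Subtype.ext (hz0 _)))
      rw [← φ.apply_symm_apply x, e1, map_zero]
    · intro x
      have e1 := hQ (φ.symm x)
      rw [φ.apply_symm_apply, hPQ, hPQ, hz0, map_zero, hPT] at e1
      show h x x = 0 ↔ _
      rw [e1]
      show _ ↔ (((0 : F), (0 : F)) = 0 ∧ tv (Kind.unitaryEven σ h2 h1) (ι x) +
        σ (tv (Kind.unitaryEven σ h2 h1) (ι x)) = 0)
      simp only [tv, hι, Kind.sig, hPs, add_zero]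
      constructor
      · intro h3
        exact ⟨rfl, h3⟩
      · intro h3
        exact h3.2
    · intro x y _ _
      have e1 := hf (φ.symm x) (φ.symm y)
      rw [φ.apply_symm_apply, φ.apply_symm_apply, hPf, hPf, hz0, map_zero,
        LinearMap.zero_apply, add_zero] at e1
      show h x y = 0 ↔ _
      rw [e1]
      simp only [form, hι, Kind.sig, Kind.eps, Kind.bE, hPs, hPe, add_zero]
      try rfl
    · intro z hz
      have hz2 : z.2.2 = 0 := hz.1
      refine ⟨φ (z.1, z.2.1, 0), ?_⟩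
      rw [hι, φ.symm_apply_apply]
      exact Prod.ext rfl (Prod.ext rfl hz2.symm)
  · -- odd dimension
    refine ⟨Kind.unitaryOdd σ h2 h1, r, ?_⟩
    let ι : V →ₗ[F] Vec F r :=
      { toFun := fun x => ((φ.symm x).1, (φ.symm x).2.1, h ((φ.symm x).2.2 : V) z1, 0)
        map_add' := by
          intro x y
          rw [map_add]
          simp
        map_smul' := by
          intro a x
          rw [map_smul]
          simp }
    have hι : ∀ x, ι x = ((φ.symm x).1, (φ.symm x).2.1, h ((φ.symm x).2.2 : V) z1, 0) :=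
      fun _ => rfl
    have hform : ∀ z ∈ E, ∀ z' ∈ E, h z z' = h z z1 * σ (h z' z1) := by
      intro z hz3 z' hz4
      conv_lhs => rw [hz z' hz4]
      rw [ssm2, mul_comm]
    refine ⟨ι, ?_, ?_, ?_, ?_⟩
    · rw [← LinearMap.ker_eq_bot, LinearMap.ker_eq_bot']
      intro x hx
      rw [hι] at hx
      have e0 : ((φ.symm x).2.2 : V) = 0 := by
        have e3 : h ((φ.symm x).2.2 : V) z1 = 0 := congrArg (fun z : Vec F r => z.2.2.1) hx
        rw [hz _ (φ.symm x).2.2.2, e3, zero_smul]
      have e1 : φ.symm x = 0 := by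
        refine Prod.ext (congrArg (fun z : Vec F r => z.1) hx)
          (Prod.ext (congrArg (fun z : Vec F r => z.2.1) hx) (Subtype.ext e0))
      rw [← φ.apply_symm_apply x, e1, map_zero]
    · intro x
      have e1 := hQ (φ.symm x)
      rw [φ.apply_symm_apply, hPQ, hPQ, hPT,
        hform _ (φ.symm x).2.2.2 _ (φ.symm x).2.2.2] at e1
      show h x x = 0 ↔ _
      rw [e1]
      show _ ↔ ((0 : F) = 0 ∧ tv (Kind.unitaryOdd σ h2 h1) (ι x) +
        σ (tv (Kind.unitaryOdd σ h2 h1) (ι x)) + (ι x).2.2.1 * σ (ι x).2.2.1 = 0)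
      simp only [tv, hι, Kind.sig, hPs]
      constructor
      · intro h3
        exact ⟨trivial, h3⟩
      · intro h3
        exact h3.2
    · intro x y _ _
      have e1 := hf (φ.symm x) (φ.symm y)
      rw [φ.apply_symm_apply, φ.apply_symm_apply, hPf, hPf,
        hform _ (φ.symm x).2.2.2 _ (φ.symm y).2.2.2] at e1
      show h x y = 0 ↔ _
      rw [e1]
      simp only [form, hι, Kind.sig, Kind.eps, Kind.bE, hPs, hPe]
      try rfl
    · intro z hzs
      have hz2 : z.2.2.2 = 0 := hzs.1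
      refine ⟨φ (z.1, z.2.1, ⟨z.2.2.1 • z1, Submodule.smul_mem _ _ hz1⟩), ?_⟩
      rw [hι, φ.symm_apply_apply]
      refine Prod.ext rfl (Prod.ext rfl (Prod.ext ?_ hz2.symm))
      show h (z.2.2.1 • z1) z1 = z.2.2.1
      rw [ssm1, h11, mul_one]

end Pool.Agent.Lib.MP_e6ed9e_al.Polar
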