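import Pool.Agent.Lib.MP_e6ed9e_al.Polar.FreeDefs
import Pool.Agent.Lib.MP_e6ed9e_al.Polar.Witt88

/-!
Rows EMB Q and EMB A: nondegenerate quadratic and alternating forms over a finite field are of the
kinds hyperbolic, parabolic, elliptic, symplectic.
-/

namespace Pool.Agent.Lib.MP_e6ed9e_al.Polar

open Module SpreadPerm

/-- From a Witt decomposition to the embedding. -/
theorem emb_of {F V : Type} [Field F] [AddCommGroup V] [Module F V] (P : PForm F V)
    (g : PolarSp.Geo V) (hgS : ∀ x, g.S x ↔ P.Q x = 0) (hgP : ∀ x y, g.P x y ↔ P.f x y = 0)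
    (r : ℕ) (E : Submodule F V) (φ : ((Fin r → F) × (Fin r → F) × E) ≃ₗ[F] V)
    (hQ : ∀ x, P.Q (φ x) = P.T (∑ i, x.1 i * P.s (x.2.1 i)) + P.Q x.2.2)
    (hf : ∀ x y, P.f (φ x) (φ y) =
        ∑ i, (x.1 i * P.s (y.2.1 i) + P.eps * (x.2.1 i * P.s (y.1 i))) + P.f x.2.2 y.2.2)
    (X : Kind F) (hs : X.sig = P.s) (he : X.eps = P.eps) (c : F) (hcs : P.s c = c)
    (hc : c ≠ 0) (ε : E →ₗ[F] F × F) (hinj : ∀ z, ε z = 0 → z = 0)
    (hsurj : ∀ t e, X.sE t e → ∃ z, ε z = e)
    (h1 : ∀ (t : F) (z : E), P.T t + P.Q z = 0 ↔ X.sE (c⁻¹ * t) (ε z))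
    (h2 : ∀ (t : F) (z z' : E), t + P.f z z' = 0 ↔ c⁻¹ * t + X.bE (ε z) (ε z') = 0) :
    Emb F g := by
  let ι : V →ₗ[F] Vec F r :=
    { toFun := fun x => (c⁻¹ • (φ.symm x).1, (φ.symm x).2.1, ε (φ.symm x).2.2)
      map_add' := by
        intro x y
        rw [map_add, Prod.fst_add, Prod.snd_add, Prod.fst_add, Prod.snd_add, map_add, smul_add]
        rfl
      map_smul' := by
        intro a x
        rw [map_smul, Prod.smul_fst, Prod.smul_snd, Prod.smul_fst, Prod.smul_snd, map_smul,
          smul_comm]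
        rfl }
  have hι : ∀ x, ι x = (c⁻¹ • (φ.symm x).1, (φ.symm x).2.1, ε (φ.symm x).2.2) := fun _ => rfl
  have hcs' : P.s c⁻¹ = c⁻¹ := by rw [map_inv₀, hcs]
  refine ⟨X, r, ι, ?_, ?_, ?_, ?_⟩
  · rw [← LinearMap.ker_eq_bot, LinearMap.ker_eq_bot']
    intro x hx
    rw [hι] at hx
    have e1 : φ.symm x = 0 := by
      refine Prod.ext ?_ (Prod.ext (congrArg (fun z : Vec F r => z.2.1) hx)
        (hinj _ (congrArg (fun z : Vec F r => z.2.2) hx)))
      have e2 : c⁻¹ • (φ.symm x).1 = 0 := congrArg (fun z : Vec F r => z.1) hx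
      rcases smul_eq_zero.1 e2 with e3 | e3
      · exact absurd e3 (inv_ne_zero hc)
      · exact e3
    rw [← φ.apply_symm_apply x, e1, map_zero]
  · intro x
    have e1 := hQ (φ.symm x)
    rw [φ.apply_symm_apply] at e1
    rw [hgS, e1, h1]
    have e2 : tv X (ι x) = c⁻¹ * ∑ i, (φ.symm x).1 i * P.s ((φ.symm x).2.1 i) := by
      rw [tv, Finset.mul_sum]
      refine Finset.sum_congr rfl fun i _ => ?_
      rw [hι, hs]
      show c⁻¹ * (φ.symm x).1 i * _ = _
      ring
    show _ ↔ X.sE (tv X (ι x)) (ι x).2.2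
    rw [e2]
    exact Iff.rfl
  · intro x y _ _
    have e1 := hf (φ.symm x) (φ.symm y)
    rw [φ.apply_symm_apply, φ.apply_symm_apply] at e1
    rw [hgP, e1, h2]
    have e2 : ∑ i, ((ι x).1 i * X.sig ((ι y).2.1 i) + X.eps * ((ι x).2.1 i * X.sig ((ι y).1 i))) =
        c⁻¹ * ∑ i, ((φ.symm x).1 i * P.s ((φ.symm y).2.1 i) +
          P.eps * ((φ.symm x).2.1 i * P.s ((φ.symm y).1 i))) := by
      rw [Finset.mul_sum]
      refine Finset.sum_congr rfl fun i _ => ?_
      rw [hι, hι, hs, he]
      show c⁻¹ * (φ.symm x).1 i * _ + P.eps * (_ * P.s (c⁻¹ * (φ.symm y).1 i)) = _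
      rw [map_mul, hcs']
      ring
    show _ ↔ ∑ i, ((ι x).1 i * X.sig ((ι y).2.1 i) +
      X.eps * ((ι x).2.1 i * X.sig ((ι y).1 i))) + X.bE (ι x).2.2 (ι y).2.2 = 0
    rw [e2]
    exact Iff.rfl
  · intro z hz
    obtain ⟨y, hy⟩ := hsurj _ _ hz
    refine ⟨φ (c • z.1, z.2.1, y), ?_⟩
    rw [hι, φ.symm_apply_apply]
    refine Prod.ext ?_ (Prod.ext rfl hy)
    show c⁻¹ • c • z.1 = z.1
    rw [smul_smul, inv_mul_cancel₀ hc, one_smul]

/-- The structure of an alternating form. -/
def altForm {F V : Type} [Field F] [AddCommGroup V] [Module F V] (B : V →ₗ[F] V →ₗ[F] F)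
    (hB : ∀ x, B x x = 0) : PForm F V where
  s := RingHom.id F
  s_s := fun _ => rfl
  eps := -1
  f x y := B x y
  Q x := 0
  T := 0
  f_add_left x y z := by rw [map_add, LinearMap.add_apply]
  f_smul_left a x y := by rw [map_smul, LinearMap.smul_apply, smul_eq_mul]
  f_symm x y := by
    have h := hB (x + y)
    rw [map_add B x y, LinearMap.add_apply, map_add, map_add, hB, hB, zero_add, add_zero] at h
    rw [RingHom.id_apply]
    linear_combination h
  Q_smul a x := by simp
  Q_add x y := by simp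
  Q_T x := ⟨0, rfl⟩
  f_self x _ := hB x

theorem embA88 : StEmbA := by
  intro F V _ _ _ _ _ B hB hn
  let P : PForm F V := altForm B hB
  have hnd : P.Nondeg := fun x _ hy => hn x hy
  obtain ⟨r, E, φ, han, hQ, hf⟩ := P.decomp hnd
  have hE : ∀ z : E, z = 0 := fun z => Subtype.ext (han z z.2 rfl)
  refine emb_of P _ (fun x => ⟨fun _ => rfl, fun _ => trivial⟩) (fun x y => Iff.rfl) r E φ hQ hf
    Kind.symplectic rfl rfl 1 rfl one_ne_zero 0 (fun z _ => hE z) ?_ ?_ ?_
  · intro t e he
    exact ⟨0, by rw [map_zero]; exact he.symm⟩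
  · intro t z
    constructor
    · intro _
      rfl
    · intro _
      show (0 : F) + 0 = 0
      rw [add_zero]
  · intro t z z'
    rw [hE z]
    have e1 : P.f ((0 : E) : V) (z' : V) = 0 := P.f_zero_left _
    rw [e1, inv_one, one_mul]
    rfl

/-- The structure of a quadratic form. -/
def quadForm {F V : Type} [Field F] [AddCommGroup V] [Module F V] (Q : QuadraticForm F V) :
    PForm F V where
  s := RingHom.id F
  s_s := fun _ => rfl
  eps := 1
  f x y := QuadraticMap.polar Q x y
  Q x := Q x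
  T := AddMonoidHom.id F
  f_add_left x y z := QuadraticMap.polar_add_left Q x y z
  f_smul_left a x y := QuadraticMap.polar_smul_left Q a x y
  f_symm x y := by
    rw [one_mul, RingHom.id_apply, QuadraticMap.polar_comm]
  Q_smul a x := by
    rw [QuadraticMap.map_smul, RingHom.id_apply, smul_eq_mul]
  Q_add x y := QuadraticMap.map_add Q x y
  Q_T x := ⟨Q x, rfl⟩
  f_self x hx := by
    rw [QuadraticMap.polar_self, hx, smul_zero]

/-- The value on a combination of two vectors. -/
theorem Q_two {F V : Type} [Field F] [AddCommGroup V] [Module F V] (Q : QuadraticForm F V)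
    (x y : V) (a b : F) : Q (a • x + b • y) =
      a ^ 2 * Q x + a * b * QuadraticMap.polar Q x y + b ^ 2 * Q y := by
  rw [QuadraticMap.map_add Q (a • x) (b • y), QuadraticMap.map_smul, QuadraticMap.map_smul,
    QuadraticMap.polar_smul_left, QuadraticMap.polar_smul_right]
  simp only [smul_eq_mul]
  ring

/-- An anisotropic quadratic form over a finite field has at most two variables. -/
theorem aniso_le {F V : Type} [Field F] [Finite F] [AddCommGroup V] [Module F V]
    [FiniteDimensional F V] (Q : QuadraticForm F V) (han : ∀ z, Q z = 0 → z = 0) :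
    finrank F V ≤ 2 := by
  classical
  by_contra hcon
  push Not at hcon
  have := Fintype.ofFinite F
  let b := Module.finBasis F V
  let z : Fin 3 → V := fun i => b (Fin.castLE hcon i)
  have hli : LinearIndependent F z := b.linearIndependent.comp _ (Fin.castLE_injective hcon)
  let p : MvPolynomial (Fin 3) F :=
    MvPolynomial.C (Q (z 0)) * MvPolynomial.X 0 * MvPolynomial.X 0 +
    MvPolynomial.C (Q (z 1)) * MvPolynomial.X 1 * MvPolynomial.X 1 +
    MvPolynomial.C (Q (z 2)) * MvPolynomial.X 2 * MvPolynomial.X 2 +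
    MvPolynomial.C (QuadraticMap.polar Q (z 0) (z 1)) * MvPolynomial.X 0 * MvPolynomial.X 1 +
    MvPolynomial.C (QuadraticMap.polar Q (z 0) (z 2)) * MvPolynomial.X 0 * MvPolynomial.X 2 +
    MvPolynomial.C (QuadraticMap.polar Q (z 1) (z 2)) * MvPolynomial.X 1 * MvPolynomial.X 2
  have hmon : ∀ (c : F) (i j : Fin 3),
      (MvPolynomial.C c * MvPolynomial.X i * MvPolynomial.X j : MvPolynomial (Fin 3) F).IsHomogeneous
        2 := by
    intro c i j
    exact ((MvPolynomial.isHomogeneous_C _ c).mul (MvPolynomial.isHomogeneous_X _ i)).mul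
      (MvPolynomial.isHomogeneous_X _ j)
  have hp : p.IsHomogeneous 2 :=
    (((((hmon _ _ _).add (hmon _ _ _)).add (hmon _ _ _)).add (hmon _ _ _)).add
      (hmon _ _ _)).add (hmon _ _ _)
  have hdeg : p.totalDegree < Fintype.card (Fin 3) := by
    rw [Fintype.card_fin]
    exact lt_of_le_of_lt hp.totalDegree_le (by norm_num)
  have heval : ∀ x : Fin 3 → F, MvPolynomial.eval x p = Q (x 0 • z 0 + x 1 • z 1 + x 2 • z 2) := by
    intro x
    have e1 : Q (x 0 • z 0 + x 1 • z 1 + x 2 • z 2) = Q (x 0 • z 0 + x 1 • z 1) +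
        Q (x 2 • z 2) + QuadraticMap.polar Q (x 0 • z 0 + x 1 • z 1) (x 2 • z 2) :=
      QuadraticMap.map_add Q _ _
    rw [e1, Q_two, QuadraticMap.map_smul, QuadraticMap.polar_add_left,
      QuadraticMap.polar_smul_left, QuadraticMap.polar_smul_left,
      QuadraticMap.polar_smul_right, QuadraticMap.polar_smul_right]
    simp only [p, map_add, map_mul, MvPolynomial.eval_C, MvPolynomial.eval_X, smul_eq_mul]
    ring
  obtain ⟨q, hq⟩ := CharP.exists F
  have hqp : q.Prime := CharP.char_is_prime F q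
  have hdvd := char_dvd_card_solutions q hdeg
  have h0 : MvPolynomial.eval (0 : Fin 3 → F) p = 0 := by
    rw [heval]
    simp
  have hpos : 0 < Fintype.card {x : Fin 3 → F // MvPolynomial.eval x p = 0} :=
    Fintype.card_pos_iff.2 ⟨⟨0, h0⟩⟩
  have hgt : 1 < Fintype.card {x : Fin 3 → F // MvPolynomial.eval x p = 0} :=
    lt_of_lt_of_le hqp.one_lt (Nat.le_of_dvd hpos hdvd)
  obtain ⟨⟨x, hx⟩, hne⟩ := Fintype.exists_ne_of_one_lt_card hgt ⟨0, h0⟩
  have hx0 : x ≠ 0 := fun h3 => hne (Subtype.ext h3)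
  rw [heval] at hx
  have h4 := han _ hx
  rw [Fintype.linearIndependent_iff] at hli
  apply hx0
  funext i
  refine hli x ?_ i
  rw [Fin.sum_univ_three]
  exact h4

theorem embQ88 : StEmbQ := by
  intro F V _ _ _ _ _ Q hn
  let P : PForm F V := quadForm Q
  have hPf : ∀ x y, P.f x y = QuadraticMap.polar Q x y := fun _ _ => rfl
  have hPQ : ∀ x, P.Q x = Q x := fun _ => rfl
  have hPT : ∀ t, P.T t = t := fun _ => rfl
  have hnd : P.Nondeg := fun x hx hy => hn x hx hy
  obtain ⟨r, E, φ, han, hQ, hf⟩ := P.decomp hnd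
  have hle : finrank F E ≤ 2 := by
    refine aniso_le (Q.comp E.subtype) ?_
    intro z hz
    exact Subtype.ext (han z z.2 hz)
  have hcases : finrank F E = 0 ∨ finrank F E = 1 ∨ finrank F E = 2 := by omega
  rcases hcases with h0 | h0 | h0
  · -- hyperbolic
    have hE : ∀ z : E, z = 0 := by
      have := Module.finrank_zero_iff.1 h0
      exact fun z => Subsingleton.elim _ _
    refine emb_of P _ (fun x => Iff.rfl) (fun x y => Iff.rfl) r E φ hQ hf
      Kind.hyperbolic rfl rfl 1 rfl one_ne_zero 0 (fun z _ => hE z) ?_ ?_ ?_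
    · intro t e he
      exact ⟨0, by rw [map_zero]; exact he.1.symm⟩
    · intro t z
      rw [hE z, hPT, hPQ]
      show t + Q ((0 : E) : V) = 0 ↔ (0 : F × F) = 0 ∧ (1 : F)⁻¹ * t = 0
      simp
    · intro t z z'
      rw [hE z]
      have e1 : P.f ((0 : E) : V) (z' : V) = 0 := P.f_zero_left _
      rw [e1, inv_one, one_mul]
      rfl
  · -- parabolic
    let b := Module.finBasisOfFinrankEq F E h0
    have hb : ∀ z : E, z = b.repr z 0 • b 0 := by
      intro z
      conv_lhs => rw [← b.sum_repr z]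
      rw [Fin.sum_univ_one]
    set c := Q (b 0 : V) with hcdef
    have hc : c ≠ 0 := by
      intro h3
      have h4 := han _ (b 0).2 h3
      exact b.ne_zero 0 (Subtype.ext h4)
    have hQz : ∀ z : E, Q (z : V) = c * (b.repr z 0) ^ 2 := by
      intro z
      conv_lhs => rw [hb z]
      rw [Submodule.coe_smul, QuadraticMap.map_smul, smul_eq_mul, ← hcdef]
      ring
    have hfz : ∀ z z' : E, QuadraticMap.polar Q (z : V) (z' : V) =
        c * (2 * (b.repr z 0 * b.repr z' 0)) := by
      intro z z'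
      conv_lhs => rw [hb z, hb z']
      rw [Submodule.coe_smul, Submodule.coe_smul, QuadraticMap.polar_smul_left,
        QuadraticMap.polar_smul_right, QuadraticMap.polar_self, smul_eq_mul, smul_eq_mul,
        ← hcdef, two_smul]
      ring
    let ε : E →ₗ[F] F × F := (b.coord 0).prod 0
    have hε : ∀ z, ε z = (b.repr z 0, 0) := fun z => rfl
    refine emb_of P _ (fun x => Iff.rfl) (fun x y => Iff.rfl) r E φ hQ hf
      Kind.parabolic rfl rfl c rfl hc ε ?_ ?_ ?_ ?_
    · intro z hz
      rw [hε] at hz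
      have h3 : b.repr z 0 = 0 := congrArg Prod.fst hz
      rw [hb z, h3, zero_smul]
    · intro t e he
      refine ⟨e.1 • b 0, ?_⟩
      rw [hε, map_smul, b.repr_self]
      refine Prod.ext ?_ he.1.symm
      simp
    · intro t z
      rw [hPT, hPQ, hQz, hε]
      show t + c * (b.repr z 0) ^ 2 = 0 ↔ (0 : F) = 0 ∧ c⁻¹ * t + (b.repr z 0) ^ 2 = 0
      constructor
      · intro h3
        refine ⟨rfl, ?_⟩
        have h4 : c⁻¹ * (t + c * (b.repr z 0) ^ 2) = 0 := by rw [h3, mul_zero]
        rw [mul_add, ← mul_assoc, inv_mul_cancel₀ hc, one_mul] at h4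
        exact h4
      · rintro ⟨_, h3⟩
        have h4 : c * (c⁻¹ * t + (b.repr z 0) ^ 2) = 0 := by rw [h3, mul_zero]
        rw [mul_add, ← mul_assoc, mul_inv_cancel₀ hc, one_mul] at h4
        exact h4
    · intro t z z'
      rw [hPf, hfz, hε, hε]
      show t + c * (2 * (b.repr z 0 * b.repr z' 0)) = 0 ↔
        c⁻¹ * t + 2 * (b.repr z 0 * b.repr z' 0) = 0
      constructor
      · intro h3
        have h4 : c⁻¹ * (t + c * (2 * (b.repr z 0 * b.repr z' 0))) = 0 := by rw [h3, mul_zero]
        rw [mul_add, ← mul_assoc, inv_mul_cancel₀ hc, one_mul] at h4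
        exact h4
      · intro h3
        have h4 : c * (c⁻¹ * t + 2 * (b.repr z 0 * b.repr z' 0)) = 0 := by rw [h3, mul_zero]
        rw [mul_add, ← mul_assoc, mul_inv_cancel₀ hc, one_mul] at h4
        exact h4
  · -- elliptic
    let b := Module.finBasisOfFinrankEq F E h0
    have hb : ∀ z : E, z = b.repr z 0 • b 0 + b.repr z 1 • b 1 := by
      intro z
      conv_lhs => rw [← b.sum_repr z]
      rw [Fin.sum_univ_two]
    set c := Q (b 0 : V) with hcdef
    have hc : c ≠ 0 := by
      intro h3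
      have h4 := han _ (b 0).2 h3
      exact b.ne_zero 0 (Subtype.ext h4)
    set β := QuadraticMap.polar Q (b 0 : V) (b 1 : V) with hβ
    set γ := Q (b 1 : V) with hγ
    have hQz : ∀ z : E, Q (z : V) = c * ((b.repr z 0) ^ 2 +
        (β / c) * (b.repr z 0 * b.repr z 1) + (γ / c) * (b.repr z 1) ^ 2) := by
      intro z
      conv_lhs => rw [hb z]
      rw [Submodule.coe_add, Submodule.coe_smul, Submodule.coe_smul, Q_two, ← hcdef, ← hβ, ← hγ]
      field_simp
    have hfz : ∀ z z' : E, QuadraticMap.polar Q (z : V) (z' : V) =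
        c * (2 * (b.repr z 0 * b.repr z' 0) + (β / c) * (b.repr z 0 * b.repr z' 1 +
          b.repr z 1 * b.repr z' 0) + 2 * (γ / c) * (b.repr z 1 * b.repr z' 1)) := by
      intro z z'
      conv_lhs => rw [hb z, hb z']
      rw [Submodule.coe_add, Submodule.coe_smul, Submodule.coe_smul, Submodule.coe_add,
        Submodule.coe_smul, Submodule.coe_smul]
      simp only [QuadraticMap.polar_add_left, QuadraticMap.polar_add_right,
        QuadraticMap.polar_smul_left, QuadraticMap.polar_smul_right, QuadraticMap.polar_self,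
        QuadraticMap.polar_comm Q (b 1 : V) (b 0 : V), smul_eq_mul, two_smul]
      rw [← hcdef, ← hβ, ← hγ]
      field_simp
      ring
    have hroot : ∀ t : F, t ^ 2 + (β / c) * t + γ / c ≠ 0 := by
      intro t ht
      have h3 : Q (t • (b 0 : V) + (1 : F) • (b 1 : V)) = 0 := by
        rw [Q_two, ← hcdef, ← hβ, ← hγ]
        have h4 : c * (t ^ 2 + (β / c) * t + γ / c) = 0 := by rw [ht, mul_zero]
        field_simp at h4
        linear_combination h4
      have h5 : (t • b 0 + (1 : F) • b 1 : E) = 0 := by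
        refine Subtype.ext (han _ (Subtype.mem _) ?_)
        exact h3
      have h6 := congrArg (fun z => b.repr z 1) h5
      simp at h6
    let ε : E →ₗ[F] F × F := (b.coord 0).prod (b.coord 1)
    have hε : ∀ z, ε z = (b.repr z 0, b.repr z 1) := fun z => rfl
    refine emb_of P _ (fun x => Iff.rfl) (fun x y => Iff.rfl) r E φ hQ hf
      (Kind.elliptic (γ / c) (β / c) hroot) rfl rfl c rfl hc ε ?_ ?_ ?_ ?_
    · intro z hz
      rw [hε] at hz
      have h3 : b.repr z 0 = 0 := congrArg Prod.fst hz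
      have h4 : b.repr z 1 = 0 := congrArg Prod.snd hz
      rw [hb z, h3, h4, zero_smul, zero_smul, add_zero]
    · intro t e _
      refine ⟨e.1 • b 0 + e.2 • b 1, ?_⟩
      rw [hε, map_add, map_smul, map_smul, b.repr_self, b.repr_self]
      refine Prod.ext ?_ ?_ <;> simp
    · intro t z
      rw [hPT, hPQ, hQz, hε]
      show _ ↔ c⁻¹ * t + ((b.repr z 0) ^ 2 + (β / c) * (b.repr z 0 * b.repr z 1) +
        (γ / c) * (b.repr z 1) ^ 2) = 0
      constructor
      · intro h3
        have h4 := congrArg (fun y => c⁻¹ * y) h3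
        simp only [mul_zero] at h4
        rw [mul_add, ← mul_assoc c⁻¹ c, inv_mul_cancel₀ hc, one_mul] at h4
        exact h4
      · intro h3
        have h4 := congrArg (fun y => c * y) h3
        simp only [mul_zero] at h4
        rw [mul_add, ← mul_assoc c c⁻¹, mul_inv_cancel₀ hc, one_mul] at h4
        exact h4
    · intro t z z'
      rw [hPf, hfz, hε, hε]
      show _ ↔ c⁻¹ * t + (2 * (b.repr z 0 * b.repr z' 0) + (β / c) * (b.repr z 0 * b.repr z' 1 +
          b.repr z 1 * b.repr z' 0) + 2 * (γ / c) * (b.repr z 1 * b.repr z' 1)) = 0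
      constructor
      · intro h3
        have h4 := congrArg (fun y => c⁻¹ * y) h3
        simp only [mul_zero] at h4
        rw [mul_add, ← mul_assoc c⁻¹ c, inv_mul_cancel₀ hc, one_mul] at h4
        exact h4
      · intro h3
        have h4 := congrArg (fun y => c * y) h3
        simp only [mul_zero] at h4
        rw [mul_add, ← mul_assoc c c⁻¹, mul_inv_cancel₀ hc, one_mul] at h4
        exact h4

end Pool.Agent.Lib.MP_e6ed9e_al.Polar
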