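import Pool.Agent.Lib.MP_e6ed9e_al.Polar.Defs

/-!
# BASE B: parabolic quadrics of rank two, the difference of two elliptic hyperplane sections
-/

namespace Pool.Agent.Lib.MP_e6ed9e_al.Polar.B67

open Finset Module
open scoped Classical

variable {K : Type} [Field K]

/-- The polynomial `t ^ 2 + t + a` has no root for some `a`. -/
lemma exists_aniso [Fintype K] : ∃ a : K, ∀ t : K, t ^ 2 + 1 * t + a ≠ 0 := by
  by_contra hcon
  push Not at hcon
  have hsur : Function.Surjective (fun t : K => t ^ 2 + t) := fun c => by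
    obtain ⟨t, ht⟩ := hcon (-c)
    exact ⟨t, by linear_combination ht⟩
  have hinj := Finite.injective_iff_surjective.2 hsur
  have h1 : (0 : K) = -1 := hinj (by norm_num)
  exact one_ne_zero (neg_eq_zero.1 h1.symm)

/-- The linear functional with the kernel `u i = a w i + e`. -/
def ell (a : K) (i : Fin 2) : Vec K 2 →ₗ[K] K where
  toFun x := x.1 i - a * x.2.1 i - x.2.2.1
  map_add' x y := by
    simp only [Prod.fst_add, Prod.snd_add, Pi.add_apply]
    ring
  map_smul' c x := by
    simp only [Prod.smul_fst, Prod.smul_snd, Pi.smul_apply, smul_eq_mul, RingHom.id_apply]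
    ring

/-- The projection of the kernel to the elliptic space of rank one. -/
def rho (i j : Fin 2) : Vec K 2 →ₗ[K] Vec K 1 where
  toFun x := (fun _ => x.1 j, fun _ => x.2.1 j, x.2.2.1, x.2.1 i)
  map_add' _ _ := rfl
  map_smul' _ _ := rfl

lemma sing_par (x : Vec K 2) : Sing (Kind.parabolic : Kind K) x ↔
    x.2.2.2 = 0 ∧ x.1 0 * x.2.1 0 + x.1 1 * x.2.1 1 + x.2.2.1 ^ 2 = 0 := by
  simp only [Sing, Kind.sE, tv, Kind.sig, RingHom.id_apply, Fin.sum_univ_two]

lemma form_par (x y : Vec K 2) : form (Kind.parabolic : Kind K) x y =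
    x.1 0 * y.2.1 0 + x.2.1 0 * y.1 0 + (x.1 1 * y.2.1 1 + x.2.1 1 * y.1 1) +
      2 * (x.2.2.1 * y.2.2.1) := by
  simp only [form, Kind.bE, Kind.sig, Kind.eps, RingHom.id_apply, Fin.sum_univ_two]
  ring

lemma sing_ell (a : K) (h) (x : Vec K 1) : Sing (Kind.elliptic a 1 h : Kind K) x ↔
    x.1 0 * x.2.1 0 + (x.2.2.1 ^ 2 + 1 * (x.2.2.1 * x.2.2.2) + a * x.2.2.2 ^ 2) = 0 := by
  simp only [Sing, Kind.sE, tv, Kind.sig, RingHom.id_apply, Fin.sum_univ_one]

lemma form_ell (a : K) (h) (x y : Vec K 1) : form (Kind.elliptic a 1 h : Kind K) x y =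
    x.1 0 * y.2.1 0 + x.2.1 0 * y.1 0 +
      (2 * (x.2.2.1 * y.2.2.1) + 1 * (x.2.2.1 * y.2.2.2 + x.2.2.2 * y.2.2.1) +
        2 * a * (x.2.2.2 * y.2.2.2)) := by
  simp only [form, Kind.bE, Kind.sig, Kind.eps, RingHom.id_apply, Fin.sum_univ_one]
  ring

/-- A totally singular plane meets the hyperplane in exactly one point. -/
lemma finrank_inf [Fintype K] (hW2 : StWitt) (a : K) (h : ∀ t : K, t ^ 2 + 1 * t + a ≠ 0)
    (i j : Fin 2) (hij : (i = 0 ∧ j = 1) ∨ (i = 1 ∧ j = 0)) (W : Submodule K (Vec K 2))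
    (hW : TS (Kind.parabolic : Kind K) W) (hf : finrank K W = 2) :
    finrank K (W ⊓ LinearMap.ker (ell a i) : Submodule K (Vec K 2)) = 1 := by
  apply le_antisymm
  · -- at most one
    have hTS : TS (Kind.elliptic a 1 h : Kind K)
        ((W ⊓ LinearMap.ker (ell a i)).map (rho i j)) := by
      constructor
      · rintro _ ⟨x, hx, rfl⟩
        have h1 := (sing_par x).1 (hW.1 x hx.1)
        have h2 : x.1 i - a * x.2.1 i - x.2.2.1 = 0 := hx.2
        rw [sing_ell]
        simp only [rho, LinearMap.coe_mk, AddHom.coe_mk]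
        rcases hij with ⟨rfl, rfl⟩ | ⟨rfl, rfl⟩
        · linear_combination h1.2 - x.2.1 0 * h2
        · linear_combination h1.2 - x.2.1 1 * h2
      · rintro _ ⟨x, hx, rfl⟩ _ ⟨y, hy, rfl⟩
        have h1 := hW.2 x hx.1 y hy.1
        have h2 : x.1 i - a * x.2.1 i - x.2.2.1 = 0 := hx.2
        have h3 : y.1 i - a * y.2.1 i - y.2.2.1 = 0 := hy.2
        rw [form_par] at h1
        rw [form_ell]
        simp only [rho, LinearMap.coe_mk, AddHom.coe_mk]
        rcases hij with ⟨rfl, rfl⟩ | ⟨rfl, rfl⟩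
        · linear_combination h1 - y.2.1 0 * h2 - x.2.1 0 * h3
        · linear_combination h1 - y.2.1 1 * h2 - x.2.1 1 * h3
    have hle := hW2 K (Kind.elliptic a 1 h : Kind K) 1 _ hTS
    have hrn := LinearMap.finrank_range_add_finrank_ker
      ((rho (K := K) i j).domRestrict (W ⊓ LinearMap.ker (ell a i)))
    rw [LinearMap.range_domRestrict] at hrn
    have hker : LinearMap.ker ((rho (K := K) i j).domRestrict (W ⊓ LinearMap.ker (ell a i))) = ⊥ := by
      rw [LinearMap.ker_eq_bot']
      intro x hx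
      have hx1 : rho (K := K) i j x.1 = 0 := hx
      have h2 : x.1.1 i - a * x.1.2.1 i - x.1.2.2.1 = 0 := x.2.2
      have h3 := ((sing_par x.1).1 (hW.1 x.1 x.2.1)).1
      have h4 : x.1.1 j = 0 := congrFun (congrArg Prod.fst hx1) 0
      have h5 : x.1.2.1 j = 0 := congrFun (congrArg (fun z => z.2.1) hx1) 0
      have h6 : x.1.2.2.1 = 0 := congrArg (fun z => z.2.2.1) hx1
      have h7 : x.1.2.1 i = 0 := congrArg (fun z => z.2.2.2) hx1
      have h8 : x.1.1 i = 0 := by
        rw [h6, h7] at h2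
        linear_combination h2
      apply Subtype.ext
      refine Prod.ext ?_ (Prod.ext ?_ (Prod.ext h6 h3))
      · funext k
        rcases hij with ⟨rfl, rfl⟩ | ⟨rfl, rfl⟩ <;> fin_cases k <;> assumption
      · funext k
        rcases hij with ⟨rfl, rfl⟩ | ⟨rfl, rfl⟩ <;> fin_cases k <;> assumption
    rw [hker, finrank_bot, add_zero] at hrn
    rw [← hrn]
    exact hle
  · -- at least one
    have hrn := LinearMap.finrank_range_add_finrank_ker ((ell a i).domRestrict W)
    have h1 : finrank K (LinearMap.range ((ell a i).domRestrict W)) ≤ 1 := by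
      have := Submodule.finrank_le (LinearMap.range ((ell a i).domRestrict W))
      simpa using this
    have h2 : finrank K ((LinearMap.ker ((ell a i).domRestrict W)).map W.subtype) ≤
        finrank K (W ⊓ LinearMap.ker (ell a i) : Submodule K (Vec K 2)) := by
      apply Submodule.finrank_mono
      rintro _ ⟨x, hx, rfl⟩
      exact ⟨x.2, hx⟩
    rw [Submodule.finrank_map_subtype_eq] at h2
    omega

/-- The number of vectors of a submodule. -/
lemma card_filter [Fintype K] (U : Submodule K (Vec K 2)) :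
    (univ.filter (fun x => x ∈ U)).card = Fintype.card K ^ finrank K U := by
  rw [← Module.card_eq_pow_finrank (K := K) (V := U), Fintype.card_subtype]

/-- **BASE B.** -/
theorem stB67 (hW2 : StWitt) : StB := by
  intro K _ _
  obtain ⟨a, h⟩ := exists_aniso (K := K)
  refine ⟨fun x => (if ell a 0 x = 0 then 1 else 0) - (if ell a 1 x = 0 then 1 else 0),
    ?_, ?_, ?_, ?_, ?_⟩
  · simp
  · intro c x hc
    simp [map_smul, hc]
  · intro x
    split_ifs <;> norm_num
  · refine ⟨(![0, 1], ![0, 0], 0, 0), ?_, ?_, ?_⟩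
    · intro h0
      have h1 := congrFun (congrArg Prod.fst h0) 1
      simp at h1
    · rw [sing_par]
      simp
    · simp [ell]
  · intro W hW hf
    rw [Finset.sum_sub_distrib]
    have key : ∀ i j : Fin 2, (i = 0 ∧ j = 1) ∨ (i = 1 ∧ j = 0) →
        ∑ x ∈ univ.filter (fun x => x ∈ W), (if ell a i x = 0 then (1 : ℤ) else 0) =
          Fintype.card K := by
      intro i j hij
      rw [Finset.sum_ite, Finset.sum_const_zero, add_zero, Finset.sum_const, Finset.filter_filter]
      have h1 := card_filter (W ⊓ LinearMap.ker (ell a i))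
      rw [finrank_inf hW2 a h i j hij W hW hf, pow_one] at h1
      rw [← h1]
      simp [Submodule.mem_inf, LinearMap.mem_ker]
    rw [key 0 1 (Or.inl ⟨rfl, rfl⟩), key 1 0 (Or.inr ⟨rfl, rfl⟩), sub_self]

end Pool.Agent.Lib.MP_e6ed9e_al.Polar.B67
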