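import Mathlib
import Pool.Agent.Lib.MP_e6ed9e_al.Defs

/-!
# The finite classical polar spaces, and the statements of the modules of the room POLAR
-/

namespace Pool.Agent.Lib.MP_e6ed9e_al.Polar

open Finset SpreadPerm Module
open scoped Classical

/-- The six types of classical polar spaces over `K`, with the data of the form. -/
inductive Kind (K : Type) [Field K] : Type
  | symplectic : Kind K
  | hyperbolic : Kind K
  | parabolic : Kind K
  | elliptic (a b : K) (h : ∀ t : K, t ^ 2 + b * t + a ≠ 0) : Kind K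
  | unitaryEven (σ : K →+* K) (h2 : ∀ t, σ (σ t) = t) (h1 : ∃ t, σ t ≠ t) : Kind K
  | unitaryOdd (σ : K →+* K) (h2 : ∀ t, σ (σ t) = t) (h1 : ∃ t, σ t ≠ t) : Kind K

variable {K : Type} [Field K]

/-- The vectors `(u, w, e₁, e₂)`. -/
abbrev Vec (K : Type) (r : ℕ) : Type := (Fin r → K) × (Fin r → K) × K × K

/-- The field automorphism of the form. -/
def Kind.sig : Kind K → (K →+* K)
  | .unitaryEven σ _ _ => σ
  | .unitaryOdd σ _ _ => σ
  | _ => RingHom.id K

/-- The sign of the form. -/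
def Kind.eps : Kind K → K
  | .symplectic => -1
  | _ => 1

/-- The part of the form on the coordinates `e₁, e₂`. -/
def Kind.bE : Kind K → K × K → K × K → K
  | .parabolic, e, f => 2 * (e.1 * f.1)
  | .elliptic a b _, e, f => 2 * (e.1 * f.1) + b * (e.1 * f.2 + e.2 * f.1) + 2 * a * (e.2 * f.2)
  | .unitaryOdd σ _ _, e, f => e.1 * σ f.1
  | _, _, _ => 0

/-- The vector with the value `t = ∑ uᵢ σ(wᵢ)` and with the last coordinates `e` is singular. -/
def Kind.sE : Kind K → K → K × K → Prop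
  | .symplectic, _, e => e = 0
  | .hyperbolic, t, e => e = 0 ∧ t = 0
  | .parabolic, t, e => e.2 = 0 ∧ t + e.1 ^ 2 = 0
  | .elliptic a b _, t, e => t + (e.1 ^ 2 + b * (e.1 * e.2) + a * e.2 ^ 2) = 0
  | .unitaryEven σ _ _, t, e => e = 0 ∧ t + σ t = 0
  | .unitaryOdd σ _ _, t, e => e.2 = 0 ∧ t + σ t + e.1 * σ e.1 = 0

/-- The value `∑ uᵢ σ(wᵢ)`. -/
def tv (X : Kind K) {r : ℕ} (x : Vec K r) : K := ∑ i, x.1 i * X.sig (x.2.1 i)

/-- The (polar) form. -/
def form (X : Kind K) {r : ℕ} (x y : Vec K r) : K :=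
  ∑ i, (x.1 i * X.sig (y.2.1 i) + X.eps * (x.2.1 i * X.sig (y.1 i))) + X.bE x.2.2 y.2.2

/-- The singular (isotropic) vectors. -/
def Sing (X : Kind K) {r : ℕ} (x : Vec K r) : Prop := X.sE (tv X x) x.2.2

/-- The totally singular subspaces. -/
def TS (X : Kind K) {r : ℕ} (W : Submodule K (Vec K r)) : Prop :=
  (∀ x ∈ W, Sing X x) ∧ ∀ x ∈ W, ∀ y ∈ W, form X x y = 0

/-- The points of the polar space. -/
def Pt (X : Kind K) (r : ℕ) : Type :=
  {P : Submodule K (Vec K r) // finrank K P = 1 ∧ ∀ x ∈ P, Sing X x}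

/-- Two points are collinear (or equal). -/
def Col {X : Kind K} {r : ℕ} (P P' : Pt X r) : Prop :=
  ∀ x ∈ P.1, ∀ y ∈ P'.1, form X x y = 0

noncomputable section

instance [Fintype K] (r : ℕ) (X : Kind K) : Finite (Pt X r) := by
  unfold Pt; infer_instance

instance [Fintype K] (r : ℕ) (X : Kind K) : Fintype (Pt X r) := Fintype.ofFinite _

/-- A function on the vectors with zero sum on all maximal totally singular subspaces. -/
structure Good [Fintype K] (X : Kind K) {r : ℕ} (v : Vec K r → ℤ) : Prop where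
  zero : v 0 = 0
  smul : ∀ (c : K) (x : Vec K r), c ≠ 0 → v (c • x) = v x
  ge : ∀ x, -1 ≤ v x
  ne : ∃ x, x ≠ 0 ∧ Sing X x ∧ v x ≠ 0
  sum : ∀ W : Submodule K (Vec K r), TS X W → finrank K W = r →
    ∑ x ∈ univ.filter (fun x => x ∈ W), v x = 0

/-! ## The rows -/

/-- WITT -/
def StWitt : Prop := ∀ (K : Type) [Field K] [Fintype K] (X : Kind K) (r : ℕ)
  (W : Submodule K (Vec K r)), TS X W → finrank K W ≤ r

/-- LIFT -/
def StLift : Prop := ∀ (K : Type) [Field K] [Fintype K] (X : Kind K) (r : ℕ) (v : Vec K r → ℤ),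
  Good X v → ∃ v' : Vec K (r + 1) → ℤ, Good X v'

/-- SUM: the sum over a totally singular plane with the basis `x, y`. -/
def StSum : Prop := ∀ (K : Type) [Field K] [Fintype K] (r : ℕ) (v : Vec K r → ℤ)
  (W : Submodule K (Vec K r)) (x y : Vec K r), v 0 = 0 →
  (∀ (c : K) (x : Vec K r), c ≠ 0 → v (c • x) = v x) → finrank K W = 2 → x ∈ W → y ∈ W →
  LinearIndependent K ![x, y] →
  ∑ z ∈ univ.filter (fun z => z ∈ W), v z =
    ((Fintype.card K : ℤ) - 1) * (v x + ∑ t : K, v (y + t • x))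

/-- BASE A: no last coordinates. -/
def StA : Prop := ∀ (K : Type) [Field K] [Fintype K] (X : Kind K),
  (X = .symplectic ∨ X = .hyperbolic ∨ ∃ σ h2 h1, X = .unitaryEven σ h2 h1) →
  ∃ v : Vec K 2 → ℤ, Good X v

/-- BASE B: parabolic quadrics. -/
def StB : Prop := ∀ (K : Type) [Field K] [Fintype K],
  ∃ v : Vec K 2 → ℤ, Good (Kind.parabolic : Kind K) v

/-- BASE C: elliptic quadrics, odd characteristic. -/
def StC : Prop := ∀ (K : Type) [Field K] [Fintype K], (2 : K) ≠ 0 → ∀ a b h,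
  ∃ v : Vec K 2 → ℤ, Good (Kind.elliptic a b h : Kind K) v

/-- BASE D: elliptic quadrics, characteristic two. -/
def StD : Prop := ∀ (K : Type) [Field K] [Fintype K], (2 : K) = 0 → ∀ a b h,
  ∃ v : Vec K 2 → ℤ, Good (Kind.elliptic a b h : Kind K) v

/-- BASE E: hermitian varieties in an odd number of variables, from the elliptic quadrics over
the fixed field. -/
def StE : Prop := (∀ (F : Type) [Field F] [Fintype F] (a b : F) h,
    ∃ v : Vec F 2 → ℤ, Good (Kind.elliptic a b h : Kind F) v) →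
  ∀ (K : Type) [Field K] [Fintype K] (σ : K →+* K) h2 h1,
  ∃ v : Vec K 2 → ℤ, Good (Kind.unitaryOdd σ h2 h1 : Kind K) v

/-- COMB: the combinatorial criterion. -/
def StComb : Prop := ∀ (G : Type) [Group G] (Ω : Type) [Fintype Ω] [MulAction G Ω]
  [MulAction.IsPretransitive G Ω] (B : Finset Ω) (v : Ω → ℤ), 1 < B.card →
  B.card < Fintype.card Ω → (∀ i, -1 ≤ v i) → (∃ i, v i ≠ 0) →
  (∀ g : G, ∑ b ∈ B, v (g • b) = 0) → NonSpreading G Ω

/-- PASS: from vectors to points. -/
def StPass : Prop := ∀ (K : Type) [Field K] [Fintype K] (X : Kind K) (r : ℕ), 2 ≤ r →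
  (∃ v : Vec K r → ℤ, Good X v) →
  ∀ (G : Type) [Group G] [MulAction G (Pt X r)] [MulAction.IsPretransitive G (Pt X r)],
  (∀ (g : G) (P P' : Pt X r), Col P P' → Col (g • P) (g • P')) → NonSpreading G (Pt X r)

/-- FINAL -/
def StFinal : Prop := ∀ (K : Type) [Field K] [Fintype K] (X : Kind K) (r : ℕ), 2 ≤ r →
  ∀ (G : Type) [Group G] [MulAction G (Pt X r)] [MulAction.IsPretransitive G (Pt X r)],
  (∀ (g : G) (P P' : Pt X r), Col P P' → Col (g • P) (g • P')) → NonSpreading G (Pt X r)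

end

end Pool.Agent.Lib.MP_e6ed9e_al.Polar
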