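import Mathlib
import Pool.Agent.Lib.MP_e6ed9e_al.Polar.Defs

/-! # Basic facts on the forms of the room POLAR -/

namespace Pool.Agent.Lib.MP_e6ed9e_al.Polar

open Finset SpreadPerm Module
open scoped Classical

variable {K : Type} [Field K] (X : Kind K)

lemma sig_sig (t : K) : X.sig (X.sig t) = t := by
  cases X with
  | unitaryEven σ h2 h1 => exact h2 t
  | unitaryOdd σ h2 h1 => exact h2 t
  | _ => rfl

lemma eps_sq : X.eps * X.eps = 1 := by
  cases X <;> simp [Kind.eps]

lemma sig_eps : X.sig X.eps = X.eps := by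
  cases X <;> simp [Kind.eps, Kind.sig]

lemma eps_ne : X.eps ≠ 0 := by
  intro h
  have := eps_sq X
  rw [h] at this
  simp at this

lemma bE_add_left (e f g : K × K) : X.bE (e + f) g = X.bE e g + X.bE f g := by
  cases X <;> simp only [Kind.bE, Prod.fst_add, Prod.snd_add] <;> ring

lemma bE_add_right (e f g : K × K) : X.bE e (f + g) = X.bE e f + X.bE e g := by
  cases X <;> simp only [Kind.bE, Prod.fst_add, Prod.snd_add, map_add] <;> ring

lemma bE_smul_left (c : K) (e f : K × K) : X.bE (c • e) f = c * X.bE e f := by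
  cases X <;> simp only [Kind.bE, Prod.smul_fst, Prod.smul_snd, smul_eq_mul] <;> ring

lemma bE_smul_right (c : K) (e f : K × K) : X.bE e (c • f) = X.sig c * X.bE e f := by
  cases X <;> simp only [Kind.bE, Kind.sig, Prod.smul_fst, Prod.smul_snd, smul_eq_mul, map_mul,
    RingHom.id_apply] <;> ring

lemma bE_symm (e f : K × K) : X.bE f e = X.eps * X.sig (X.bE e f) := by
  cases X with
  | unitaryOdd σ h2 h1 => simp only [Kind.bE, Kind.sig, Kind.eps, map_mul, h2]; ring
  | unitaryEven σ h2 h1 => simp [Kind.bE, Kind.sig, Kind.eps]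
  | _ => simp only [Kind.bE, Kind.sig, Kind.eps, RingHom.id_apply] <;> ring

section
variable {r : ℕ}

lemma form_add_left (x y z : Vec K r) : form X (x + y) z = form X x z + form X y z := by
  unfold form
  rw [show (x + y).2.2 = x.2.2 + y.2.2 from rfl, bE_add_left]
  have : ∀ i, ((x + y).1 i * X.sig (z.2.1 i) + X.eps * ((x + y).2.1 i * X.sig (z.1 i))) =
      (x.1 i * X.sig (z.2.1 i) + X.eps * (x.2.1 i * X.sig (z.1 i))) +
      (y.1 i * X.sig (z.2.1 i) + X.eps * (y.2.1 i * X.sig (z.1 i))) := by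
    intro i
    simp only [Prod.fst_add, Prod.snd_add, Pi.add_apply]
    ring
  rw [sum_congr rfl (fun i _ => this i), sum_add_distrib]
  ring

lemma form_add_right (x y z : Vec K r) : form X x (y + z) = form X x y + form X x z := by
  unfold form
  rw [show (y + z).2.2 = y.2.2 + z.2.2 from rfl, bE_add_right]
  have : ∀ i, (x.1 i * X.sig ((y + z).2.1 i) + X.eps * (x.2.1 i * X.sig ((y + z).1 i))) =
      (x.1 i * X.sig (y.2.1 i) + X.eps * (x.2.1 i * X.sig (y.1 i))) +
      (x.1 i * X.sig (z.2.1 i) + X.eps * (x.2.1 i * X.sig (z.1 i))) := by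
    intro i
    simp only [Prod.fst_add, Prod.snd_add, Pi.add_apply, map_add]
    ring
  rw [sum_congr rfl (fun i _ => this i), sum_add_distrib]
  ring

lemma form_smul_left (c : K) (x y : Vec K r) : form X (c • x) y = c * form X x y := by
  unfold form
  rw [show (c • x).2.2 = c • x.2.2 from rfl, bE_smul_left, mul_add, mul_sum]
  congr 1
  refine sum_congr rfl (fun i _ => ?_)
  simp only [Prod.smul_fst, Prod.smul_snd, Pi.smul_apply, smul_eq_mul]
  ring

lemma form_smul_right (c : K) (x y : Vec K r) : form X x (c • y) = X.sig c * form X x y := by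
  unfold form
  rw [show (c • y).2.2 = c • y.2.2 from rfl, bE_smul_right, mul_add, mul_sum]
  congr 1
  refine sum_congr rfl (fun i _ => ?_)
  simp only [Prod.smul_fst, Prod.smul_snd, Pi.smul_apply, smul_eq_mul, map_mul]
  ring

lemma form_symm (x y : Vec K r) : form X y x = X.eps * X.sig (form X x y) := by
  unfold form
  rw [map_add, map_sum, mul_add, ← bE_symm, mul_sum]
  congr 1
  refine sum_congr rfl (fun i _ => ?_)
  simp only [map_add, map_mul, sig_sig, sig_eps]
  linear_combination (-(y.1 i * X.sig (x.2.1 i))) * eps_sq X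

lemma form_zero_symm {x y : Vec K r} (h : form X x y = 0) : form X y x = 0 := by
  rw [form_symm, h]; simp

lemma form_zero_left (y : Vec K r) : form X 0 y = 0 := by
  have := form_smul_left X (0 : K) (0 : Vec K r) y
  simpa using this

lemma form_zero_right (x : Vec K r) : form X x 0 = 0 := by
  have := form_smul_right X (0 : K) x (0 : Vec K r)
  simpa using this

lemma tv_smul (c : K) (x : Vec K r) : tv X (c • x) = c * X.sig c * tv X x := by
  unfold tv
  rw [mul_sum]
  refine sum_congr rfl (fun i _ => ?_)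
  simp only [Prod.smul_fst, Prod.smul_snd, Pi.smul_apply, smul_eq_mul, map_mul]
  ring

/-- the cross term of `tv` -/
lemma tv_add (x y : Vec K r) : tv X (x + y) = tv X x + tv X y +
    ∑ i, (x.1 i * X.sig (y.2.1 i) + y.1 i * X.sig (x.2.1 i)) := by
  unfold tv
  rw [← sum_add_distrib, ← sum_add_distrib]
  refine sum_congr rfl (fun i _ => ?_)
  simp only [Prod.fst_add, Prod.snd_add, Pi.add_apply, map_add]
  ring

lemma Sing_zero : Sing X (0 : Vec K r) := by
  unfold Sing tv
  cases X <;> simp [Kind.sE]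

lemma Sing_smul {x : Vec K r} (c : K) (h : Sing X x) : Sing X (c • x) := by
  unfold Sing at h ⊢
  rw [tv_smul]
  rw [show (c • x).2.2 = c • x.2.2 from rfl]
  cases X with
  | symplectic =>
    simp only [Kind.sE] at h ⊢
    rw [h]; simp
  | hyperbolic =>
    simp only [Kind.sE] at h ⊢
    rw [h.1, h.2]; simp
  | parabolic =>
    simp only [Kind.sE, Kind.sig, Prod.smul_fst, Prod.smul_snd, smul_eq_mul,
      RingHom.id_apply] at h ⊢
    refine ⟨by rw [h.1]; simp, ?_⟩
    linear_combination c ^ 2 * h.2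
  | elliptic a b h0 =>
    simp only [Kind.sE, Kind.sig, Prod.smul_fst, Prod.smul_snd, smul_eq_mul,
      RingHom.id_apply] at h ⊢
    linear_combination c ^ 2 * h
  | unitaryEven σ h2 h1 =>
    simp only [Kind.sE, Kind.sig, map_mul, h2] at h ⊢
    refine ⟨by rw [h.1]; simp, ?_⟩
    linear_combination c * σ c * h.2
  | unitaryOdd σ h2 h1 =>
    simp only [Kind.sE, Kind.sig, map_mul, h2, Prod.smul_fst, Prod.smul_snd, smul_eq_mul] at h ⊢
    refine ⟨by rw [h.1]; simp, ?_⟩
    linear_combination c * σ c * h.2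

lemma Sing_add {x y : Vec K r} (hx : Sing X x) (hy : Sing X y) (h : form X x y = 0) :
    Sing X (x + y) := by
  unfold Sing at hx hy ⊢
  rw [tv_add]
  rw [show (x + y).2.2 = x.2.2 + y.2.2 from rfl]
  unfold form at h
  cases X with
  | symplectic =>
    simp only [Kind.sE] at hx hy ⊢
    rw [hx, hy]; simp
  | hyperbolic =>
    simp only [Kind.sE, Kind.sig, RingHom.id_apply, Kind.eps, Kind.bE] at hx hy h ⊢
    refine ⟨by rw [hx.1, hy.1]; simp, ?_⟩
    rw [hx.2, hy.2]
    simp only [one_mul, add_zero] at h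
    rw [add_zero, zero_add, ← h]
    exact sum_congr rfl (fun i _ => by ring)
  | parabolic =>
    simp only [Kind.sE, Kind.sig, RingHom.id_apply, Kind.eps, Kind.bE, Prod.fst_add,
      Prod.snd_add] at hx hy h ⊢
    refine ⟨by rw [hx.1, hy.1]; simp, ?_⟩
    simp only [one_mul] at h
    have h' : ∑ i, (x.1 i * y.2.1 i + y.1 i * x.2.1 i) = ∑ i, (x.1 i * y.2.1 i + x.2.1 i * y.1 i) :=
      sum_congr rfl (fun i _ => by ring)
    rw [h']
    linear_combination hx.2 + hy.2 + h
  | elliptic a b h0 =>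
    simp only [Kind.sE, Kind.sig, RingHom.id_apply, Kind.eps, Kind.bE, Prod.fst_add,
      Prod.snd_add] at hx hy h ⊢
    simp only [one_mul] at h
    have h' : ∑ i, (x.1 i * y.2.1 i + y.1 i * x.2.1 i) = ∑ i, (x.1 i * y.2.1 i + x.2.1 i * y.1 i) :=
      sum_congr rfl (fun i _ => by ring)
    rw [h']
    linear_combination hx + hy + h
  | unitaryEven σ h2 h1 =>
    simp only [Kind.sE, Kind.sig, Kind.eps, Kind.bE, one_mul, add_zero] at hx hy h ⊢
    refine ⟨by rw [hx.1, hy.1]; simp, ?_⟩
    have hs : σ (∑ i, (x.1 i * σ (y.2.1 i) + x.2.1 i * σ (y.1 i))) = 0 := by rw [h]; simp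
    rw [map_add, map_add, map_sum]
    rw [map_sum] at hs
    have h' : ∑ i, (x.1 i * σ (y.2.1 i) + y.1 i * σ (x.2.1 i)) +
        ∑ i, σ (x.1 i * σ (y.2.1 i) + y.1 i * σ (x.2.1 i)) =
        ∑ i, (x.1 i * σ (y.2.1 i) + x.2.1 i * σ (y.1 i)) +
        ∑ i, σ (x.1 i * σ (y.2.1 i) + x.2.1 i * σ (y.1 i)) := by
      rw [← sum_add_distrib, ← sum_add_distrib]
      refine sum_congr rfl (fun i _ => ?_)
      simp only [map_add, map_mul, h2]
      ring
    linear_combination hx.2 + hy.2 + h' + h + hs
  | unitaryOdd σ h2 h1 =>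
    simp only [Kind.sE, Kind.sig, Kind.eps, Kind.bE, one_mul, Prod.fst_add,
      Prod.snd_add] at hx hy h ⊢
    refine ⟨by rw [hx.1, hy.1]; simp, ?_⟩
    have hs : σ (∑ i, (x.1 i * σ (y.2.1 i) + x.2.1 i * σ (y.1 i)) + x.2.2.1 * σ y.2.2.1) = 0 := by
      rw [h]; simp
    rw [map_add, map_add, map_sum, map_add]
    rw [map_add, map_sum, map_mul, h2] at hs
    have h' : ∑ i, (x.1 i * σ (y.2.1 i) + y.1 i * σ (x.2.1 i)) +
        ∑ i, σ (x.1 i * σ (y.2.1 i) + y.1 i * σ (x.2.1 i)) =
        ∑ i, (x.1 i * σ (y.2.1 i) + x.2.1 i * σ (y.1 i)) +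
        ∑ i, σ (x.1 i * σ (y.2.1 i) + x.2.1 i * σ (y.1 i)) := by
      rw [← sum_add_distrib, ← sum_add_distrib]
      refine sum_congr rfl (fun i _ => ?_)
      simp only [map_add, map_mul, h2]
      ring
    linear_combination hx.2 + hy.2 + h' + h + hs

lemma form_self {x : Vec K r} (hx : Sing X x) : form X x x = 0 := by
  unfold Sing tv at hx
  unfold form
  cases X with
  | symplectic =>
    simp only [Kind.sE, Kind.sig, RingHom.id_apply, Kind.eps, Kind.bE, add_zero] at hx ⊢
    exact sum_eq_zero (fun i _ => by ring)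
  | hyperbolic =>
    simp only [Kind.sE, Kind.sig, RingHom.id_apply, Kind.eps, Kind.bE, add_zero, one_mul] at hx ⊢
    rw [sum_add_distrib]
    have : ∑ i, x.2.1 i * x.1 i = ∑ i, x.1 i * x.2.1 i := sum_congr rfl (fun i _ => by ring)
    rw [this, hx.2, add_zero]
  | parabolic =>
    simp only [Kind.sE, Kind.sig, RingHom.id_apply, Kind.eps, Kind.bE, one_mul] at hx ⊢
    rw [sum_add_distrib]
    have : ∑ i, x.2.1 i * x.1 i = ∑ i, x.1 i * x.2.1 i := sum_congr rfl (fun i _ => by ring)
    rw [this]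
    linear_combination 2 * hx.2
  | elliptic a b h0 =>
    simp only [Kind.sE, Kind.sig, RingHom.id_apply, Kind.eps, Kind.bE, one_mul] at hx ⊢
    rw [sum_add_distrib]
    have : ∑ i, x.2.1 i * x.1 i = ∑ i, x.1 i * x.2.1 i := sum_congr rfl (fun i _ => by ring)
    rw [this]
    linear_combination 2 * hx
  | unitaryEven σ h2 h1 =>
    simp only [Kind.sE, Kind.sig, Kind.eps, Kind.bE, one_mul, add_zero] at hx ⊢
    rw [sum_add_distrib]
    have : ∑ i, x.2.1 i * σ (x.1 i) = σ (∑ i, x.1 i * σ (x.2.1 i)) := by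
      rw [map_sum]
      exact sum_congr rfl (fun i _ => by rw [map_mul, h2]; ring)
    rw [this]
    exact hx.2
  | unitaryOdd σ h2 h1 =>
    simp only [Kind.sE, Kind.sig, Kind.eps, Kind.bE, one_mul] at hx ⊢
    rw [sum_add_distrib]
    have : ∑ i, x.2.1 i * σ (x.1 i) = σ (∑ i, x.1 i * σ (x.2.1 i)) := by
      rw [map_sum]
      exact sum_congr rfl (fun i _ => by rw [map_mul, h2]; ring)
    rw [this]
    linear_combination hx.2

/-- The span of pairwise perpendicular singular vectors is totally singular. -/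
lemma TS_span {S : Set (Vec K r)} (h1 : ∀ x ∈ S, Sing X x)
    (h2 : ∀ x ∈ S, ∀ y ∈ S, form X x y = 0) : TS X (Submodule.span K S) := by
  have hf : ∀ x ∈ Submodule.span K S, ∀ y ∈ Submodule.span K S, form X x y = 0 := by
    intro x hx y hy
    induction hx using Submodule.span_induction with
    | mem x hx =>
      induction hy using Submodule.span_induction with
      | mem y hy => exact h2 x hx y hy
      | zero => exact form_zero_right X x
      | add y z _ _ h h' => rw [form_add_right, h, h', add_zero]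
      | smul c y _ h => rw [form_smul_right, h, mul_zero]
    | zero => exact form_zero_left X y
    | add x z _ _ h h' => rw [form_add_left, h, h', add_zero]
    | smul c x _ h => rw [form_smul_left, h, mul_zero]
  refine ⟨fun x hx => ?_, hf⟩
  induction hx using Submodule.span_induction with
  | mem x hx => exact h1 x hx
  | zero => exact Sing_zero X
  | add x y hx hy h h' => exact Sing_add X h h' (hf x hx y hy)
  | smul c x _ h => exact Sing_smul X c h

lemma TS_mono {W W' : Submodule K (Vec K r)} (h : TS X W) (hle : W' ≤ W) : TS X W' :=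
  ⟨fun x hx => h.1 x (hle hx), fun x hx y hy => h.2 x (hle hx) y (hle hy)⟩

/-! ## The last hyperbolic plane -/

/-- The projection that forgets `u_last` and `w_last`. -/
def pr : Vec K (r + 1) →ₗ[K] Vec K r where
  toFun x := (Fin.init x.1, Fin.init x.2.1, x.2.2)
  map_add' x y := rfl
  map_smul' c x := rfl

/-- The vector with `u_last = 1`. -/
def eL : Vec K (r + 1) := (Pi.single (Fin.last r) 1, 0, 0)

/-- The coordinate `w_last`. -/
def wL : Vec K (r + 1) →ₗ[K] K where
  toFun x := x.2.1 (Fin.last r)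
  map_add' x y := rfl
  map_smul' c x := rfl

/-- The coordinate `u_last`. -/
def uL : Vec K (r + 1) →ₗ[K] K where
  toFun x := x.1 (Fin.last r)
  map_add' x y := rfl
  map_smul' c x := rfl

lemma form_succ (x y : Vec K (r + 1)) : form X x y = form X (pr x) (pr y) +
    (uL x * X.sig (wL y) + X.eps * (wL x * X.sig (uL y))) := by
  unfold form
  rw [Fin.sum_univ_castSucc]
  simp only [pr, uL, wL, LinearMap.coe_mk, AddHom.coe_mk, Fin.init]
  ring

lemma tv_succ (x : Vec K (r + 1)) : tv X x = tv X (pr x) + uL x * X.sig (wL x) := by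
  unfold tv
  rw [Fin.sum_univ_castSucc]
  simp only [pr, uL, wL, LinearMap.coe_mk, AddHom.coe_mk, Fin.init]

lemma form_pr {x y : Vec K (r + 1)} (hx : wL x = 0) (hy : wL y = 0) :
    form X x y = form X (pr x) (pr y) := by
  rw [form_succ, hx, hy]; simp

lemma Sing_pr {x : Vec K (r + 1)} (hx : wL x = 0) : Sing X x ↔ Sing X (pr x) := by
  unfold Sing
  rw [tv_succ, hx]
  simp [pr]

lemma form_eL (x : Vec K (r + 1)) : form X eL x = X.sig (wL x) := by
  rw [form_succ]
  have h1 : pr (eL : Vec K (r + 1)) = 0 := by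
    simp only [pr, eL, LinearMap.coe_mk, AddHom.coe_mk]
    ext i
    · simp only [Fin.init, Prod.fst_zero, Pi.zero_apply]
      rw [Pi.single_eq_of_ne]
      exact (Fin.castSucc_lt_last i).ne
    · rfl
    · rfl
    · rfl
  have h2 : uL (eL : Vec K (r + 1)) = 1 := by simp [uL, eL]
  have h3 : wL (eL : Vec K (r + 1)) = 0 := by simp [wL, eL]
  rw [h1, h2, h3, form_zero_left]
  simp

lemma pr_eq_zero {x : Vec K (r + 1)} (h : pr x = 0) (hw : wL x = 0) : x = uL x • eL := by
  have h1 : Fin.init x.1 = 0 := congrArg Prod.fst h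
  have h2 : Fin.init x.2.1 = 0 := congrArg (fun z => z.2.1) h
  have h3 : x.2.2 = 0 := congrArg (fun z => z.2.2) h
  have hw' : x.2.1 (Fin.last r) = 0 := hw
  ext i
  · refine Fin.lastCases ?_ (fun j => ?_) i
    · simp [uL, eL]
    · have : x.1 j.castSucc = 0 := congrFun h1 j
      rw [this]
      simp only [uL, eL, LinearMap.coe_mk, AddHom.coe_mk, Prod.smul_fst, Pi.smul_apply,
        smul_eq_mul]
      rw [Pi.single_eq_of_ne (Fin.castSucc_lt_last j).ne, mul_zero]
  · refine Fin.lastCases ?_ (fun j => ?_) i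
    · rw [hw']; simp [eL]
    · have : x.2.1 j.castSucc = 0 := congrFun h2 j
      rw [this]
      simp [eL]
  · rw [h3]; simp [eL]
  · rw [h3]; simp [eL]

end

end Pool.Agent.Lib.MP_e6ed9e_al.Polar
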