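import Mathlib
import Pool.Agent.Lib.MP_e6ed9e_al.Polar.Basic

/-! # BASE A: the types without last coordinates, rank two -/

namespace Pool.Agent.Lib.MP_e6ed9e_al.Polar

open Finset SpreadPerm Module
open scoped Classical

namespace BaseA30

variable {K : Type} [Field K]

/-- The kinds without last coordinates. -/
def NoE (X : Kind K) : Prop :=
  X = .symplectic ∨ X = .hyperbolic ∨ ∃ σ h2 h1, X = .unitaryEven σ h2 h1

lemma NoE.e_zero {X : Kind K} (h : NoE X) {x : Vec K 2} (hx : Sing X x) : x.2.2 = 0 := by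
  rcases h with rfl | rfl | ⟨σ, h2, h1, rfl⟩
  · exact hx
  · exact hx.1
  · exact hx.1

lemma NoE.bE_zero {X : Kind K} (h : NoE X) (e f : K × K) : X.bE e f = 0 := by
  rcases h with rfl | rfl | ⟨σ, h2, h1, rfl⟩ <;> rfl

/-- The vectors with zero coordinates at `i`. -/
def hh (K : Type) [Field K] (i : Fin 2) : Submodule K (Vec K 2) where
  carrier := {x | x.1 i = 0 ∧ x.2.1 i = 0 ∧ x.2.2 = 0}
  add_mem' := by
    rintro x y ⟨h1, h2, h3⟩ ⟨h4, h5, h6⟩
    refine ⟨?_, ?_, ?_⟩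
    · show x.1 i + y.1 i = 0
      rw [h1, h4, add_zero]
    · show x.2.1 i + y.2.1 i = 0
      rw [h2, h5, add_zero]
    · show x.2.2 + y.2.2 = 0
      rw [h3, h6, add_zero]
  zero_mem' := ⟨rfl, rfl, rfl⟩
  smul_mem' := by
    rintro c x ⟨h1, h2, h3⟩
    refine ⟨?_, ?_, ?_⟩
    · show c * x.1 i = 0
      rw [h1, mul_zero]
    · show c * x.2.1 i = 0
      rw [h2, mul_zero]
    · show c • x.2.2 = 0
      rw [h3, smul_zero]

lemma mem_hh {i : Fin 2} {x : Vec K 2} : x ∈ hh K i ↔ x.1 i = 0 ∧ x.2.1 i = 0 ∧ x.2.2 = 0 :=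
  Iff.rfl

lemma hh_inf {i j : Fin 2} (hij : i ≠ j) {x : Vec K 2} (hi : x ∈ hh K i) (hj : x ∈ hh K j) :
    x = 0 := by
  obtain ⟨h1, h2, h3⟩ := hi
  obtain ⟨h4, h5, -⟩ := hj
  have hk : ∀ k : Fin 2, k = i ∨ k = j := by omega
  refine Prod.ext ?_ (Prod.ext ?_ h3)
  · funext k
    rcases hk k with rfl | rfl
    · exact h1
    · exact h4
  · funext k
    rcases hk k with rfl | rfl
    · exact h2
    · exact h5

lemma key {X : Kind K} (h : NoE X) {i j : Fin 2} (hij : i ≠ j) {x y : Vec K 2}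
    (hi : x ∈ hh K i) (hx0 : x ≠ 0) (hx : Sing X x) (hy : Sing X y) (hxy : form X x y = 0) :
    ∃ c : K, y - c • x ∈ hh K j := by
  obtain ⟨h1, h2, h3⟩ := hi
  have hsum : ∀ f : Fin 2 → K, ∑ k, f k = f i + f j := by
    intro f
    have : (i = 0 ∧ j = 1) ∨ (i = 1 ∧ j = 0) := by omega
    rcases this with ⟨rfl, rfl⟩ | ⟨rfl, rfl⟩
    · rw [Fin.sum_univ_two]
    · rw [Fin.sum_univ_two, add_comm]
  have hxx := form_self X hx
  have hye : y.2.2 = 0 := h.e_zero hy
  unfold form at hxx hxy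
  rw [hsum, h.bE_zero, h1, h2] at hxx hxy
  simp only [zero_mul, mul_zero, zero_add, add_zero, map_zero] at hxx hxy
  -- the determinant
  have hne : x.1 j ≠ 0 ∨ x.2.1 j ≠ 0 := by
    by_contra hc
    simp only [not_or, ne_eq, not_not] at hc
    exact hx0 (hh_inf hij ⟨h1, h2, h3⟩ ⟨hc.1, hc.2, h3⟩)
  have hdet : X.sig (x.2.1 j * y.1 j - x.1 j * y.2.1 j) = 0 := by
    rw [map_sub, map_mul, map_mul]
    rcases hne with hu | hw
    · have : x.1 j * (X.sig (x.2.1 j) * X.sig (y.1 j) - X.sig (x.1 j) * X.sig (y.2.1 j)) = 0 := by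
        linear_combination X.sig (y.1 j) * hxx - X.sig (x.1 j) * hxy
      exact (mul_eq_zero.1 this).resolve_left hu
    · have : X.eps * x.2.1 j *
          (X.sig (x.2.1 j) * X.sig (y.1 j) - X.sig (x.1 j) * X.sig (y.2.1 j)) = 0 := by
        linear_combination X.sig (x.2.1 j) * hxy - X.sig (y.2.1 j) * hxx
      exact (mul_eq_zero.1 this).resolve_left (mul_ne_zero (eps_ne X) hw)
  have hdet' : x.2.1 j * y.1 j - x.1 j * y.2.1 j = 0 := by
    have := congrArg X.sig hdet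
    rw [sig_sig, map_zero] at this
    exact this
  rcases hne with hu | hw
  · refine ⟨y.1 j / x.1 j, ?_, ?_, ?_⟩
    · show y.1 j - y.1 j / x.1 j * x.1 j = 0
      rw [div_mul_cancel₀ _ hu, sub_self]
    · show y.2.1 j - y.1 j / x.1 j * x.2.1 j = 0
      field_simp
      linear_combination -hdet'
    · show y.2.2 - (y.1 j / x.1 j) • x.2.2 = 0
      rw [h3, hye, smul_zero, sub_zero]
  · refine ⟨y.2.1 j / x.2.1 j, ?_, ?_, ?_⟩
    · show y.1 j - y.2.1 j / x.2.1 j * x.1 j = 0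
      field_simp
      linear_combination hdet'
    · show y.2.1 j - y.2.1 j / x.2.1 j * x.2.1 j = 0
      rw [div_mul_cancel₀ _ hw, sub_self]
    · show y.2.2 - (y.2.1 j / x.2.1 j) • x.2.2 = 0
      rw [h3, hye, smul_zero, sub_zero]

lemma ranks [Fintype K] {X : Kind K} (h : NoE X) {i j : Fin 2} (hij : i ≠ j)
    {W : Submodule K (Vec K 2)} (hW : TS X W) (hr : finrank K W = 2)
    (hne : W ⊓ hh K i ≠ ⊥) :
    finrank K (W ⊓ hh K i : Submodule K (Vec K 2)) = 1 ∧
      finrank K (W ⊓ hh K j : Submodule K (Vec K 2)) = 1 := by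
  obtain ⟨x, hx, hx0⟩ := (Submodule.ne_bot_iff _).1 hne
  have hA : finrank K (W ⊓ hh K i : Submodule K (Vec K 2)) = 1 := by
    apply finrank_eq_one_iff_of_nonzero' (⟨x, hx⟩ : (W ⊓ hh K i : Submodule K (Vec K 2)))
      (fun hc => hx0 (congrArg Subtype.val hc)) |>.2
    rintro ⟨y, hy⟩
    obtain ⟨c, hc⟩ := key h hij hx.2 hx0 (hW.1 x hx.1) (hW.1 y hy.1) (hW.2 x hx.1 y hy.1)
    refine ⟨c, Subtype.ext ?_⟩
    have : y - c • x ∈ hh K i := Submodule.sub_mem _ hy.2 (Submodule.smul_mem _ _ hx.2)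
    exact (sub_eq_zero.1 (hh_inf hij this hc)).symm
  have hsup : (W ⊓ hh K i) ⊔ (W ⊓ hh K j) = W := by
    apply le_antisymm (sup_le inf_le_left inf_le_left)
    intro y hy
    obtain ⟨c, hc⟩ := key h hij hx.2 hx0 (hW.1 x hx.1) (hW.1 y hy) (hW.2 x hx.1 y hy)
    rw [Submodule.mem_sup]
    refine ⟨c • x, Submodule.smul_mem _ _ hx, y - c • x,
      ⟨Submodule.sub_mem _ hy (Submodule.smul_mem _ _ hx.1), hc⟩, by abel⟩
  have hinf : (W ⊓ hh K i) ⊓ (W ⊓ hh K j) = ⊥ := by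
    rw [Submodule.eq_bot_iff]
    intro y hy
    exact hh_inf hij hy.1.2 hy.2.2
  have := Submodule.finrank_sup_add_finrank_inf_eq (W ⊓ hh K i) (W ⊓ hh K j)
  rw [hsup, hinf, finrank_bot, hr, hA] at this
  exact ⟨hA, by omega⟩

lemma ranks_eq [Fintype K] {X : Kind K} (h : NoE X)
    {W : Submodule K (Vec K 2)} (hW : TS X W) (hr : finrank K W = 2) :
    finrank K (W ⊓ hh K 1 : Submodule K (Vec K 2)) =
      finrank K (W ⊓ hh K 0 : Submodule K (Vec K 2)) := by
  by_cases h1 : W ⊓ hh K 1 = ⊥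
  · by_cases h0 : W ⊓ hh K 0 = ⊥
    · rw [h0, h1]
    · have := ranks h (i := 0) (j := 1) (by omega) hW hr h0
      rw [this.1, this.2]
  · have := ranks h (i := 1) (j := 0) (by omega) hW hr h1
    rw [this.1, this.2]

lemma card_filter_sub [Fintype K] (A : Submodule K (Vec K 2)) :
    (univ.filter (fun z : Vec K 2 => z ∈ A)).card = Fintype.card K ^ finrank K A := by
  rw [← card_eq_pow_finrank (K := K) (V := A)]
  exact (Fintype.card_subtype _).symm

end BaseA30

open BaseA30 in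
theorem stA30 : StA := by
  intro K _ _ X hX
  have h : NoE X := hX
  refine ⟨fun x => (if x ∈ hh K 1 then 1 else 0) - (if x ∈ hh K 0 then 1 else 0), ?_⟩
  constructor
  · simp only [Submodule.zero_mem, if_true, sub_self]
  · intro c x hc
    simp only [Submodule.smul_mem_iff _ hc]
  · intro x
    show (-1 : ℤ) ≤ (if x ∈ hh K 1 then 1 else 0) - (if x ∈ hh K 0 then 1 else 0)
    split_ifs <;> norm_num
  · refine ⟨(Pi.single 0 1, 0, 0), ?_, ?_, ?_⟩
    · intro hc
      have := congrFun (congrArg Prod.fst hc) 0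
      simp at this
    · rcases h with rfl | rfl | ⟨σ, h2, h1, rfl⟩
      · exact rfl
      · refine ⟨rfl, ?_⟩
        simp [tv]
      · refine ⟨rfl, ?_⟩
        simp [tv]
    · have h1 : ((Pi.single 0 1, 0, 0) : Vec K 2) ∈ hh K 1 := by
        refine ⟨?_, rfl, rfl⟩
        show (Pi.single 0 1 : Fin 2 → K) 1 = 0
        simp
      have h0 : ((Pi.single 0 1, 0, 0) : Vec K 2) ∉ hh K 0 := by
        rintro ⟨hc, -, -⟩
        have : (Pi.single 0 1 : Fin 2 → K) 0 = 0 := hc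
        simp at this
      show ((if ((Pi.single 0 1, 0, 0) : Vec K 2) ∈ hh K 1 then 1 else 0) -
        (if ((Pi.single 0 1, 0, 0) : Vec K 2) ∈ hh K 0 then 1 else 0) : ℤ) ≠ 0
      rw [if_pos h1, if_neg h0]
      norm_num
  · intro W hW hr
    rw [sum_sub_distrib, sum_ite, sum_ite]
    simp only [sum_const_zero, add_zero, sum_const, mul_one, nsmul_eq_mul]
    rw [filter_filter, filter_filter]
    have e1 : ∀ i : Fin 2, (univ.filter (fun z : Vec K 2 => z ∈ W ∧ z ∈ hh K i)).card =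
        Fintype.card K ^ finrank K (W ⊓ hh K i : Submodule K (Vec K 2)) := by
      intro i
      rw [← card_filter_sub]
      congr 1
      ext z
      simp only [mem_filter, mem_univ, true_and, Submodule.mem_inf]
    rw [e1, e1, ranks_eq h hW hr, sub_self]

end Pool.Agent.Lib.MP_e6ed9e_al.Polar
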