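import Pool.Agent.Lib.MP_e6ed9e_al.Polar.Defs

/-!
Row BASE D: elliptic quadrics of rank two in characteristic two.
-/

namespace Pool.Agent.Lib.MP_e6ed9e_al.Polar

open Finset SpreadPerm Module
open scoped Classical

noncomputable section

section Psi

variable {K : Type} [Field K] [Fintype K]

theorem add_self_two (h2 : (2 : K) = 0) (x : K) : x + x = 0 := by
  rw [← two_mul, h2, zero_mul]

theorem sq_add_two (h2 : (2 : K) = 0) (x y : K) : (x + y) ^ 2 = x ^ 2 + y ^ 2 := by
  linear_combination x * y * h2

/-- The map `x ↦ x² + x`. -/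
def wp (h2 : (2 : K) = 0) : K →+ K where
  toFun x := x ^ 2 + x
  map_zero' := by ring
  map_add' x y := by linear_combination x * y * h2

theorem wp_ker (h2 : (2 : K) = 0) : Nat.card (wp h2).ker = 2 := by
  have h1 : ((wp h2).ker : Set K) = {0, 1} := by
    ext x
    simp only [SetLike.mem_coe, AddMonoidHom.mem_ker, Set.mem_insert_iff, Set.mem_singleton_iff]
    constructor
    · intro h
      have h3 : x * (x + 1) = 0 := by
        have : x ^ 2 + x = 0 := h
        linear_combination this
      rcases mul_eq_zero.1 h3 with h4 | h4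
      · exact Or.inl h4
      · right
        linear_combination h4 - h2
    · rintro (h | h)
      · show x ^ 2 + x = 0
        rw [h]; ring
      · show x ^ 2 + x = 0
        rw [h]; linear_combination h2
  have h3 : Nat.card ((wp h2).ker : Set K) = 2 := by
    rw [h1]
    rw [Nat.card_coe_set_eq, Set.ncard_pair zero_ne_one]
  exact h3

theorem wp_index (h2 : (2 : K) = 0) : (wp h2).range.index = 2 := by
  have h1 := AddSubgroup.card_mul_index (wp h2).ker
  have h3 := AddSubgroup.card_mul_index (wp h2).range
  rw [AddSubgroup.index_ker, wp_ker] at h1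
  have hpos : 0 < Nat.card (wp h2).range := Nat.card_pos
  rw [← h1, mul_comm] at h3
  exact Nat.eq_of_mul_eq_mul_right hpos h3

/-- The additive character with kernel `{s² + s}`. -/
theorem exists_psi (h2 : (2 : K) = 0) : ∃ psi : K → ℤ, (∀ x, psi x = 1 ∨ psi x = -1) ∧
    (∀ x y, psi (x + y) = psi x * psi y) ∧ (∀ x, psi (x ^ 2 + x) = 1) ∧
    (∀ z, psi z = 1 → ∃ s, z = s ^ 2 + s) := by
  refine ⟨fun z => if z ∈ (wp h2).range then 1 else -1, ?_, ?_, ?_, ?_⟩
  · intro x
    by_cases h : x ∈ (wp h2).range
    · left; simp only [h, if_true]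
    · right; simp only [h, if_false]
  · intro x y
    have h := AddSubgroup.add_mem_iff_of_index_two (wp_index h2) (a := x) (b := y)
    by_cases hx : x ∈ (wp h2).range <;> by_cases hy : y ∈ (wp h2).range <;>
      simp only [h, hx, hy, if_true, if_false, iff_self, iff_true, iff_false, true_iff, false_iff,
        not_true, not_false_iff] <;> norm_num
  · intro x
    have : x ^ 2 + x ∈ (wp h2).range := ⟨x, rfl⟩
    simp only [this, if_true]
  · intro z hz
    by_cases h : z ∈ (wp h2).range
    · obtain ⟨s, hs⟩ := h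
      exact ⟨s, hs.symm⟩
    · simp only [h, if_false] at hz
      norm_num at hz

end Psi

/-- Data for characteristic two. -/
theorem stD88 (hSum : StSum) : StD := by
  intro K _ _ h2 a b h
  obtain ⟨psi, hpm, hadd, hsq, hker⟩ := exists_psi h2
  -- `b ≠ 0`
  have hb : b ≠ 0 := by
    intro hb
    have hinj : Function.Injective fun x : K => x ^ 2 := by
      intro x y hxy
      have h3 : (x + y) ^ 2 = 0 := by
        have h4 : x ^ 2 = y ^ 2 := hxy
        linear_combination h4 + (y ^ 2 + x * y) * h2
      have h4 : x + y = 0 := pow_eq_zero_iff (two_ne_zero) |>.1 h3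
      linear_combination h4 - y * h2
    obtain ⟨s, hs⟩ := (Finite.injective_iff_surjective.1 hinj) a
    have hs' : s ^ 2 = a := hs
    refine h s ?_
    rw [hb]
    linear_combination hs' + a * h2
  have hpa : psi (a / b ^ 2) = -1 := by
    rcases hpm (a / b ^ 2) with h3 | h3
    · exfalso
      obtain ⟨s, hs⟩ := hker _ h3
      have hs2 : a = b ^ 2 * (s ^ 2 + s) := by
        rw [← hs]; field_simp
      refine h (b * s) ?_
      rw [hs2]
      linear_combination (b ^ 2 * s ^ 2 + b ^ 2 * s) * h2
    · exact h3
  -- anisotropic part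
  have haniso : ∀ e f : K, e ^ 2 + b * (e * f) + a * f ^ 2 = 0 → e = 0 ∧ f = 0 := by
    intro e f hef
    by_cases hf : f = 0
    · subst hf
      refine ⟨?_, rfl⟩
      have : e ^ 2 = 0 := by linear_combination hef
      exact (pow_eq_zero_iff two_ne_zero).1 this
    · exfalso
      refine h (e / f) ?_
      field_simp
      linear_combination hef
  have hpsum : ∀ c d : K, d ≠ 0 → ∑ t : K, psi (c + t * d) = 0 := by
    intro c d hd
    have h3 : ∑ t : K, psi (c + t * d) = ∑ t : K, psi (c + (t + (a / b ^ 2) / d) * d) :=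
      (Equiv.sum_comp (Equiv.addRight ((a / b ^ 2) / d)) (fun t => psi (c + t * d))).symm
    have h4 : ∀ t : K, psi (c + (t + (a / b ^ 2) / d) * d) = -psi (c + t * d) := by
      intro t
      have h5 : c + (t + (a / b ^ 2) / d) * d = (c + t * d) + a / b ^ 2 := by
        rw [add_mul, div_mul_cancel₀ _ hd]; ring
      rw [h5, hadd, hpa]; ring
    rw [Finset.sum_congr rfl fun t _ => h4 t, Finset.sum_neg_distrib] at h3
    omega
  let v : Vec K 2 → ℤ := fun x =>
    if x.2.1 = 0 then 0
    else if b ^ 2 * x.2.2.2 ^ 2 = x.2.1 0 * x.2.1 1 then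
      (if x.2.1 0 = 0 then - psi (x.1 0 / x.2.1 1) else psi (x.1 1 / x.2.1 0))
    else 0
  have hvdef : ∀ x : Vec K 2, v x = if x.2.1 = 0 then 0
    else if b ^ 2 * x.2.2.2 ^ 2 = x.2.1 0 * x.2.1 1 then
      (if x.2.1 0 = 0 then - psi (x.1 0 / x.2.1 1) else psi (x.1 1 / x.2.1 0))
    else 0 := fun x => rfl
  have hvsmul : ∀ (c : K) (x : Vec K 2), c ≠ 0 → v (c • x) = v x := by
    intro c x hc
    rw [hvdef, hvdef]
    have e1 : ((c • x).2.1 = 0) ↔ (x.2.1 = 0) := by
      show c • x.2.1 = 0 ↔ _
      rw [smul_eq_zero]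
      simp [hc]
    have e2 : (b ^ 2 * (c • x).2.2.2 ^ 2 = (c • x).2.1 0 * (c • x).2.1 1) ↔
        (b ^ 2 * x.2.2.2 ^ 2 = x.2.1 0 * x.2.1 1) := by
      show b ^ 2 * (c * x.2.2.2) ^ 2 = (c * x.2.1 0) * (c * x.2.1 1) ↔ _
      constructor
      · intro h3
        have hc2 : c ^ 2 ≠ 0 := pow_ne_zero 2 hc
        refine mul_left_cancel₀ hc2 ?_
        linear_combination h3
      · intro h3
        linear_combination c ^ 2 * h3
    have e3 : ((c • x).2.1 0 = 0) ↔ (x.2.1 0 = 0) := by
      show c * x.2.1 0 = 0 ↔ _
      rw [mul_eq_zero]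
      simp [hc]
    have e4 : (c • x).1 0 / (c • x).2.1 1 = x.1 0 / x.2.1 1 := by
      show (c * x.1 0) / (c * x.2.1 1) = _
      rw [mul_div_mul_left _ _ hc]
    have e5 : (c • x).1 1 / (c • x).2.1 0 = x.1 1 / x.2.1 0 := by
      show (c * x.1 1) / (c * x.2.1 0) = _
      rw [mul_div_mul_left _ _ hc]
    rw [e4, e5]
    simp only [e1, e2, e3]
  refine ⟨v, ⟨?_, hvsmul, ?_, ?_, ?_⟩⟩
  · -- zero
    rw [hvdef]
    simp
  · -- ge
    intro x
    rw [hvdef]
    split_ifs
    · norm_num
    · rcases hpm (x.1 0 / x.2.1 1) with h3 | h3 <;> rw [h3] <;> norm_num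
    · rcases hpm (x.1 1 / x.2.1 0) with h3 | h3 <;> rw [h3] <;> norm_num
    · norm_num
  · -- ne
    refine ⟨(0, ![1, 0], 0, 0), ?_, ?_, ?_⟩
    · intro h3
      have h4 : (![1, 0] : Fin 2 → K) 0 = 0 := by
        have := congrArg (fun x : Vec K 2 => x.2.1 0) h3
        simpa using this
      simp at h4
    · show Kind.sE (Kind.elliptic a b h) (tv (Kind.elliptic a b h) ((0, ![1, 0], 0, 0) : Vec K 2))
        (0, 0)
      simp only [Kind.sE, tv, Fin.sum_univ_two]
      simp
    · rw [hvdef]
      have h3 : (![1, 0] : Fin 2 → K) ≠ 0 := by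
        intro h4
        have := congrFun h4 0
        simp at this
      simp only [h3, if_false]
      simp only [Matrix.cons_val_zero, Matrix.cons_val_one]
      have h5 : psi (0 : K) = 1 := by
        have := hsq 0
        simpa using this
      simp [h5]
  · -- sum
    intro W hW hr
    have hv0 : v 0 = 0 := by rw [hvdef]; simp
    have hQ : ∀ x ∈ W, x.1 0 * x.2.1 0 + x.1 1 * x.2.1 1 +
        (x.2.2.1 ^ 2 + b * (x.2.2.1 * x.2.2.2) + a * x.2.2.2 ^ 2) = 0 := by
      intro x hx
      have h3 := hW.1 x hx
      simp only [Sing, Kind.sE, tv, Fin.sum_univ_two, Kind.sig, RingHom.id_apply] at h3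
      linear_combination h3
    have hF : ∀ x ∈ W, ∀ y ∈ W, x.1 0 * y.2.1 0 + x.2.1 0 * y.1 0 + (x.1 1 * y.2.1 1 +
        x.2.1 1 * y.1 1) + b * (x.2.2.1 * y.2.2.2 + x.2.2.2 * y.2.2.1) = 0 := by
      intro x hx y hy
      have h3 := hW.2 x hx y hy
      simp only [form, Kind.bE, Kind.eps, Fin.sum_univ_two, Kind.sig, RingHom.id_apply] at h3
      linear_combination h3 - (x.2.2.1 * y.2.2.1 + a * (x.2.2.2 * y.2.2.2)) * h2
    by_cases hall : ∀ x ∈ W, x.2.1 = 0
    · refine Finset.sum_eq_zero fun x hx => ?_
      rw [hvdef, if_pos (hall x (Finset.mem_filter.1 hx).2)]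
    push Not at hall
    by_cases hex : ∃ x ∈ W, x ≠ 0 ∧ x.2.1 = 0
    · -- case (i)
      obtain ⟨x, hx, hx0, hxw⟩ := hex
      obtain ⟨y, hy, hyw⟩ := hall
      have hxe : x.2.2.1 = 0 ∧ x.2.2.2 = 0 := by
        refine haniso _ _ ?_
        have h3 := hQ x hx
        rw [hxw] at h3
        simpa using h3
      have hli : LinearIndependent K ![x, y] := by
        rw [LinearIndependent.pair_iff]
        intro s t hst
        have h3 : s • x.2.1 + t • y.2.1 = 0 := congrArg (fun z : Vec K 2 => z.2.1) hst
        rw [hxw, smul_zero, zero_add, smul_eq_zero] at h3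
        have ht : t = 0 := by
          rcases h3 with h4 | h4
          · exact h4
          · exact absurd h4 hyw
        subst ht
        rw [zero_smul, add_zero, smul_eq_zero] at hst
        rcases hst with h4 | h4
        · exact ⟨h4, rfl⟩
        · exact absurd h4 hx0
      rw [hSum K 2 v W x y hv0 hvsmul hr hx hy hli]
      have hvx : v x = 0 := by rw [hvdef, if_pos hxw]
      have hxy := hF x hx y hy
      rw [hxw, hxe.1, hxe.2] at hxy
      have hxy' : x.1 0 * y.2.1 0 + x.1 1 * y.2.1 1 = 0 := by
        have : (0 : Fin 2 → K) 0 = 0 := rfl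
        simp only [Pi.zero_apply] at hxy
        linear_combination hxy
      have hxu : ¬ (x.1 0 = 0 ∧ x.1 1 = 0) := by
        rintro ⟨h3, h4⟩
        apply hx0
        refine Prod.ext ?_ (Prod.ext hxw (Prod.ext hxe.1 hxe.2))
        funext i
        fin_cases i
        · exact h3
        · exact h4
      have hwt : ∀ t : K, (y + t • x).2.1 = y.2.1 := by
        intro t
        show y.2.1 + t • x.2.1 = y.2.1
        rw [hxw, smul_zero, add_zero]
      have het : ∀ t : K, (y + t • x).2.2.2 = y.2.2.2 := by
        intro t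
        show y.2.2.2 + t * x.2.2.2 = y.2.2.2
        rw [hxe.2, mul_zero, add_zero]
      have hsumt : ∑ t : K, v (y + t • x) = 0 := by
        by_cases hs : b ^ 2 * y.2.2.2 ^ 2 = y.2.1 0 * y.2.1 1
        · by_cases hy0 : y.2.1 0 = 0
          · have hy1 : y.2.1 1 ≠ 0 := by
              intro h3
              apply hyw
              funext i
              fin_cases i
              · exact hy0
              · exact h3
            have hx1 : x.1 1 = 0 := by
              rw [hy0, mul_zero, zero_add] at hxy'
              rcases mul_eq_zero.1 hxy' with h3 | h3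
              · exact h3
              · exact absurd h3 hy1
            have hx00 : x.1 0 ≠ 0 := fun h3 => hxu ⟨h3, hx1⟩
            have h5 : ∀ t : K, v (y + t • x) =
                - psi (y.1 0 / y.2.1 1 + t * (x.1 0 / y.2.1 1)) := by
              intro t
              rw [hvdef, hwt, het, if_neg hyw, if_pos hs, if_pos hy0]
              congr 2
              show (y.1 0 + t * x.1 0) / y.2.1 1 = _
              ring
            rw [Finset.sum_congr rfl fun t _ => h5 t, Finset.sum_neg_distrib,
              hpsum _ _ (div_ne_zero hx00 hy1), neg_zero]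
          · have hx1 : x.1 1 ≠ 0 := by
              intro h3
              rw [h3, zero_mul, add_zero] at hxy'
              rcases mul_eq_zero.1 hxy' with h4 | h4
              · exact hxu ⟨h4, h3⟩
              · exact hy0 h4
            have h5 : ∀ t : K, v (y + t • x) =
                psi (y.1 1 / y.2.1 0 + t * (x.1 1 / y.2.1 0)) := by
              intro t
              rw [hvdef, hwt, het, if_neg hyw, if_pos hs, if_neg hy0]
              congr 1
              show (y.1 1 + t * x.1 1) / y.2.1 0 = _
              ring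
            rw [Finset.sum_congr rfl fun t _ => h5 t, hpsum _ _ (div_ne_zero hx1 hy0)]
        · refine Finset.sum_eq_zero fun t _ => ?_
          rw [hvdef, hwt, het, if_neg hyw, if_neg hs]
      rw [hvx, hsumt, add_zero, mul_zero]
    · -- case (ii)
      push Not at hex
      -- the map w on W is bijective
      let L : W →ₗ[K] (Fin 2 → K) :=
        ((LinearMap.fst K (Fin 2 → K) (K × K)).comp
          (LinearMap.snd K (Fin 2 → K) ((Fin 2 → K) × K × K))).comp W.subtype
      have hLdef : ∀ z : W, L z = (z : Vec K 2).2.1 := fun z => rfl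
      have hLinj : Function.Injective L := by
        rw [← LinearMap.ker_eq_bot, LinearMap.ker_eq_bot']
        intro z hz
        by_contra hz0
        exact hex z z.2 (fun h3 => hz0 (Subtype.ext h3)) (by rw [← hLdef]; exact hz)
      have hLsurj : Function.Surjective L := by
        have hfr : finrank K W = finrank K (Fin 2 → K) := by
          rw [hr, Module.finrank_fin_fun]
        exact (LinearMap.injective_iff_surjective_of_finrank_eq_finrank hfr).1 hLinj
      obtain ⟨⟨x, hx⟩, hxw⟩ := hLsurj ![0, 1]
      obtain ⟨⟨y, hy⟩, hyw⟩ := hLsurj ![1, 0]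
      have hxw0 : x.2.1 0 = 0 := by
        have := congrFun hxw 0
        simpa [hLdef] using this
      have hxw1 : x.2.1 1 = 1 := by
        have := congrFun hxw 1
        simpa [hLdef] using this
      have hyw0 : y.2.1 0 = 1 := by
        have := congrFun hyw 0
        simpa [hLdef] using this
      have hyw1 : y.2.1 1 = 0 := by
        have := congrFun hyw 1
        simpa [hLdef] using this
      have hli : LinearIndependent K ![x, y] := by
        rw [LinearIndependent.pair_iff]
        intro s t hst
        have h3 : s * x.2.1 0 + t * y.2.1 0 = 0 := congrArg (fun z : Vec K 2 => z.2.1 0) hst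
        have h4 : s * x.2.1 1 + t * y.2.1 1 = 0 := congrArg (fun z : Vec K 2 => z.2.1 1) hst
        rw [hxw0, hyw0] at h3
        rw [hxw1, hyw1] at h4
        exact ⟨by linear_combination h4, by linear_combination h3⟩
      rw [hSum K 2 v W x y hv0 hvsmul hr hx hy hli]
      have hQx := hQ x hx
      have hQy := hQ y hy
      have hFxy := hF x hx y hy
      rw [hxw0, hxw1] at hQx
      rw [hyw0, hyw1] at hQy
      rw [hxw0, hxw1, hyw0, hyw1] at hFxy
      have hxne : x.2.1 ≠ 0 := by
        intro h3
        rw [h3] at hxw1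
        simp at hxw1
      have hw0t : ∀ t : K, (y + t • x).2.1 0 = 1 := by
        intro t
        show y.2.1 0 + t * x.2.1 0 = 1
        rw [hxw0, hyw0, mul_zero, add_zero]
      have hw1t : ∀ t : K, (y + t • x).2.1 1 = t := by
        intro t
        show y.2.1 1 + t * x.2.1 1 = t
        rw [hxw1, hyw1, mul_one, zero_add]
      have hwnet : ∀ t : K, (y + t • x).2.1 ≠ 0 := by
        intro t h3
        have h4 := hw0t t
        rw [h3] at h4
        simp at h4
      have hvt : ∀ t : K, v (y + t • x) =
          if b ^ 2 * (y.2.2.2 + t * x.2.2.2) ^ 2 = t then psi (y.1 1 + t * x.1 1) else 0 := by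
        intro t
        rw [hvdef, if_neg (hwnet t), hw0t, hw1t, if_neg one_ne_zero, div_one, one_mul]
        rfl
      by_cases hf : x.2.2.2 = 0
      · -- p2 = 0
        have hvx : v x = - psi (x.1 0) := by
          rw [hvdef, if_neg hxne, hxw0, hxw1, hf]
          simp
        have hsumt : ∑ t : K, v (y + t • x) = psi (x.1 0) := by
          have h5 : ∀ t : K, v (y + t • x) =
              if (b * y.2.2.2) ^ 2 = t then psi (y.1 1 + (b * y.2.2.2) ^ 2 * x.1 1) else 0 := by
            intro t
            rw [hvt, hf, mul_zero, add_zero, mul_pow]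
            by_cases h6 : b ^ 2 * y.2.2.2 ^ 2 = t
            · rw [if_pos h6, if_pos h6, h6]
            · rw [if_neg h6, if_neg h6]
          rw [Finset.sum_congr rfl fun t _ => h5 t, Finset.sum_ite_eq, if_pos (Finset.mem_univ _)]
          have h6 : x.1 1 = x.2.2.1 ^ 2 := by
            rw [hf] at hQx
            linear_combination hQx - x.2.2.1 ^ 2 * h2
          have h7 : x.1 0 = y.1 1 + (b * y.2.2.2) * x.2.2.1 := by
            rw [hf] at hFxy
            linear_combination hFxy - (y.1 1 + (b * y.2.2.2) * x.2.2.1) * h2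
          have h8 : y.1 1 + (b * y.2.2.2) ^ 2 * x.1 1 =
              x.1 0 + (((b * y.2.2.2) * x.2.2.1) ^ 2 + (b * y.2.2.2) * x.2.2.1) := by
            rw [h6, h7]
            linear_combination - (b * y.2.2.2) * x.2.2.1 * h2
          rw [h8, hadd, hsq, mul_one]
        rw [hvx, hsumt]
        ring
      · -- p2 ≠ 0
        have hbf : b * x.2.2.2 ≠ 0 := mul_ne_zero hb hf
        have hvx : v x = 0 := by
          rw [hvdef, if_neg hxne, hxw0, hxw1, if_neg]
          intro h3
          have h4 : (b * x.2.2.2) ^ 2 = 0 := by linear_combination h3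
          exact hbf ((pow_eq_zero_iff two_ne_zero).1 h4)
        have hc : psi (x.1 1 / (b * x.2.2.2) ^ 2) = -1 := by
          have h5 : x.1 1 / (b * x.2.2.2) ^ 2 =
              ((x.2.2.1 / (b * x.2.2.2)) ^ 2 + x.2.2.1 / (b * x.2.2.2)) + a / b ^ 2 := by
            have h6 : x.1 1 = x.2.2.1 ^ 2 + b * (x.2.2.1 * x.2.2.2) + a * x.2.2.2 ^ 2 := by
              linear_combination hQx - (x.2.2.1 ^ 2 + b * (x.2.2.1 * x.2.2.2) +
                a * x.2.2.2 ^ 2) * h2
            rw [h6]
            field_simp
          rw [h5, hadd, hsq, hpa]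
          norm_num
        have hsumt : ∑ t : K, v (y + t • x) = 0 := by
          have h3 : ∑ t : K, v (y + t • x) =
              ∑ t : K, v (y + (t + 1 / (b * x.2.2.2) ^ 2) • x) :=
            (Equiv.sum_comp (Equiv.addRight (1 / (b * x.2.2.2) ^ 2))
              (fun t => v (y + t • x))).symm
          have h4 : ∀ t : K, v (y + (t + 1 / (b * x.2.2.2) ^ 2) • x) = - v (y + t • x) := by
            intro t
            rw [hvt, hvt]
            have e1 : (b ^ 2 * (y.2.2.2 + (t + 1 / (b * x.2.2.2) ^ 2) * x.2.2.2) ^ 2 =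
                t + 1 / (b * x.2.2.2) ^ 2) ↔ (b ^ 2 * (y.2.2.2 + t * x.2.2.2) ^ 2 = t) := by
              have e2 : b ^ 2 * (y.2.2.2 + (t + 1 / (b * x.2.2.2) ^ 2) * x.2.2.2) ^ 2 =
                  b ^ 2 * (y.2.2.2 + t * x.2.2.2) ^ 2 + 1 / (b * x.2.2.2) ^ 2 := by
                have e3 : y.2.2.2 + (t + 1 / (b * x.2.2.2) ^ 2) * x.2.2.2 =
                    (y.2.2.2 + t * x.2.2.2) + x.2.2.2 / (b * x.2.2.2) ^ 2 := by ring
                rw [e3, sq_add_two h2, mul_add]
                congr 1
                field_simp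
              rw [e2]
              constructor
              · intro e4
                exact add_right_cancel e4
              · intro e4
                rw [e4]
            have e5 : y.1 1 + (t + 1 / (b * x.2.2.2) ^ 2) * x.1 1 =
                (y.1 1 + t * x.1 1) + x.1 1 / (b * x.2.2.2) ^ 2 := by ring
            rw [e5, hadd, hc]
            simp only [e1]
            split_ifs
            · ring
            · ring
          rw [Finset.sum_congr rfl fun t _ => h4 t, Finset.sum_neg_distrib] at h3
          omega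
        rw [hvx, hsumt, add_zero, mul_zero]

end

end Pool.Agent.Lib.MP_e6ed9e_al.Polar
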