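import Pool.Agent.Lib.MP_e6ed9e_al.Polar.Defs

/-!
# BASE C: elliptic quadrics of rank two over a finite field of odd order
-/

namespace Pool.Agent.Lib.MP_e6ed9e_al.Polar.C67

open Finset Module
open scoped Classical

variable {K : Type} [Field K]

lemma card_odd_of_two_ne [Fintype K] (h2 : (2 : K) ≠ 0) : Fintype.card K % 2 = 1 := by
  apply FiniteField.odd_card_of_char_ne_two
  intro h
  apply h2
  have := ringChar.spec K 2
  have h3 : ((2 : ℕ) : K) = 0 := this.2 (by rw [h])
  exact_mod_cast h3

/-- A sum of two nonzero diagonal terms represents everything. -/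
lemma two_squares [Fintype K] (h2 : (2 : K) ≠ 0) (a b c : K) (ha : a ≠ 0) (hb : b ≠ 0) :
    ∃ s t : K, a * (s * s) + b * (t * t) = c := by
  open Polynomial in
  have hf : (C a * X ^ 2 : K[X]).degree = 2 := by
    simpa using Polynomial.degree_C_mul_X_pow 2 ha
  open Polynomial in
  have hg : (C b * X ^ 2 + C (-c) : K[X]).degree = 2 := by
    have h1 : (C b * X ^ 2 : K[X]).degree = 2 := by
      simpa using Polynomial.degree_C_mul_X_pow 2 hb
    rw [Polynomial.degree_add_eq_left_of_degree_lt]
    · exact h1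
    · rw [h1]
      exact lt_of_le_of_lt Polynomial.degree_C_le (by norm_num)
  obtain ⟨s, t, h⟩ := FiniteField.exists_root_sum_quadratic hf hg (card_odd_of_two_ne h2)
  refine ⟨s, t, ?_⟩
  simp only [Polynomial.eval_mul, Polynomial.eval_C, Polynomial.eval_pow, Polynomial.eval_X,
    Polynomial.eval_add] at h
  linear_combination h

lemma exists_nonsquare [Fintype K] (h2 : (2 : K) ≠ 0) : ∃ c : K, ¬ IsSquare c := by
  by_contra hcon
  push Not at hcon
  have hsur : Function.Surjective (fun s : K => s * s) := fun c => by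
    obtain ⟨s, hs⟩ := hcon c
    exact ⟨s, hs.symm⟩
  have hinj := (Finite.injective_iff_surjective.2 hsur)
  have h1 : (1 : K) = -1 := hinj (by simp)
  apply h2
  linear_combination h1

/-- The binary lemma. -/
lemma binary [Fintype K] (h2 : (2 : K) ≠ 0) (A B C : K) (hd : B * B - A * C ≠ 0) :
    ∑ z : K × K, quadraticChar K (A * z.1 ^ 2 + 2 * B * z.1 * z.2 + C * z.2 ^ 2) = 0 := by
  obtain ⟨c, hc⟩ := exists_nonsquare h2
  obtain ⟨al, be, hab⟩ := two_squares h2 1 (-(B * B - A * C)) c one_ne_zero (neg_ne_zero.2 hd)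
  have hc0 : c ≠ 0 := by
    rintro rfl
    exact hc ⟨0, by simp⟩
  let T : K × K → K × K := fun z =>
    (al * z.1 + be * (-B * z.1 - C * z.2), al * z.2 + be * (A * z.1 + B * z.2))
  let T' : K × K → K × K := fun z =>
    (al * z.1 - be * (-B * z.1 - C * z.2), al * z.2 - be * (A * z.1 + B * z.2))
  have hTT : ∀ z, T' (T z) = (c * z.1, c * z.2) := by
    intro z
    simp only [T, T', Prod.mk.injEq]
    constructor
    · linear_combination z.1 * hab
    · linear_combination z.2 * hab
  have hinj : Function.Injective T := by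
    intro z w hzw
    have h1 : T' (T z) = T' (T w) := by rw [hzw]
    rw [hTT, hTT] at h1
    simp only [Prod.mk.injEq, mul_eq_mul_left_iff, hc0, or_false] at h1
    exact Prod.ext h1.1 h1.2
  have hbij : Function.Bijective T := Finite.injective_iff_bijective.1 hinj
  have hg : ∀ z, A * (T z).1 ^ 2 + 2 * B * (T z).1 * (T z).2 + C * (T z).2 ^ 2 =
      c * (A * z.1 ^ 2 + 2 * B * z.1 * z.2 + C * z.2 ^ 2) := by
    intro z
    simp only [T]
    linear_combination (A * z.1 ^ 2 + 2 * B * z.1 * z.2 + C * z.2 ^ 2) * hab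
  have hsum := Function.Bijective.sum_comp hbij
    (fun z : K × K => quadraticChar K (A * z.1 ^ 2 + 2 * B * z.1 * z.2 + C * z.2 ^ 2))
  have hchi : quadraticChar K c = -1 := quadraticChar_neg_one_iff_not_isSquare.2 hc
  have h3 : ∀ z, quadraticChar K (A * (T z).1 ^ 2 + 2 * B * (T z).1 * (T z).2 + C * (T z).2 ^ 2) =
      - quadraticChar K (A * z.1 ^ 2 + 2 * B * z.1 * z.2 + C * z.2 ^ 2) := by
    intro z
    rw [hg, map_mul, hchi]
    ring
  simp only [h3, Finset.sum_neg_distrib] at hsum
  omega

/-- The quadratic form in coordinates. -/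
def qf (a b : K) (x : Vec K 2) : K :=
  x.1 0 * x.2.1 0 + x.1 1 * x.2.1 1 + (x.2.2.1 ^ 2 + b * (x.2.2.1 * x.2.2.2) + a * x.2.2.2 ^ 2)

/-- The polar form in coordinates. -/
def bf (a b : K) (x y : Vec K 2) : K :=
  x.1 0 * y.2.1 0 + x.2.1 0 * y.1 0 + (x.1 1 * y.2.1 1 + x.2.1 1 * y.1 1) +
    (2 * (x.2.2.1 * y.2.2.1) + b * (x.2.2.1 * y.2.2.2 + x.2.2.2 * y.2.2.1) +
      2 * a * (x.2.2.2 * y.2.2.2))

lemma sing_iff (a b : K) (h) (x : Vec K 2) :
    Sing (Kind.elliptic a b h : Kind K) x ↔ qf a b x = 0 := by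
  simp only [Sing, Kind.sE, tv, Kind.sig, RingHom.id_apply, Fin.sum_univ_two, qf]

lemma form_eq (a b : K) (h) (x y : Vec K 2) :
    form (Kind.elliptic a b h : Kind K) x y = bf a b x y := by
  simp only [form, Kind.bE, Kind.sig, Kind.eps, RingHom.id_apply, Fin.sum_univ_two, bf]
  ring

lemma qf_add (a b : K) (x y : Vec K 2) : qf a b (x + y) = qf a b x + qf a b y + bf a b x y := by
  simp only [qf, bf, Prod.fst_add, Prod.snd_add, Pi.add_apply]
  ring

lemma qf_smul (a b c : K) (x : Vec K 2) : qf a b (c • x) = c ^ 2 * qf a b x := by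
  simp only [qf, Prod.smul_fst, Prod.smul_snd, Pi.smul_apply, smul_eq_mul]
  ring

lemma bf_add_left (a b : K) (x y z : Vec K 2) :
    bf a b (x + y) z = bf a b x z + bf a b y z := by
  simp only [bf, Prod.fst_add, Prod.snd_add, Pi.add_apply]
  ring

lemma bf_add_right (a b : K) (x y z : Vec K 2) :
    bf a b z (x + y) = bf a b z x + bf a b z y := by
  simp only [bf, Prod.fst_add, Prod.snd_add, Pi.add_apply]
  ring

lemma bf_smul_left (a b c : K) (x z : Vec K 2) : bf a b (c • x) z = c * bf a b x z := by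
  simp only [bf, Prod.smul_fst, Prod.smul_snd, Pi.smul_apply, smul_eq_mul]
  ring

lemma bf_smul_right (a b c : K) (x z : Vec K 2) : bf a b z (c • x) = c * bf a b z x := by
  simp only [bf, Prod.smul_fst, Prod.smul_snd, Pi.smul_apply, smul_eq_mul]
  ring

lemma bf_comm (a b : K) (x y : Vec K 2) : bf a b x y = bf a b y x := by
  simp only [bf]
  ring

/-- The self-adjoint map with a nonsquare square. -/
def S (a b p r : K) (x : Vec K 2) : Vec K 2 :=
  (![(p ^ 2 + b * p * r + a * r ^ 2) * x.1 1, x.1 0],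
    ![x.2.1 1, (p ^ 2 + b * p * r + a * r ^ 2) * x.2.1 0],
    (p * x.2.2.1 + (b * p + a * r) * x.2.2.2, r * x.2.2.1 - p * x.2.2.2))

lemma S_add (a b p r : K) (x y : Vec K 2) : S a b p r (x + y) = S a b p r x + S a b p r y := by
  ext i
  · fin_cases i <;> simp [S] <;> ring
  · fin_cases i <;> simp [S] <;> ring
  · simp [S]; ring
  · simp [S]; ring

lemma S_smul (a b p r c : K) (x : Vec K 2) : S a b p r (c • x) = c • S a b p r x := by
  ext i
  · fin_cases i <;> simp [S] <;> ring
  · fin_cases i <;> simp [S] <;> ring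
  · simp [S]; ring
  · simp [S]; ring

lemma S_S (a b p r : K) (x : Vec K 2) :
    S a b p r (S a b p r x) = (p ^ 2 + b * p * r + a * r ^ 2) • x := by
  ext i
  · fin_cases i <;> simp [S]
  · fin_cases i <;> simp [S]
  · simp [S]; ring
  · simp [S]; ring

lemma bf_S (a b p r : K) (x y : Vec K 2) :
    bf a b (S a b p r x) y = bf a b x (S a b p r y) := by
  simp [S, bf]
  ring

lemma qf_S (a b p r : K) (x : Vec K 2) :
    qf a b (S a b p r x) = (p ^ 2 + b * p * r + a * r ^ 2) * qf a b x := by
  simp [S, qf]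
  ring

/-- The function of BASE C. -/
noncomputable def fv (a b p r : K) [Fintype K] (x : Vec K 2) : ℤ :=
  quadraticChar K (bf a b (S a b p r x) x)

/-- The sum over a plane in coordinates. -/
lemma sum_plane [Fintype K] (v : Vec K 2 → ℤ) (W : Submodule K (Vec K 2))
    (b : Basis (Fin 2) K W) :
    ∑ z ∈ univ.filter (fun z => z ∈ W), v z =
      ∑ z : K × K, v (z.1 • (b 0 : Vec K 2) + z.2 • (b 1 : Vec K 2)) := by
  have h1 : ∑ z ∈ univ.filter (fun z => z ∈ W), v z = ∑ z : W, v z :=
    Finset.sum_subtype _ (by simp) _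
  rw [h1]
  let g : K × K ≃ W := (finTwoArrowEquiv K).symm.trans b.equivFun.symm.toEquiv
  rw [← Equiv.sum_comp g]
  apply Finset.sum_congr rfl
  intro z _
  congr 1
  simp only [g, Equiv.trans_apply, LinearEquiv.coe_toEquiv, Basis.equivFun_symm_apply,
    Fin.sum_univ_two, finTwoArrowEquiv_symm_apply, Matrix.cons_val_zero, Matrix.cons_val_one]
  simp

/-- The radical of the form of `S` on a totally singular plane. -/
lemma radical [Fintype K] (hW2 : StWitt) (a b : K)
    (h : ∀ t : K, t ^ 2 + b * t + a ≠ 0) (p r : K)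
    (hk : ¬ IsSquare (p ^ 2 + b * p * r + a * r ^ 2)) (W : Submodule K (Vec K 2))
    (hW : TS (Kind.elliptic a b h : Kind K) W) (hf : finrank K W = 2)
    (z : Vec K 2) (hz : z ∈ W) (hz0 : z ≠ 0)
    (hrad : ∀ y ∈ W, bf a b (S a b p r z) y = 0) :
    ∀ x ∈ W, ∀ y ∈ W, bf a b (S a b p r x) y = 0 := by
  have hq : ∀ x ∈ W, qf a b x = 0 := fun x hx => (sing_iff a b h x).1 (hW.1 x hx)
  have hb : ∀ x ∈ W, ∀ y ∈ W, bf a b x y = 0 := fun x hx y hy => by
    rw [← form_eq a b h]
    exact hW.2 x hx y hy
  obtain ⟨k, hkdef⟩ : ∃ k : K, k = p ^ 2 + b * p * r + a * r ^ 2 := ⟨_, rfl⟩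
  rw [← hkdef] at hk
  have hSS : ∀ x, S a b p r (S a b p r x) = k • x := fun x => by rw [hkdef]; exact S_S a b p r x
  have hqS : qf a b (S a b p r z) = 0 := by rw [qf_S, hq z hz, mul_zero]
  have hbSS : bf a b (S a b p r z) (S a b p r z) = 0 := by
    rw [bf_S, hSS, bf_smul_right, hb z hz z hz, mul_zero]
  -- the enlarged subspace
  have hTS : TS (Kind.elliptic a b h : Kind K) (W ⊔ K ∙ (S a b p r z)) := by
    constructor
    · intro x hx
      rw [sing_iff]
      obtain ⟨w, hw, c, hc, rfl⟩ := Submodule.mem_sup.1 hx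
      obtain ⟨t, rfl⟩ := Submodule.mem_span_singleton.1 hc
      rw [qf_add, hq w hw, qf_smul, hqS, bf_smul_right, bf_comm, hrad w hw]
      ring
    · intro x hx y hy
      rw [form_eq]
      obtain ⟨w, hw, c, hc, rfl⟩ := Submodule.mem_sup.1 hx
      obtain ⟨t, rfl⟩ := Submodule.mem_span_singleton.1 hc
      obtain ⟨w', hw', c', hc', rfl⟩ := Submodule.mem_sup.1 hy
      obtain ⟨t', rfl⟩ := Submodule.mem_span_singleton.1 hc'
      rw [bf_add_left, bf_add_right, bf_add_right, bf_smul_left, bf_smul_left, bf_smul_right,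
        bf_smul_right, hb w hw w' hw', hrad w' hw', hbSS, bf_comm a b w, hrad w hw]
      ring
  have hle := hW2 K (Kind.elliptic a b h : Kind K) 2 _ hTS
  have heq : W = W ⊔ K ∙ (S a b p r z) :=
    Submodule.eq_of_le_of_finrank_le le_sup_left (by rw [hf]; exact hle)
  have hSW : S a b p r z ∈ W := by
    rw [heq]
    exact Submodule.mem_sup_right (Submodule.mem_span_singleton_self _)
  have hli : LinearIndependent K ![z, S a b p r z] := by
    rw [LinearIndependent.pair_iff' hz0]
    intro l hl
    apply hk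
    refine ⟨l, ?_⟩
    have h3 : k • z = (l * l) • z := by
      rw [← hSS, ← hl, S_smul, ← hl, smul_smul]
    have h4 : (k - l * l) • z = 0 := by rw [sub_smul, h3, sub_self]
    rcases smul_eq_zero.1 h4 with h5 | h5
    · linear_combination h5
    · exact absurd h5 hz0
  have hspan : Submodule.span K {z, S a b p r z} = W := by
    apply Submodule.eq_of_le_of_finrank_le
    · rw [Submodule.span_le]
      intro x hx
      rcases hx with rfl | hx
      · exact hz
      · rw [Set.mem_singleton_iff] at hx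
        rw [hx]
        exact hSW
    · rw [hf]
      have h6 := finrank_span_eq_card hli
      have h7 : Set.range ![z, S a b p r z] = {z, S a b p r z} := by
        simp [Set.pair_comm]
      rw [h7] at h6
      rw [h6]
      simp
  intro x hx y hy
  rw [← hspan] at hx hy
  obtain ⟨s, t, rfl⟩ := Submodule.mem_span_pair.1 hx
  obtain ⟨s', t', rfl⟩ := Submodule.mem_span_pair.1 hy
  rw [S_add, S_smul, S_smul, hSS, bf_add_left, bf_add_right, bf_add_right]
  simp only [bf_smul_left, bf_smul_right]
  rw [hrad z hz, hrad _ hSW, hb z hz z hz, hb z hz _ hSW]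
  ring

/-- A parameter pair with nonsquare norm. -/
lemma exists_param [Fintype K] (h2 : (2 : K) ≠ 0) (a b : K)
    (h : ∀ t : K, t ^ 2 + b * t + a ≠ 0) :
    ∃ p r : K, ¬ IsSquare (p ^ 2 + b * p * r + a * r ^ 2) := by
  obtain ⟨c, hc⟩ := exists_nonsquare h2
  have hD : 4 * a - b ^ 2 ≠ 0 := by
    intro hD
    apply h (-(b / 2))
    have h3 : a = (b / 2) ^ 2 := by
      field_simp
      linear_combination hD
    rw [h3]
    field_simp
    ring
  obtain ⟨s, t, hst⟩ := two_squares h2 1 (4 * a - b ^ 2) c one_ne_zero hD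
  refine ⟨s - b * t, 2 * t, ?_⟩
  have h4 : (s - b * t) ^ 2 + b * (s - b * t) * (2 * t) + a * (2 * t) ^ 2 = c := by
    linear_combination hst
  rw [h4]
  exact hc

/-- **BASE C.** -/
theorem stC (hW2 : StWitt) : StC := by
  intro K _ _ h2 a b h
  obtain ⟨p, r, hk⟩ := exists_param h2 a b h
  refine ⟨fun x => quadraticChar K (bf a b (S a b p r x) x), ?_, ?_, ?_, ?_, ?_⟩
  · have h0 : bf a b (S a b p r 0) 0 = 0 := by simp [bf, S]
    simp only [h0, quadraticChar_zero]
  · intro c x hc
    simp only [S_smul, bf_smul_left, bf_smul_right, map_mul]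
    rw [← mul_assoc, ← map_mul, ← sq, quadraticChar_sq_one' hc, one_mul]
  · intro x
    by_cases h0 : bf a b (S a b p r x) x = 0
    · simp only [h0, quadraticChar_zero]
      norm_num
    · rcases quadraticChar_dichotomy h0 with h1 | h1
      · simp only [h1]
        norm_num
      · simp only [h1]
        norm_num
  · refine ⟨(![1, 0], ![0, 1], 0, 0), ?_, ?_, ?_⟩
    · intro h0
      have h1 := congrFun (congrArg Prod.fst h0) 0
      simp at h1
    · rw [sing_iff]
      simp [qf]
    · have h1 : bf a b (S a b p r ((![1, 0], ![0, 1], 0, 0) : Vec K 2))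
          ((![1, 0], ![0, 1], 0, 0) : Vec K 2) = 2 := by
        simp [bf, S]
        norm_num
      simp only [h1]
      rw [Ne, quadraticChar_eq_zero_iff]
      exact h2
  · intro W hW hf
    let e : Basis (Fin 2) K W := finBasisOfFinrankEq K W hf
    rw [sum_plane _ W e]
    obtain ⟨x, hx⟩ : ∃ x : Vec K 2, x = (e 0 : Vec K 2) := ⟨_, rfl⟩
    obtain ⟨y, hy⟩ : ∃ y : Vec K 2, y = (e 1 : Vec K 2) := ⟨_, rfl⟩
    have hxW : x ∈ W := by rw [hx]; exact (e 0).2
    have hyW : y ∈ W := by rw [hy]; exact (e 1).2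
    rw [← hx, ← hy]
    have hcomm : bf a b (S a b p r y) x = bf a b (S a b p r x) y := by
      rw [bf_S, bf_comm]
    have hexp : ∀ z : K × K, bf a b (S a b p r (z.1 • x + z.2 • y)) (z.1 • x + z.2 • y) =
        bf a b (S a b p r x) x * z.1 ^ 2 + 2 * bf a b (S a b p r x) y * z.1 * z.2 +
          bf a b (S a b p r y) y * z.2 ^ 2 := by
      intro z
      rw [S_add, S_smul, S_smul, bf_add_left, bf_add_right, bf_add_right]
      simp only [bf_smul_left, bf_smul_right]
      rw [hcomm]
      ring
    simp only [hexp]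
    obtain ⟨A, hA⟩ : ∃ A : K, A = bf a b (S a b p r x) x := ⟨_, rfl⟩
    obtain ⟨B, hB⟩ : ∃ B : K, B = bf a b (S a b p r x) y := ⟨_, rfl⟩
    obtain ⟨C, hC⟩ : ∃ C : K, C = bf a b (S a b p r y) y := ⟨_, rfl⟩
    rw [← hA, ← hB, ← hC]
    by_cases hd : B * B - A * C = 0
    · -- the degenerate case
      have hall : A = 0 ∧ B = 0 ∧ C = 0 := by
        by_contra hcon
        -- a vector of the radical
        obtain ⟨s, t, hst, h3, h4⟩ : ∃ s t : K, (s ≠ 0 ∨ t ≠ 0) ∧ s * A + t * B = 0 ∧
            s * B + t * C = 0 := by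
          by_cases hAB : A = 0 ∧ B = 0
          · refine ⟨1, 0, Or.inl one_ne_zero, ?_, ?_⟩
            · rw [hAB.1]; ring
            · rw [hAB.2]; ring
          · refine ⟨B, -A, ?_, ?_, ?_⟩
            · by_contra h5
              push Not at h5
              exact hAB ⟨neg_eq_zero.1 h5.2, h5.1⟩
            · ring
            · linear_combination hd
        have hz0 : s • x + t • y ≠ 0 := by
          intro h5
          have h6 : s • e 0 + t • e 1 = 0 := by
            apply Subtype.ext
            simp only [Submodule.coe_add, Submodule.coe_smul, Submodule.coe_zero]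
            rw [← hx, ← hy]
            exact h5
          have h7 := Fintype.linearIndependent_iff.1 e.linearIndependent ![s, t] (by
            rw [Fin.sum_univ_two]
            simpa using h6)
          rcases hst with h8 | h8
          · exact h8 (by simpa using h7 0)
          · exact h8 (by simpa using h7 1)
        have hzW : s • x + t • y ∈ W :=
          W.add_mem (W.smul_mem _ hxW) (W.smul_mem _ hyW)
        have hbas : ∀ w ∈ W, ∃ s' t' : K, w = s' • x + t' • y := by
          intro w hw
          have h8 := e.sum_repr ⟨w, hw⟩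
          rw [Fin.sum_univ_two] at h8
          refine ⟨e.repr ⟨w, hw⟩ 0, e.repr ⟨w, hw⟩ 1, ?_⟩
          have h9 := congrArg Subtype.val h8
          simp only [Submodule.coe_add, Submodule.coe_smul] at h9
          rw [hx, hy]
          exact h9.symm
        have hrad : ∀ w ∈ W, bf a b (S a b p r (s • x + t • y)) w = 0 := by
          intro w hw
          obtain ⟨s', t', rfl⟩ := hbas w hw
          rw [S_add, S_smul, S_smul, bf_add_left, bf_add_right, bf_add_right]
          simp only [bf_smul_left, bf_smul_right]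
          rw [hcomm, ← hA, ← hB, ← hC]
          linear_combination s' * h3 + t' * h4
        have hall2 := radical hW2 a b h p r hk W hW hf (s • x + t • y) hzW hz0 hrad
        apply hcon
        exact ⟨hA.trans (hall2 x hxW x hxW), hB.trans (hall2 x hxW y hyW),
          hC.trans (hall2 y hyW y hyW)⟩
      obtain ⟨h5, h6, h7⟩ := hall
      rw [h5, h6, h7]
      simp
    · exact binary h2 A B C hd

end Pool.Agent.Lib.MP_e6ed9e_al.Polar.C67
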