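import Pool.Agent.Lib.MP_e6ed9e_al.Polar.Defs
import Pool.Agent.Lib.MP_e6ed9e_al.Polar.Glue88

/-!
Row COMB.
-/

namespace Pool.Agent.Lib.MP_e6ed9e_al.Polar

open Finset SpreadPerm Module

theorem stComb88 : StComb := fun _ _ _ _ _ _ B v h1 h2 h3 h4 h5 =>
  nonSpreading_of_vector v h3 h4 B h1 h2 h5

end Pool.Agent.Lib.MP_e6ed9e_al.Polar
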