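import Mathlib
import Pool.Agent.Lib.MP_e6ed9e_al.Polar.Basic

/-!
# BASE E: hermitian varieties in an odd number of variables, from the elliptic quadrics over the
fixed field (helper47)
-/

namespace Pool.Agent.Lib.MP_e6ed9e_al.Polar.E47

open Finset SpreadPerm Module
open scoped Classical
open Pool.Agent.Lib.MP_e6ed9e_al.Polar

noncomputable section

variable {K : Type} [Field K]

/-- The fixed field. -/
def F0 (σ : K →+* K) : Subfield K := RingHom.eqLocusField σ (RingHom.id K)

theorem mem_F0 {σ : K →+* K} {x : K} : x ∈ F0 σ ↔ σ x = x := Iff.rfl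

theorem coe_F0 {σ : K →+* K} (x : F0 σ) : σ (x : K) = x := x.2

variable (σ : K →+* K) (h2 : ∀ t, σ (σ t) = t) (ω : K) (hω : σ ω ≠ ω)

/-- The trace. -/
def tr (z : K) : F0 σ := ⟨z + σ z, by rw [mem_F0, map_add, h2, add_comm]⟩

theorem coe_tr (z : K) : ((tr σ h2 z : F0 σ) : K) = z + σ z := rfl

include h2 in
theorem c2_mem (z : K) : (z - σ z) / (ω - σ ω) ∈ F0 σ := by
  rw [mem_F0, map_div₀, map_sub, map_sub, h2, h2, ← neg_sub z, ← neg_sub ω, neg_div_neg_eq]

/-- The second coordinate with respect to `1, ω`. -/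
def c2 (z : K) : F0 σ := ⟨(z - σ z) / (ω - σ ω), c2_mem σ h2 ω z⟩

theorem coe_c2 (z : K) : ((c2 σ h2 ω z : F0 σ) : K) = (z - σ z) / (ω - σ ω) := rfl

include hω in
theorem tau_ne : ω - σ ω ≠ 0 := fun h => hω (sub_eq_zero.1 h).symm

include hω h2 in
theorem c1_mem (z : K) : z - (z - σ z) / (ω - σ ω) * ω ∈ F0 σ := by
  have h := c2_mem σ h2 ω z
  rw [mem_F0] at h
  rw [mem_F0, map_sub, map_mul, h]
  have ht := tau_ne σ ω hω
  field_simp
  ring

/-- The first coordinate with respect to `1, ω`. -/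
def c1 (z : K) : F0 σ := ⟨z - (z - σ z) / (ω - σ ω) * ω, c1_mem σ h2 ω hω z⟩

theorem coe_c1 (z : K) : ((c1 σ h2 ω hω z : F0 σ) : K) = z - (z - σ z) / (ω - σ ω) * ω := rfl

theorem co_eq (z : K) : ((c1 σ h2 ω hω z : F0 σ) : K) + (c2 σ h2 ω z : K) * ω = z := by
  rw [coe_c1, coe_c2]
  ring

/-- The isometry from the hermitian space with three coordinates to the elliptic space. -/
def Θ : (K × K × K) →ₗ[F0 σ] Vec (F0 σ) 2 where
  toFun z := (![tr σ h2 z.1, tr σ h2 (z.1 * ω)], ![c1 σ h2 ω hω (σ z.2.1), c2 σ h2 ω (σ z.2.1)],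
    c1 σ h2 ω hω z.2.2, c2 σ h2 ω z.2.2)
  map_add' x y := by
    refine Prod.ext ?_ (Prod.ext ?_ (Prod.ext ?_ ?_))
    · funext i
      fin_cases i
      · apply Subtype.ext
        simp [coe_tr]
        ring
      · apply Subtype.ext
        simp [coe_tr]
        ring
    · funext i
      fin_cases i
      · apply Subtype.ext
        simp [coe_c1]
        ring
      · apply Subtype.ext
        simp [coe_c2]
        ring
    · apply Subtype.ext
      simp [coe_c1]
      ring
    · apply Subtype.ext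
      simp [coe_c2]
      ring
  map_smul' c x := by
    have hc := coe_F0 c
    refine Prod.ext ?_ (Prod.ext ?_ (Prod.ext ?_ ?_))
    · funext i
      fin_cases i
      · apply Subtype.ext
        simp [coe_tr, Subfield.smul_def, hc]
        ring
      · apply Subtype.ext
        simp [coe_tr, Subfield.smul_def, hc]
        ring
    · funext i
      fin_cases i
      · apply Subtype.ext
        simp [coe_c1, Subfield.smul_def, hc, h2]
        ring
      · apply Subtype.ext
        simp [coe_c2, Subfield.smul_def, hc, h2]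
        ring
    · apply Subtype.ext
      simp [coe_c1, Subfield.smul_def, hc]
      ring
    · apply Subtype.ext
      simp [coe_c2, Subfield.smul_def, hc]
      ring


include h2 hω in
theorem co_eq' (z : K) : ((c1 σ h2 ω hω z : F0 σ) : K) + (c2 σ h2 ω z : K) * σ ω = σ z := by
  have h := congrArg σ (co_eq σ h2 ω hω z)
  rw [map_add, map_mul, coe_F0, coe_F0] at h
  exact h

/-- The hermitian form on the coordinates `u₁, w₁, e`. -/
def hh (z z' : K × K × K) : K := z.1 * σ z'.2.1 + z.2.1 * σ z'.1 + z.2.2 * σ z'.2.2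

/-- The constant term. -/
def aF : F0 σ := ⟨ω * σ ω, by rw [mem_F0, map_mul, h2, mul_comm]⟩

/-- The linear term. -/
def bF : F0 σ := ⟨ω + σ ω, by rw [mem_F0, map_add, h2, add_comm]⟩

include h2 hω in
theorem noroot (t : F0 σ) : t ^ 2 + bF σ h2 ω * t + aF σ h2 ω ≠ 0 := by
  intro h
  have h' : ((t : K)) ^ 2 + (ω + σ ω) * t + ω * σ ω = 0 := congrArg Subtype.val h
  have h3 : ((t : K) + ω) * ((t : K) + σ ω) = 0 := by linear_combination h'
  rcases mul_eq_zero.1 h3 with h4 | h4
  · apply hω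
    have h5 : ω = -(t : K) := by linear_combination h4
    rw [h5, map_neg, coe_F0]
  · have h5 : σ ω = -(t : K) := by linear_combination h4
    have h6 := congrArg σ h5
    rw [h2, map_neg, coe_F0] at h6
    exact hω (h5.trans h6.symm)

/-- The elliptic quadric over the fixed field. -/
def EK : Kind (F0 σ) := .elliptic (aF σ h2 ω) (bF σ h2 ω) (noroot σ h2 ω hω)

theorem Sing_Θ (z : K × K × K) : Sing (EK σ h2 ω hω) (Θ σ h2 ω hω z) ↔ hh σ z z = 0 := by
  have e1 := co_eq σ h2 ω hω (σ z.2.1)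
  have e2 := co_eq' σ h2 ω hω (σ z.2.1)
  have e3 := co_eq σ h2 ω hω z.2.2
  have e4 := co_eq' σ h2 ω hω z.2.2
  rw [h2] at e2
  have key : (z.1 + σ z.1) * (c1 σ h2 ω hω (σ z.2.1) : K) +
      (z.1 * ω + σ (z.1 * ω)) * (c2 σ h2 ω (σ z.2.1) : K) +
      ((c1 σ h2 ω hω z.2.2 : K) ^ 2 + (ω + σ ω) *
        ((c1 σ h2 ω hω z.2.2 : K) * (c2 σ h2 ω z.2.2 : K)) +
        ω * σ ω * (c2 σ h2 ω z.2.2 : K) ^ 2) = hh σ z z := by
    unfold hh
    rw [map_mul]
    linear_combination z.1 * e1 + σ z.1 * e2 + ((c1 σ h2 ω hω z.2.2 : K) +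
      (c2 σ h2 ω z.2.2 : K) * σ ω) * e3 + z.2.2 * e4
  rw [← key]
  unfold Sing tv EK
  rw [Fin.sum_univ_two]
  exact Subtype.ext_iff

theorem form_Θ (z z' : K × K × K) : ((form (EK σ h2 ω hω) (Θ σ h2 ω hω z) (Θ σ h2 ω hω z') :
    F0 σ) : K) = hh σ z z' + σ (hh σ z z') := by
  have e1 := co_eq σ h2 ω hω (σ z.2.1)
  have e2 := co_eq' σ h2 ω hω (σ z.2.1)
  have e3 := co_eq σ h2 ω hω z.2.2
  have e4 := co_eq' σ h2 ω hω z.2.2
  have f1 := co_eq σ h2 ω hω (σ z'.2.1)
  have f2 := co_eq' σ h2 ω hω (σ z'.2.1)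
  have f3 := co_eq σ h2 ω hω z'.2.2
  have f4 := co_eq' σ h2 ω hω z'.2.2
  rw [h2] at e2 f2
  have key : ((z.1 + σ z.1) * (c1 σ h2 ω hω (σ z'.2.1) : K) +
      1 * ((c1 σ h2 ω hω (σ z.2.1) : K) * (z'.1 + σ z'.1))) +
      ((z.1 * ω + σ (z.1 * ω)) * (c2 σ h2 ω (σ z'.2.1) : K) +
      1 * ((c2 σ h2 ω (σ z.2.1) : K) * (z'.1 * ω + σ (z'.1 * ω)))) +
      (2 * ((c1 σ h2 ω hω z.2.2 : K) * (c1 σ h2 ω hω z'.2.2 : K)) + (ω + σ ω) *
        ((c1 σ h2 ω hω z.2.2 : K) * (c2 σ h2 ω z'.2.2 : K) +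
          (c2 σ h2 ω z.2.2 : K) * (c1 σ h2 ω hω z'.2.2 : K)) +
        2 * (ω * σ ω) * ((c2 σ h2 ω z.2.2 : K) * (c2 σ h2 ω z'.2.2 : K))) =
      hh σ z z' + σ (hh σ z z') := by
    unfold hh
    simp only [map_mul, map_add, h2]
    linear_combination z.1 * f1 + σ z.1 * f2 + z'.1 * e1 + σ z'.1 * e2 +
      ((c1 σ h2 ω hω z'.2.2 : K) + (c2 σ h2 ω z'.2.2 : K) * σ ω) * e3 + z.2.2 * f4 +
      ((c1 σ h2 ω hω z'.2.2 : K) + (c2 σ h2 ω z'.2.2 : K) * ω) * e4 + σ z.2.2 * f3
  rw [← key]
  unfold form EK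
  rw [Fin.sum_univ_two]
  rfl

theorem Θ_inj : Function.Injective (Θ σ h2 ω hω) := by
  rw [← LinearMap.ker_eq_bot, LinearMap.ker_eq_bot']
  intro z hz
  have ht := tau_ne σ ω hω
  have a1 : tr σ h2 z.1 = 0 := congrFun (congrArg Prod.fst hz) 0
  have a2 : tr σ h2 (z.1 * ω) = 0 := congrFun (congrArg Prod.fst hz) 1
  have b1 : c1 σ h2 ω hω (σ z.2.1) = 0 := congrFun (congrArg (fun x => x.2.1) hz) 0
  have b2 : c2 σ h2 ω (σ z.2.1) = 0 := congrFun (congrArg (fun x => x.2.1) hz) 1
  have d1 : c1 σ h2 ω hω z.2.2 = 0 := congrArg (fun x => x.2.2.1) hz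
  have d2 : c2 σ h2 ω z.2.2 = 0 := congrArg (fun x => x.2.2.2) hz
  have a1' : z.1 + σ z.1 = 0 := congrArg Subtype.val a1
  have a2' : z.1 * ω + σ (z.1 * ω) = 0 := congrArg Subtype.val a2
  rw [map_mul] at a2'
  have hu : z.1 = 0 := by
    have : z.1 * (ω - σ ω) = 0 := by linear_combination a2' - σ ω * a1'
    exact (mul_eq_zero.1 this).resolve_right ht
  have hw : z.2.1 = 0 := by
    have := co_eq σ h2 ω hω (σ z.2.1)
    rw [b1, b2] at this
    have h3 : σ z.2.1 = 0 := by simpa using this.symm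
    have h4 := congrArg σ h3
    rwa [h2, map_zero] at h4
  have he : z.2.2 = 0 := by
    have := co_eq σ h2 ω hω z.2.2
    rw [d1, d2] at this
    simpa using this.symm
  exact Prod.ext hu (Prod.ext hw he)

theorem c_of (p q : F0 σ) : c1 σ h2 ω hω ((p : K) + q * ω) = p ∧
    c2 σ h2 ω ((p : K) + q * ω) = q := by
  have ht := tau_ne σ ω hω
  have hq : (c2 σ h2 ω ((p : K) + q * ω) : K) = q := by
    rw [coe_c2, map_add, map_mul, coe_F0, coe_F0]
    field_simp
    ring
  refine ⟨?_, Subtype.ext hq⟩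
  apply Subtype.ext
  have := co_eq σ h2 ω hω ((p : K) + q * ω)
  rw [hq] at this
  linear_combination this

theorem Θ_surj : Function.Surjective (Θ σ h2 ω hω) := by
  intro x
  have ht := tau_ne σ ω hω
  refine ⟨(((x.1 1 : K) - x.1 0 * σ ω) / (ω - σ ω), σ ((x.2.1 0 : K) + x.2.1 1 * ω),
    (x.2.2.1 : K) + x.2.2.2 * ω), ?_⟩
  have hs : σ (((x.1 1 : K) - x.1 0 * σ ω) / (ω - σ ω)) =
      ((x.1 1 : K) - x.1 0 * ω) / (σ ω - ω) := by
    rw [map_div₀, map_sub, map_sub, map_mul, coe_F0, coe_F0, h2]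
  have ht' : σ ω - ω ≠ 0 := fun h => ht (by linear_combination -h)
  refine Prod.ext ?_ (Prod.ext ?_ (Prod.ext ?_ ?_))
  · funext i
    fin_cases i
    · apply Subtype.ext
      change (((x.1 1 : K) - x.1 0 * σ ω) / (ω - σ ω)) +
        σ (((x.1 1 : K) - x.1 0 * σ ω) / (ω - σ ω)) = x.1 0
      rw [hs]
      field_simp
      ring
    · apply Subtype.ext
      change (((x.1 1 : K) - x.1 0 * σ ω) / (ω - σ ω)) * ω +
        σ ((((x.1 1 : K) - x.1 0 * σ ω) / (ω - σ ω)) * ω) = x.1 1
      rw [map_mul, hs]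
      field_simp
      ring
  · funext i
    fin_cases i
    · change c1 σ h2 ω hω (σ (σ ((x.2.1 0 : K) + x.2.1 1 * ω))) = x.2.1 0
      rw [h2]
      exact (c_of σ h2 ω hω _ _).1
    · change c2 σ h2 ω (σ (σ ((x.2.1 0 : K) + x.2.1 1 * ω))) = x.2.1 1
      rw [h2]
      exact (c_of σ h2 ω hω _ _).2
  · exact (c_of σ h2 ω hω _ _).1
  · exact (c_of σ h2 ω hω _ _).2

include h2 hω in
theorem finrank_F0 : finrank (F0 σ) K = 2 := by
  let L : K →ₗ[F0 σ] (F0 σ × F0 σ) :=
    { toFun := fun z => (c1 σ h2 ω hω z, c2 σ h2 ω z)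
      map_add' := by
        intro x y
        refine Prod.ext ?_ ?_
        · apply Subtype.ext
          simp [coe_c1]
          ring
        · apply Subtype.ext
          simp [coe_c2]
          ring
      map_smul' := by
        intro c x
        have hc := coe_F0 c
        refine Prod.ext ?_ ?_
        · apply Subtype.ext
          simp [coe_c1, Subfield.smul_def, hc]
          ring
        · apply Subtype.ext
          simp [coe_c2, Subfield.smul_def, hc]
          ring }
  have hb : Function.Bijective L := by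
    constructor
    · intro x y hxy
      have h1 : c1 σ h2 ω hω x = c1 σ h2 ω hω y := congrArg Prod.fst hxy
      have h3 : c2 σ h2 ω x = c2 σ h2 ω y := congrArg Prod.snd hxy
      rw [← co_eq σ h2 ω hω x, ← co_eq σ h2 ω hω y, h1, h3]
    · intro p
      refine ⟨(p.1 : K) + p.2 * ω, ?_⟩
      exact Prod.ext (c_of σ h2 ω hω _ _).1 (c_of σ h2 ω hω _ _).2
  rw [(LinearEquiv.ofBijective L hb).finrank_eq, Module.finrank_prod, Module.finrank_self]

include h2 in
/-- The hermitian form on three coordinates has Witt index one. -/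
theorem witt_one {z z' : K × K × K} (hz : z ≠ 0) (hzz : hh σ z z = 0) (hz' : hh σ z' z' = 0)
    (hzz' : hh σ z' z = 0) : ∃ c : K, z' = c • z := by
  have hσ0 : ∀ t : K, σ t = 0 → t = 0 := fun t h => by
    have := congrArg σ h
    rwa [h2, map_zero] at this
  obtain ⟨u, w, e⟩ := z
  obtain ⟨u', w', e'⟩ := z'
  simp only [hh] at hzz hz' hzz'
  by_cases hw : w = 0
  · subst hw
    simp only [map_zero, mul_zero, zero_mul, zero_add, add_zero] at hzz hzz'
    have he : e = 0 := by
      rcases mul_eq_zero.1 hzz with h | h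
      · exact h
      · exact hσ0 e h
    subst he
    simp only [map_zero, mul_zero, add_zero] at hzz'
    have hu : u ≠ 0 := by
      rintro rfl
      exact hz rfl
    have hw' : w' = 0 := by
      rcases mul_eq_zero.1 hzz' with h | h
      · exact h
      · exact absurd (hσ0 u h) hu
    subst hw'
    simp only [map_zero, mul_zero, zero_mul, zero_add] at hz'
    have he' : e' = 0 := by
      rcases mul_eq_zero.1 hz' with h | h
      · exact h
      · exact hσ0 e' h
    subst he'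
    exact ⟨u' / u, by ext <;> simp [hu]⟩
  · have hwσ : σ w ≠ 0 := fun h => hw (hσ0 w h)
    obtain ⟨c, hc⟩ : ∃ c, w' = c * w := ⟨w' / w, by field_simp⟩
    subst hc
    have hC := congrArg σ hzz'
    simp only [map_add, map_mul, h2, map_zero] at hC
    simp only [map_mul] at hz'
    have h1 : (e' - c * e) * σ (e' - c * e) = 0 := by
      rw [map_sub, map_mul]
      linear_combination hz' - σ c * hzz' - c * hC + c * σ c * hzz
    have h3 : e' - c * e = 0 := by
      rcases mul_eq_zero.1 h1 with h | h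
      · exact h
      · exact hσ0 _ h
    have h4 : (u' - c * u) * σ w = 0 := by
      linear_combination hzz' - c * hzz - σ e * h3
    have h5 : u' - c * u = 0 := (mul_eq_zero.1 h4).resolve_right hwσ
    refine ⟨c, Prod.ext ?_ (Prod.ext ?_ ?_)⟩
    · change u' = c * u
      linear_combination h5
    · rfl
    · change e' = c * e
      linear_combination h3

/-- The coordinates `u₁, w₁, e₁`. -/
def pj : Vec K 2 →ₗ[K] K × K × K where
  toFun x := (x.1 1, x.2.1 1, x.2.2.1)
  map_add' x y := rfl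
  map_smul' c x := rfl

/-- The coordinates `u₀, w₀`. -/
def p0 : Vec K 2 →ₗ[K] K × K where
  toFun x := (x.1 0, x.2.1 0)
  map_add' x y := rfl
  map_smul' c x := rfl

/-- The function on the hermitian space. -/
def vv (g : K × K × K → ℤ) (x : Vec K 2) : ℤ :=
  if (p0 x).2 ≠ 0 then
    (if σ ((p0 x).1 / (p0 x).2) = -((p0 x).1 / (p0 x).2) then g ((p0 x).2⁻¹ • pj x) else 0)
  else if (p0 x).1 ≠ 0 then g (((ω - σ ω) * (p0 x).1⁻¹) • pj x) else 0

theorem vv_smul (g : K × K × K → ℤ) (c : K) (x : Vec K 2) (hc : c ≠ 0) :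
    vv σ ω g (c • x) = vv σ ω g x := by
  unfold vv
  rw [map_smul, map_smul]
  simp only [Prod.smul_fst, Prod.smul_snd, smul_eq_mul]
  by_cases h : (p0 x).2 = 0
  · by_cases h' : (p0 x).1 = 0
    · simp [h, h']
    · have : ((ω - σ ω) * (c * (p0 x).1)⁻¹) • c • pj x = ((ω - σ ω) * (p0 x).1⁻¹) • pj x := by
        rw [smul_smul]
        congr 1
        field_simp
      simp [h, h', hc, ← this]
  · have h1 : (c * (p0 x).2)⁻¹ • c • pj x = (p0 x).2⁻¹ • pj x := by
      rw [smul_smul]
      congr 1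
      field_simp
    have h3 : c * (p0 x).1 / (c * (p0 x).2) = (p0 x).1 / (p0 x).2 := by
      field_simp
    rw [h1, h3]
    simp [h, hc]

theorem vv_ge (g : K × K × K → ℤ) (hg : ∀ z, -1 ≤ g z) (x : Vec K 2) : -1 ≤ vv σ ω g x := by
  unfold vv
  split_ifs
  · exact hg _
  · norm_num
  · exact hg _
  · norm_num

theorem form_eq (h1 : ∃ t, σ t ≠ t) (x y : Vec K 2) : form (.unitaryOdd σ h2 h1) x y =
    ((p0 x).1 * σ (p0 y).2 + (p0 x).2 * σ (p0 y).1) + hh σ (pj x) (pj y) := by
  unfold form hh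
  rw [Fin.sum_univ_two]
  simp only [Kind.sig, Kind.eps, Kind.bE, p0, pj, LinearMap.coe_mk, AddHom.coe_mk]
  ring

/-- The sum over a line of singular vectors. -/
theorem line_sum [Fintype K] [Fintype (F0 σ)] {β : Vec (F0 σ) 2 → ℤ}
    (hβ : Good (EK σ h2 ω hω) β) {z : K × K × K} (hz : z ≠ 0) (hzz : hh σ z z = 0) :
    ∑ s : K, β (Θ σ h2 ω hω (s • z)) = 0 := by
  let L : K →ₗ[F0 σ] Vec (F0 σ) 2 :=
    { toFun := fun s => Θ σ h2 ω hω (s • z)
      map_add' := by
        intro s t
        rw [add_smul, map_add]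
      map_smul' := by
        intro c s
        rw [RingHom.id_apply, ← map_smul]
        congr 1
        rw [Subfield.smul_def, Subfield.smul_def, smul_assoc] }
  have hL : Function.Injective L := by
    intro s t hst
    have h3 : s • z = t • z := Θ_inj σ h2 ω hω hst
    by_contra hne
    have h4 : (s - t) • z = 0 := by rw [sub_smul, h3, sub_self]
    rcases smul_eq_zero.1 h4 with h | h
    · exact hne (sub_eq_zero.1 h)
    · exact hz h
  have hr : finrank (F0 σ) (LinearMap.range L) = 2 := by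
    rw [LinearMap.finrank_range_of_inj hL, finrank_F0 σ h2 ω hω]
  have hh1 : ∀ s t : K, hh σ (s • z) (t • z) = 0 := by
    intro s t
    have : hh σ (s • z) (t • z) = s * σ t * hh σ z z := by
      unfold hh
      simp only [Prod.smul_fst, Prod.smul_snd, smul_eq_mul, map_mul]
      ring
    rw [this, hzz, mul_zero]
  have hTS : TS (EK σ h2 ω hω) (LinearMap.range L) := by
    constructor
    · rintro x ⟨s, rfl⟩
      exact (Sing_Θ σ h2 ω hω _).2 (hh1 s s)
    · rintro x ⟨s, rfl⟩ y ⟨t, rfl⟩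
      apply Subtype.ext
      change ((form (EK σ h2 ω hω) (Θ σ h2 ω hω (s • z)) (Θ σ h2 ω hω (t • z)) : F0 σ) : K) = 0
      rw [form_Θ, hh1]
      simp
  have h3 := hβ.sum _ hTS hr
  rw [← h3]
  refine sum_bij (fun s _ => L s) ?_ ?_ ?_ ?_
  · intro s _
    exact mem_filter.2 ⟨mem_univ _, ⟨s, rfl⟩⟩
  · intro s _ t _ hst
    exact hL hst
  · intro x hx
    obtain ⟨s, hs⟩ := (mem_filter.1 hx).2
    exact ⟨s, mem_univ _, hs⟩
  · intro s _
    rfl

/-- The sum over an affine line of vectors in one direction. -/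
theorem aff_sum [Fintype K] [Fintype (F0 σ)] {β : Vec (F0 σ) 2 → ℤ}
    (hβ : Good (EK σ h2 ω hω) β) {z z' : K × K × K} (hz : z ≠ 0) (hzz : hh σ z z = 0)
    (hz' : hh σ z' z' = 0) (hzz' : hh σ z' z = 0) {l : K} (hl : l ≠ 0) :
    ∑ t : K, β (Θ σ h2 ω hω (l • (z' + t • z))) = 0 := by
  obtain ⟨c, rfl⟩ := witt_one σ h2 hz hzz hz' hzz'
  rw [← line_sum σ h2 ω hω hβ hz hzz]
  let f : K ≃ K := (Equiv.addLeft c).trans (Equiv.mulLeft₀ l hl)
  refine Fintype.sum_equiv f _ _ (fun t => ?_)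
  change β (Θ σ h2 ω hω (l • (c • z + t • z))) = β (Θ σ h2 ω hω ((l * (c + t)) • z))
  rw [← add_smul, smul_smul]

include h2 hω in
theorem tau_fix (t : K) : σ (t * (ω - σ ω)) = -(t * (ω - σ ω)) ↔ σ t = t := by
  have ht := tau_ne σ ω hω
  rw [map_mul, map_sub, h2]
  constructor
  · intro h
    have : (σ t - t) * (ω - σ ω) = 0 := by linear_combination -h
    rcases mul_eq_zero.1 this with h3 | h3
    · exact sub_eq_zero.1 h3
    · exact absurd h3 ht
  · intro h
    rw [h]
    ring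

theorem good_sum [Fintype K] [Fintype (F0 σ)] (hS : StSum) (h1 : ∃ t, σ t ≠ t)
    {β : Vec (F0 σ) 2 → ℤ}
    (hβ : Good (EK σ h2 ω hω) β) (W : Submodule K (Vec K 2)) (hW : TS (.unitaryOdd σ h2 h1) W)
    (hr : finrank K W = 2) :
    ∑ x ∈ univ.filter (fun x => x ∈ W), vv σ ω (fun z => β (Θ σ h2 ω hω z)) x = 0 := by
  set g : K × K × K → ℤ := fun z => β (Θ σ h2 ω hω z) with hg
  have hv0 : vv σ ω g 0 = 0 := by simp [vv]
  have ht := tau_ne σ ω hω
  have hform : ∀ x ∈ W, ∀ y ∈ W,
      ((p0 x).1 * σ (p0 y).2 + (p0 x).2 * σ (p0 y).1) + hh σ (pj x) (pj y) = 0 := by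
    intro x hx y hy
    rw [← form_eq σ h2 h1]
    exact hW.2 x hx y hy
  have hlast : ∀ x ∈ W, x.2.2.2 = 0 := fun x hx => (hW.1 x hx).1
  have hzero : ∀ x ∈ W, p0 x = 0 → pj x = 0 → x = 0 := by
    intro x hx h3 h4
    have e1 : x.1 0 = 0 := congrArg Prod.fst h3
    have e2 : x.2.1 0 = 0 := congrArg Prod.snd h3
    have e3 : x.1 1 = 0 := congrArg Prod.fst h4
    have e4 : x.2.1 1 = 0 := congrArg (fun z => z.2.1) h4
    have e5 : x.2.2.1 = 0 := congrArg (fun z => z.2.2) h4
    have e6 := hlast x hx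
    refine Prod.ext ?_ (Prod.ext ?_ (Prod.ext e5 e6))
    · funext i
      fin_cases i
      · exact e1
      · exact e3
    · funext i
      fin_cases i
      · exact e2
      · exact e4
  by_cases hinj : ∀ x ∈ W, p0 x = 0 → x = 0
  · -- the generic planes
    have hbij : Function.Surjective ((p0 : Vec K 2 →ₗ[K] K × K).domRestrict W) := by
      have hi : Function.Injective ((p0 : Vec K 2 →ₗ[K] K × K).domRestrict W) := by
        rw [← LinearMap.ker_eq_bot, LinearMap.ker_eq_bot']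
        intro x hx
        exact Subtype.ext (hinj x.1 x.2 hx)
      have hd : finrank K W = finrank K (K × K) := by
        rw [hr, Module.finrank_prod, Module.finrank_self]
      exact (LinearMap.injective_iff_surjective_of_finrank_eq_finrank hd).1 hi
    obtain ⟨⟨x, hx⟩, hpx⟩ := hbij (ω - σ ω, 0)
    obtain ⟨⟨y, hy⟩, hpy⟩ := hbij (0, 1)
    replace hpx : p0 x = (ω - σ ω, 0) := hpx
    replace hpy : p0 y = (0, 1) := hpy
    have hli : LinearIndependent K ![x, y] := by
      rw [LinearIndependent.pair_iff]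
      intro s t hst
      have h3 := congrArg p0 hst
      rw [map_add, map_smul, map_smul, hpx, hpy, map_zero] at h3
      have h4 : s * (ω - σ ω) + t * 0 = 0 := congrArg Prod.fst h3
      have h5 : s * 0 + t * 1 = 0 := congrArg Prod.snd h3
      refine ⟨?_, by linear_combination h5⟩
      rw [mul_zero, add_zero] at h4
      exact (mul_eq_zero.1 h4).resolve_right ht
    rw [hS K 2 _ W x y hv0 (fun c x hc => vv_smul σ ω g c x hc) hr hx hy hli]
    -- the values
    have hvx : vv σ ω g x = g (pj x) := by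
      unfold vv
      rw [hpx]
      simp [ht]
    have hvy : ∀ t : K, vv σ ω g (y + t • x) = if σ t = t then g (pj y + t • pj x) else 0 := by
      intro t
      unfold vv
      rw [map_add, map_smul, map_add, map_smul, hpx, hpy]
      have e1 : (((0 : K), (1 : K)) + t • (ω - σ ω, (0 : K))).1 = t * (ω - σ ω) := by simp
      have e2 : (((0 : K), (1 : K)) + t • (ω - σ ω, (0 : K))).2 = 1 := by simp
      rw [e1, e2, div_one, inv_one, one_smul]
      simp only [ne_eq, one_ne_zero, not_false_eq_true, if_true]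
      by_cases h : σ t = t
      · rw [if_pos h, if_pos ((tau_fix σ h2 ω hω t).2 h)]
      · rw [if_neg h, if_neg (fun h' => h ((tau_fix σ h2 ω hω t).1 h'))]
    have hsum : ∑ t : K, vv σ ω g (y + t • x) =
        ∑ t : F0 σ, β (Θ σ h2 ω hω (pj y) + t • Θ σ h2 ω hω (pj x)) := by
      rw [sum_congr rfl (fun t _ => hvy t), ← sum_filter]
      symm
      refine sum_bij (fun (t : F0 σ) _ => (t : K)) ?_ ?_ ?_ ?_
      · intro t _
        exact mem_filter.2 ⟨mem_univ _, coe_F0 t⟩
      · intro s _ t _ hst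
        exact Subtype.ext hst
      · intro t ht
        exact ⟨⟨t, (mem_filter.1 ht).2⟩, mem_univ _, rfl⟩
      · intro t _
        rw [hg, ← map_smul, ← map_add]
        rfl
    rw [hvx, hsum]
    -- the plane over the fixed field
    have hxx := hform x hx x hx
    have hyy := hform y hy y hy
    have hxy := hform x hx y hy
    have hyx := hform y hy x hx
    rw [hpx] at hxx hxy hyx
    rw [hpy] at hyy hxy hyx
    simp only [map_zero, map_one, mul_zero, zero_mul, mul_one, one_mul, zero_add, add_zero,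
      map_sub, h2] at hxx hyy hxy hyx
    set P : Submodule (F0 σ) (Vec (F0 σ) 2) :=
      Submodule.span (F0 σ) (Set.range ![Θ σ h2 ω hω (pj x), Θ σ h2 ω hω (pj y)]) with hP
    have hliF : LinearIndependent (F0 σ) ![Θ σ h2 ω hω (pj x), Θ σ h2 ω hω (pj y)] := by
      rw [LinearIndependent.pair_iff]
      intro s t hst
      have hst' : Θ σ h2 ω hω (s • pj x + t • pj y) = Θ σ h2 ω hω 0 := by
        rw [map_add, map_smul (Θ σ h2 ω hω), map_smul (Θ σ h2 ω hω), map_zero]
        exact hst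
      have h3 := Θ_inj σ h2 ω hω hst'
      have h4 : pj ((s : K) • x + (t : K) • y) = 0 := by
        rw [map_add, map_smul, map_smul]
        exact h3
      have hz : (s : K) • x + (t : K) • y ∈ W :=
        W.add_mem (W.smul_mem _ hx) (W.smul_mem _ hy)
      have h5 := hform _ hz x hx
      have h6 := hform _ hz y hy
      rw [h4] at h5 h6
      rw [map_add, map_smul, map_smul, hpx, hpy] at h5 h6
      have e1 : ((s : K) • (ω - σ ω, (0 : K)) + (t : K) • ((0 : K), (1 : K))).1 =
        s * (ω - σ ω) := by simp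
      have e2 : ((s : K) • (ω - σ ω, (0 : K)) + (t : K) • ((0 : K), (1 : K))).2 = t := by simp
      rw [e1, e2] at h5 h6
      simp only [hh, Prod.fst_zero, Prod.snd_zero, zero_mul, map_zero, mul_zero, map_one,
        mul_one, zero_add, add_zero, map_sub, h2] at h5 h6
      constructor
      · apply Subtype.ext
        exact (mul_eq_zero.1 h6).resolve_right ht
      · apply Subtype.ext
        refine (mul_eq_zero.1 h5).resolve_right (fun h => ht ?_)
        linear_combination -h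
    have hPr : finrank (F0 σ) P = 2 := by
      rw [hP, finrank_span_eq_card hliF]
      simp
    have hmx : Θ σ h2 ω hω (pj x) ∈ P := Submodule.subset_span ⟨0, rfl⟩
    have hmy : Θ σ h2 ω hω (pj y) ∈ P := Submodule.subset_span ⟨1, rfl⟩
    have hPTS : TS (EK σ h2 ω hω) P := by
      have s1 : Sing (EK σ h2 ω hω) (Θ σ h2 ω hω (pj x)) := (Sing_Θ σ h2 ω hω _).2 hxx
      have s2 : Sing (EK σ h2 ω hω) (Θ σ h2 ω hω (pj y)) := (Sing_Θ σ h2 ω hω _).2 hyy
      have s3 : form (EK σ h2 ω hω) (Θ σ h2 ω hω (pj x)) (Θ σ h2 ω hω (pj y)) = 0 := by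
        apply Subtype.ext
        rw [form_Θ]
        have : hh σ (pj x) (pj y) = -(ω - σ ω) := by linear_combination hxy
        rw [this, map_neg, map_sub, h2]
        change _ = (0 : K)
        ring
      refine TS_span _ ?_ ?_
      · rintro _ ⟨i, rfl⟩
        fin_cases i
        · exact s1
        · exact s2
      · rintro _ ⟨i, rfl⟩ _ ⟨j, rfl⟩
        fin_cases i <;> fin_cases j
        · exact form_self _ s1
        · exact s3
        · exact form_zero_symm _ s3
        · exact form_self _ s2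
    have h3 := hβ.sum P hPTS hPr
    rw [hS (F0 σ) 2 β P _ _ hβ.zero hβ.smul hPr hmx hmy hliF] at h3
    have hc : ((Fintype.card (F0 σ) : ℤ) - 1) ≠ 0 := by
      have := Fintype.one_lt_card (α := F0 σ)
      omega
    have h4 := (mul_eq_zero.1 h3).resolve_left hc
    rw [hg]
    rw [h4, mul_zero]
  · -- the planes that meet the hyperplane line
    push Not at hinj
    obtain ⟨b, hb, hpb, hb0⟩ := hinj
    have hjb : pj b ≠ 0 := fun h => hb0 (hzero b hb hpb h)
    obtain ⟨y, hy, hyb⟩ : ∃ y ∈ W, ∀ c : K, y ≠ c • b := by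
      by_contra hcon
      push Not at hcon
      have hle : W ≤ Submodule.span K {b} := by
        intro y hy
        obtain ⟨c, hc⟩ := hcon y hy
        rw [hc]
        exact Submodule.smul_mem _ _ (Submodule.mem_span_singleton_self b)
      have h3 := Submodule.finrank_mono hle
      rw [hr, finrank_span_singleton hb0] at h3
      omega
    have hli : LinearIndependent K ![b, y] := by
      rw [LinearIndependent.pair_iff' hb0]
      intro c hc
      exact hyb c hc.symm
    rw [hS K 2 _ W b y hv0 (fun c x hc => vv_smul σ ω g c x hc) hr hb hy hli]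
    have hvb : vv σ ω g b = 0 := by
      unfold vv
      rw [hpb]
      simp
    have hbb := hform b hb b hb
    have hyy := hform y hy y hy
    have hyb' := hform y hy b hb
    rw [hpb] at hbb hyb'
    simp only [Prod.fst_zero, Prod.snd_zero, map_zero, mul_zero, zero_add,
      add_zero] at hbb hyb'
    have hsum : ∑ t : K, vv σ ω g (y + t • b) = 0 := by
      have hval : ∀ t : K, vv σ ω g (y + t • b) = if (p0 y).2 ≠ 0 then
          (if σ ((p0 y).1 / (p0 y).2) = -((p0 y).1 / (p0 y).2) then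
            g ((p0 y).2⁻¹ • (pj y + t • pj b)) else 0)
          else if (p0 y).1 ≠ 0 then g (((ω - σ ω) * (p0 y).1⁻¹) • (pj y + t • pj b)) else 0 := by
        intro t
        unfold vv
        rw [map_add, map_smul, map_add, map_smul, hpb, smul_zero, add_zero]
      rw [sum_congr rfl (fun t _ => hval t)]
      by_cases h3 : (p0 y).2 = 0
      · by_cases h4 : (p0 y).1 = 0
        · simp [h3, h4]
        · rw [h3, map_zero, mul_zero, zero_mul, add_zero, zero_add] at hyy
          simp only [ne_eq, h3, not_true_eq_false, if_false, h4, not_false_eq_true, if_true]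
          exact aff_sum σ h2 ω hω hβ hjb hbb hyy hyb' (mul_ne_zero ht (inv_ne_zero h4))
      · by_cases h4 : σ ((p0 y).1 / (p0 y).2) = -((p0 y).1 / (p0 y).2)
        · have h5 : (p0 y).1 * σ (p0 y).2 + (p0 y).2 * σ (p0 y).1 = 0 := by
            have e1 : (p0 y).1 = (p0 y).1 / (p0 y).2 * (p0 y).2 := by field_simp
            rw [e1, map_mul, h4]
            ring
          rw [h5, zero_add] at hyy
          simp only [ne_eq, h3, not_false_eq_true, if_true, h4]
          exact aff_sum σ h2 ω hω hβ hjb hbb hyy hyb' (inv_ne_zero h3)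
        · refine sum_eq_zero (fun t _ => ?_)
          rw [if_pos h3, if_neg h4]
    rw [hvb, hsum, add_zero, mul_zero]

theorem good_ne [Fintype K] [Fintype (F0 σ)] (h1 : ∃ t, σ t ≠ t) {β : Vec (F0 σ) 2 → ℤ}
    (hβ : Good (EK σ h2 ω hω) β) : ∃ x : Vec K 2, x ≠ 0 ∧ Sing (.unitaryOdd σ h2 h1) x ∧
    vv σ ω (fun z => β (Θ σ h2 ω hω z)) x ≠ 0 := by
  have ht := tau_ne σ ω hω
  obtain ⟨x', -, hs', hn'⟩ := hβ.ne
  obtain ⟨z, rfl⟩ := Θ_surj σ h2 ω hω x'
  rw [Sing_Θ] at hs'
  refine ⟨(![ω - σ ω, z.1], ![0, z.2.1], (z.2.2, 0)), ?_, ?_, ?_⟩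
  · intro h
    have h3 : ω - σ ω = 0 := congrFun (congrArg Prod.fst h) 0
    exact ht h3
  · unfold Sing tv
    rw [Fin.sum_univ_two]
    refine ⟨rfl, ?_⟩
    change ((ω - σ ω) * σ 0 + z.1 * σ z.2.1) + σ ((ω - σ ω) * σ 0 + z.1 * σ z.2.1) +
      z.2.2 * σ z.2.2 = 0
    simp only [map_mul, map_zero, mul_zero, zero_add, h2]
    unfold hh at hs'
    linear_combination hs'
  · have e1 : (p0 ((![ω - σ ω, z.1], ![0, z.2.1], (z.2.2, 0)) : Vec K 2)).1 = ω - σ ω := rfl
    have e2 : (p0 ((![ω - σ ω, z.1], ![0, z.2.1], (z.2.2, 0)) : Vec K 2)).2 = 0 := rfl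
    have e3 : pj ((![ω - σ ω, z.1], ![0, z.2.1], (z.2.2, 0)) : Vec K 2) = z := rfl
    unfold vv
    rw [e1, e2, e3, mul_inv_cancel₀ ht, one_smul]
    simpa [ht] using hn'

end

end Pool.Agent.Lib.MP_e6ed9e_al.Polar.E47

namespace Pool.Agent.Lib.MP_e6ed9e_al.Polar

open Finset SpreadPerm Module E47
open scoped Classical

/-- BASE E. -/
theorem stE (hS : StSum) : StE := by
  intro hell K _ _ σ h2 h1
  obtain ⟨ω, hω⟩ := h1
  have : Fintype (F0 σ) := Fintype.ofFinite _
  obtain ⟨β, hβ⟩ := hell (F0 σ) (aF σ h2 ω) (bF σ h2 ω) (noroot σ h2 ω hω)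
  refine ⟨vv σ ω (fun z => β (Θ σ h2 ω hω z)), ?_, ?_, ?_, ?_, ?_⟩
  · simp [vv]
  · exact fun c x hc => vv_smul σ ω _ c x hc
  · exact vv_ge σ ω _ (fun z => hβ.ge _)
  · exact good_ne σ h2 ω hω _ hβ
  · exact fun W hW hr => good_sum σ h2 ω hω hS _ hβ W hW hr

end Pool.Agent.Lib.MP_e6ed9e_al.Polar
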