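import Mathlib
import Pool.Agent.Lib.MP_e6ed9e_al.Polar.Defs

/-! # FINAL of the room POLAR -/

namespace Pool.Agent.Lib.MP_e6ed9e_al.Polar

open Finset SpreadPerm Module

/-- A good function in rank two for every type. -/
theorem base_all (hA : StA) (hB : StB) (hC : StC) (hD : StD) (hE : StE)
    (K : Type) [Field K] [Fintype K] (X : Kind K) : ∃ v : Vec K 2 → ℤ, Good X v := by
  have hell : ∀ (F : Type) [Field F] [Fintype F] (a b : F) h,
      ∃ v : Vec F 2 → ℤ, Good (Kind.elliptic a b h : Kind F) v := by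
    intro F _ _ a b h
    by_cases h2 : (2 : F) = 0
    · exact hD F h2 a b h
    · exact hC F h2 a b h
  cases X with
  | symplectic => exact hA K _ (Or.inl rfl)
  | hyperbolic => exact hA K _ (Or.inr (Or.inl rfl))
  | parabolic => exact hB K
  | elliptic a b h => exact hell K a b h
  | unitaryEven σ h2 h1 => exact hA K _ (Or.inr (Or.inr ⟨σ, h2, h1, rfl⟩))
  | unitaryOdd σ h2 h1 => exact hE hell K σ h2 h1

theorem good_all (hL : StLift) (hA : StA) (hB : StB) (hC : StC) (hD : StD) (hE : StE)
    (K : Type) [Field K] [Fintype K] (X : Kind K) (r : ℕ) (hr : 2 ≤ r) :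
    ∃ v : Vec K r → ℤ, Good X v := by
  induction r, hr using Nat.le_induction with
  | base => exact base_all hA hB hC hD hE K X
  | succ r _ ih =>
    obtain ⟨v, hv⟩ := ih
    exact hL K X r v hv

theorem final (hL : StLift) (hA : StA) (hB : StB) (hC : StC) (hD : StD) (hE : StE)
    (hP : StPass) : StFinal := by
  intro K _ _ X r hr G _ _ _ h
  exact hP K X r hr (good_all hL hA hB hC hD hE K X r hr) G h

end Pool.Agent.Lib.MP_e6ed9e_al.Polar
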