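import Mathlib
import Pool.Agent.Lib.MP_e6ed9e_al.Polar.Basic

/-!
LIFT: from rank `r` to rank `r + 1`.
-/

namespace Pool.Agent.Lib.MP_e6ed9e_al.Polar

open Finset SpreadPerm Module
open scoped Classical

noncomputable section

variable {K : Type} [Field K]

lemma sum_map96 [Fintype K] {V V' : Type} [AddCommGroup V] [Module K V] [Fintype V]
    [AddCommGroup V'] [Module K V'] [Fintype V'] (f : V →ₗ[K] V') (W : Submodule K V)
    (g : V' → ℤ) :
    ∑ x ∈ univ.filter (fun x => x ∈ W), g (f x) =
      ((univ.filter (fun x => x ∈ W ⊓ LinearMap.ker f)).card : ℤ) *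
        ∑ y ∈ univ.filter (fun y => y ∈ W.map f), g y := by
  rw [← Finset.sum_fiberwise_of_maps_to (s := univ.filter (fun x => x ∈ W))
    (t := univ.filter (fun y => y ∈ W.map f)) (g := f)
    (fun x hx => by
      simp only [Finset.mem_filter, Finset.mem_univ, true_and] at hx ⊢
      exact Submodule.mem_map_of_mem hx), Finset.mul_sum]
  refine Finset.sum_congr rfl fun y hy => ?_
  simp only [Finset.mem_filter, Finset.mem_univ, true_and] at hy
  obtain ⟨x0, hx0, rfl⟩ := hy
  have h1 : ∀ x ∈ (univ.filter (fun x => x ∈ W)).filter (fun x => f x = f x0), g (f x) = g (f x0) :=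
    fun x hx => by rw [(Finset.mem_filter.1 hx).2]
  rw [Finset.sum_congr rfl h1, Finset.sum_const, nsmul_eq_mul]
  congr 2
  refine Finset.card_bij' (fun x _ => x - x0) (fun x _ => x + x0) ?_ ?_ ?_ ?_
  · intro x hx
    simp only [Finset.mem_filter, Finset.mem_univ, true_and, Submodule.mem_inf,
      LinearMap.mem_ker] at hx ⊢
    exact ⟨W.sub_mem hx.1 hx0, by rw [map_sub, hx.2, sub_self]⟩
  · intro x hx
    simp only [Finset.mem_filter, Finset.mem_univ, true_and, Submodule.mem_inf,
      LinearMap.mem_ker] at hx ⊢
    exact ⟨W.add_mem hx.1 hx0, by rw [map_add, hx.2, zero_add]⟩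
  · intro x _; simp
  · intro x _; simp

lemma pr_apply96 {r : ℕ} (x : Vec K (r + 1)) :
    pr x = ((fun i => x.1 i.castSucc, fun i => x.2.1 i.castSucc, x.2.2) : Vec K r) := rfl

lemma pr_eL96 {r : ℕ} : pr (eL : Vec K (r + 1)) = 0 := by
  rw [pr_apply96]
  refine Prod.ext ?_ rfl
  funext i
  show (Pi.single (Fin.last r) (1 : K) : Fin (r + 1) → K) i.castSucc = 0
  exact Pi.single_eq_of_ne (Fin.castSucc_lt_last i).ne _

/-- LIFT -/
theorem stLift96 (hW : StWitt) : StLift := by
  intro K _ _ X r v hv
  refine ⟨fun x => if wL x = 0 then v (pr x) else 0, ?_, ?_, ?_, ?_, ?_⟩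
  · simp only [map_zero, if_true]
    exact hv.zero
  · intro c x hc
    by_cases h : wL x = 0
    · rw [if_pos h, if_pos (by rw [map_smul, h, smul_zero]), map_smul, hv.smul c _ hc]
    · rw [if_neg h, if_neg (by rw [map_smul, smul_eq_mul]; exact mul_ne_zero hc h)]
  · intro x
    split_ifs
    · exact hv.ge _
    · norm_num
  · obtain ⟨x, hx0, hx, hvx⟩ := hv.ne
    have h1 : pr ((Fin.snoc x.1 0, Fin.snoc x.2.1 0, x.2.2) : Vec K (r + 1)) = x := by
      rw [pr_apply96]
      refine Prod.ext ?_ (Prod.ext ?_ rfl)
      · funext i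
        exact Fin.snoc_castSucc (α := fun _ => K) 0 x.1 i
      · funext i
        exact Fin.snoc_castSucc (α := fun _ => K) 0 x.2.1 i
    have h2 : wL ((Fin.snoc x.1 0, Fin.snoc x.2.1 0, x.2.2) : Vec K (r + 1)) = 0 := by
      simp [wL]
    refine ⟨(Fin.snoc x.1 0, Fin.snoc x.2.1 0, x.2.2), ?_, ?_, ?_⟩
    · intro h
      rw [h, map_zero] at h1
      exact hx0 h1.symm
    · rw [Sing_pr X h2, h1]; exact hx
    · rw [if_pos h2, h1]; exact hvx
  · intro W hts hfr
    set W' : Submodule K (Vec K (r + 1)) := W ⊓ LinearMap.ker wL with hW'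
    have h0 : ∀ x ∈ W', wL x = 0 := fun x hx => hx.2
    have hs : ∑ x ∈ univ.filter (fun x => x ∈ W), (if wL x = 0 then v (pr x) else 0) =
        ∑ x ∈ univ.filter (fun x => x ∈ W'), v (pr x) := by
      rw [← Finset.sum_filter, Finset.filter_filter]
      refine Finset.sum_congr ?_ fun _ _ => rfl
      ext x
      simp only [Finset.mem_filter, Finset.mem_univ, true_and, hW', Submodule.mem_inf,
        LinearMap.mem_ker]
    rw [hs, sum_map96 pr W' v]
    -- the image
    have hts' : TS X (W'.map pr) := by
      constructor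
      · rintro _ ⟨x, hx, rfl⟩
        exact (Sing_pr X (h0 x hx)).1 (hts.1 x hx.1)
      · rintro _ ⟨x, hx, rfl⟩ _ ⟨y, hy, rfl⟩
        rw [← form_pr X (h0 x hx) (h0 y hy)]
        exact hts.2 x hx.1 y hy.1
    have hrn := LinearMap.finrank_range_add_finrank_ker ((pr : Vec K (r + 1) →ₗ[K] Vec K r).domRestrict W')
    rw [LinearMap.range_domRestrict] at hrn
    have hfin : finrank K (W'.map pr) = r := by
      by_cases he : (eL : Vec K (r + 1)) ∈ W
      · have hWW : W' = W := by
          apply le_antisymm inf_le_left
          intro x hx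
          refine ⟨hx, ?_⟩
          have := hts.2 _ he x hx
          rw [form_eL] at this
          have h1 := congrArg X.sig this
          rw [sig_sig, map_zero] at h1
          exact h1
        have hk : finrank K (LinearMap.ker ((pr : Vec K (r + 1) →ₗ[K] Vec K r).domRestrict W')) ≤ 1 := by
          apply finrank_le_one ⟨⟨eL, by rw [hWW]; exact he⟩, by
            rw [LinearMap.mem_ker, LinearMap.domRestrict_apply]
            exact pr_eL96⟩
          rintro ⟨⟨x, hx⟩, hx'⟩
          refine ⟨uL x, ?_⟩
          apply Subtype.ext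
          apply Subtype.ext
          rw [LinearMap.mem_ker, LinearMap.domRestrict_apply] at hx'
          exact (pr_eq_zero hx' (h0 x hx)).symm
        have := hW K X r _ hts'
        rw [hWW] at hrn this ⊢
        rw [hWW] at hk
        omega
      · have hk : finrank K (LinearMap.ker ((pr : Vec K (r + 1) →ₗ[K] Vec K r).domRestrict W')) = 0 := by
          rw [Submodule.finrank_eq_zero, LinearMap.ker_eq_bot']
          rintro ⟨x, hx⟩ hx'
          rw [LinearMap.domRestrict_apply] at hx'
          have h3 : x = uL x • eL := pr_eq_zero hx' (h0 x hx)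
          have h4 : uL x = 0 := by
            by_contra hne
            apply he
            have h5 : (uL x)⁻¹ • (uL x • (eL : Vec K (r + 1))) = eL := by
              rw [smul_smul, inv_mul_cancel₀ hne, one_smul]
            rw [← h5, ← h3]
            exact W.smul_mem _ hx.1
          apply Subtype.ext
          rw [h4, zero_smul] at h3
          exact h3
        have h1 := hW K X r _ hts'
        have h2 : finrank K W ≤ finrank K W' + 1 := by
          have h3 := LinearMap.finrank_range_add_finrank_ker
            ((wL : Vec K (r + 1) →ₗ[K] K).domRestrict W)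
          have h4 : finrank K (LinearMap.range ((wL : Vec K (r + 1) →ₗ[K] K).domRestrict W)) ≤ 1 := by
            have := Submodule.finrank_le
              (LinearMap.range ((wL : Vec K (r + 1) →ₗ[K] K).domRestrict W))
            rwa [Module.finrank_self] at this
          have h5 : finrank K (LinearMap.ker ((wL : Vec K (r + 1) →ₗ[K] K).domRestrict W)) =
              finrank K W' := by
            have h6 : W' = (LinearMap.ker ((wL : Vec K (r + 1) →ₗ[K] K).domRestrict W)).map
                W.subtype := by
              rw [LinearMap.ker_domRestrict, Submodule.map_comap_subtype]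
            rw [h6]
            exact (LinearEquiv.finrank_eq (Submodule.equivMapOfInjective W.subtype
              (Submodule.injective_subtype W) _))
          omega
        omega
    rw [hv.sum _ hts' hfin, mul_zero]

end

end Pool.Agent.Lib.MP_e6ed9e_al.Polar
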