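import Mathlib
import Pool.Agent.Lib.MP_e6ed9e_al.Polar.Basic

/-! # The sum over a totally singular plane -/

namespace Pool.Agent.Lib.MP_e6ed9e_al.Polar

open Finset SpreadPerm Module
open scoped Classical

theorem stSum30 : StSum := by
  intro K _ _ r v W x y h0 hs hW hx hy hli
  have hle : Submodule.span K (Set.range ![x, y]) ≤ W := by
    rw [Submodule.span_le]
    rintro z ⟨i, rfl⟩
    fin_cases i
    · exact hx
    · exact hy
  have hspan : Submodule.span K (Set.range ![x, y]) = W := by
    apply Submodule.eq_of_le_of_finrank_eq hle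
    rw [finrank_span_eq_card hli, hW]
    simp
  have hmem : ∀ z, z ∈ W ↔ ∃ a b : K, a • x + b • y = z := by
    intro z
    rw [← hspan, Matrix.range_cons, Matrix.range_cons, Matrix.range_empty, Set.union_empty,
      Set.singleton_union, Submodule.mem_span_pair]
  have hinj : Function.Injective (fun p : K × K => p.2 • x + p.1 • y) := by
    intro p p' h
    have h1 : (p.2 - p'.2) • x + (p.1 - p'.1) • y = 0 := by
      have h2 : p.2 • x + p.1 • y = p'.2 • x + p'.1 • y := h
      rw [sub_smul, sub_smul]
      rw [show p.2 • x - p'.2 • x + (p.1 • y - p'.1 • y) =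
        (p.2 • x + p.1 • y) - (p'.2 • x + p'.1 • y) by abel, h2, sub_self]
    obtain ⟨h3, h4⟩ := LinearIndependent.pair_iff.1 hli _ _ h1
    exact Prod.ext (sub_eq_zero.1 h4) (sub_eq_zero.1 h3)
  have himg : univ.filter (fun z => z ∈ W) =
      (univ : Finset (K × K)).image (fun p : K × K => p.2 • x + p.1 • y) := by
    ext z
    simp only [mem_filter, mem_univ, true_and, mem_image, Prod.exists]
    rw [hmem]
    constructor
    · rintro ⟨a, b, h⟩
      exact ⟨b, a, h⟩
    · rintro ⟨b, a, h⟩
      exact ⟨a, b, h⟩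
  rw [himg, sum_image (fun p _ p' _ h => hinj h), Fintype.sum_prod_type]
  have hrow : ∀ t : K, t ≠ 0 → ∑ s : K, v (s • x + t • y) = ∑ s : K, v (y + s • x) := by
    intro t ht
    rw [← Equiv.sum_comp (Equiv.mulLeft₀ t ht) (fun s => v (s • x + t • y))]
    refine sum_congr rfl (fun s _ => ?_)
    rw [← hs t (y + s • x) ht]
    congr 1
    rw [smul_add, smul_smul, add_comm]
    rfl
  have hrow0 : ∑ s : K, v (s • x + (0 : K) • y) = ((Fintype.card K : ℤ) - 1) * v x := by
    have h1 : ∀ s : K, v (s • x + (0 : K) • y) = if s = 0 then 0 else v x := by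
      intro s
      split_ifs with h
      · rw [h, zero_smul, zero_smul, add_zero, h0]
      · rw [zero_smul, add_zero, hs s x h]
    rw [sum_congr rfl (fun s _ => h1 s), sum_ite, sum_const_zero, zero_add, sum_const,
      filter_ne', card_erase_of_mem (mem_univ _), card_univ, nsmul_eq_mul, Nat.cast_sub
        Fintype.card_pos, Nat.cast_one]
  have hcol : ∑ t : K, ∑ s : K, v (s • x + t • y) =
      ((Fintype.card K : ℤ) - 1) * v x + ((Fintype.card K : ℤ) - 1) * ∑ s : K, v (y + s • x) := by
    rw [← add_sum_erase univ _ (mem_univ (0 : K)), hrow0]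
    congr 1
    rw [sum_congr rfl (fun t ht => hrow t (ne_of_mem_erase ht)), sum_const,
      card_erase_of_mem (mem_univ _), card_univ, nsmul_eq_mul, Nat.cast_sub
        Fintype.card_pos, Nat.cast_one]
  rw [mul_add]
  exact hcol

end Pool.Agent.Lib.MP_e6ed9e_al.Polar
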