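import Pool.Agent.Lib.MP_e6ed9e_al.Polar.Defs

/-!
Row WITT: a totally singular subspace has dimension at most `r`.
-/

set_option autoImplicit false

namespace Pool.Agent.Lib.MP_e6ed9e_al.Polar

open Finset Module

variable {K : Type} [Field K]

/-- Forget the last hyperbolic plane. -/
def pi13 (K : Type) [Field K] (r : ℕ) : Vec K (r + 1) →ₗ[K] Vec K r where
  toFun x := (fun i => x.1 i.castSucc, fun i => x.2.1 i.castSucc, x.2.2)
  map_add' _ _ := rfl
  map_smul' _ _ := rfl

/-- The last coordinate `w`. -/
def wl13 (K : Type) [Field K] (r : ℕ) : Vec K (r + 1) →ₗ[K] K where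
  toFun x := x.2.1 (Fin.last r)
  map_add' _ _ := rfl
  map_smul' _ _ := rfl

/-- The last coordinate `u`. -/
def ul13 (K : Type) [Field K] (r : ℕ) : Vec K (r + 1) →ₗ[K] K where
  toFun x := x.1 (Fin.last r)
  map_add' _ _ := rfl
  map_smul' _ _ := rfl

/-- The vector `e_l`. -/
def el13 (K : Type) [Field K] (r : ℕ) : Vec K (r + 1) := (Pi.single (Fin.last r) 1, 0, 0, 0)

lemma tv_pi13 (X : Kind K) {r : ℕ} (x : Vec K (r + 1)) (hx : wl13 K r x = 0) :
    tv X (pi13 K r x) = tv X x := by
  have h : x.2.1 (Fin.last r) = 0 := hx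
  unfold tv
  rw [Fin.sum_univ_castSucc, h, map_zero, mul_zero, add_zero]
  rfl

lemma sing_pi13 (X : Kind K) {r : ℕ} (x : Vec K (r + 1)) (hx : wl13 K r x = 0) :
    Sing X (pi13 K r x) ↔ Sing X x := by
  unfold Sing
  rw [tv_pi13 X x hx]
  rfl

lemma form_pi13 (X : Kind K) {r : ℕ} (x y : Vec K (r + 1)) (hx : wl13 K r x = 0)
    (hy : wl13 K r y = 0) : form X (pi13 K r x) (pi13 K r y) = form X x y := by
  have h : x.2.1 (Fin.last r) = 0 := hx
  have h' : y.2.1 (Fin.last r) = 0 := hy
  unfold form
  rw [Fin.sum_univ_castSucc, h, h', map_zero, mul_zero, zero_mul, mul_zero, add_zero, add_zero]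
  rfl

lemma ts_map13 (X : Kind K) {r : ℕ} {W : Submodule K (Vec K (r + 1))} (hW : TS X W)
    (h : ∀ x ∈ W, wl13 K r x = 0) : TS X (W.map (pi13 K r)) := by
  constructor
  · rintro _ ⟨x, hx, rfl⟩
    exact (sing_pi13 X x (h x hx)).mpr (hW.1 x hx)
  · rintro _ ⟨x, hx, rfl⟩ _ ⟨y, hy, rfl⟩
    rw [form_pi13 X x y (h x hx) (h y hy)]
    exact hW.2 x hx y hy

lemma form_el13 (X : Kind K) {r : ℕ} (x : Vec K (r + 1)) :
    form X (el13 K r) x = X.sig (wl13 K r x) := by
  unfold form
  rw [Finset.sum_eq_single (Fin.last r)]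
  · have hE : X.bE (el13 K r).2.2 x.2.2 = 0 := by
      cases X <;> simp [Kind.bE, el13]
    rw [hE]
    simp [el13, wl13]
  · intro i _ hi
    simp [el13, Pi.single_eq_of_ne hi]
  · intro h
    exact absurd (Finset.mem_univ _) h

/-- Vectors in the kernel of both projections. -/
lemma eq_smul13 {r : ℕ} (x : Vec K (r + 1)) (h1 : pi13 K r x = 0) (h2 : wl13 K r x = 0) :
    x = ul13 K r x • el13 K r := by
  have hu : ∀ i : Fin r, x.1 i.castSucc = 0 := fun i => congrFun (congrArg Prod.fst h1) i
  have hw : ∀ i : Fin r, x.2.1 i.castSucc = 0 := fun i =>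
    congrFun (congrArg (fun z => z.2.1) h1) i
  have he : x.2.2 = 0 := congrArg (fun z => z.2.2) h1
  have h2' : x.2.1 (Fin.last r) = 0 := h2
  refine Prod.ext ?_ (Prod.ext ?_ ?_)
  · funext i
    refine Fin.lastCases ?_ (fun i => ?_) i
    · simp [el13, ul13]
    · rw [hu i]
      simp [el13]
  · funext i
    refine Fin.lastCases ?_ (fun i => ?_) i
    · rw [h2']; simp [el13]
    · rw [hw i]; simp [el13]
  · rw [he]
    simp only [el13, Prod.smul_snd]
    exact (smul_zero _).symm

lemma witt_zero13 (X : Kind K) (x : Vec K 0) (hx : Sing X x) : x = 0 := by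
  obtain ⟨u, w, e, f⟩ := x
  have hu : u = 0 := Subsingleton.elim _ _
  have hw : w = 0 := Subsingleton.elim _ _
  subst hu hw
  have key : e = 0 ∧ f = 0 := by
    cases X with
    | symplectic => simpa [Sing, Kind.sE] using hx
    | hyperbolic => simpa [Sing, Kind.sE, tv] using hx
    | parabolic => 
      have h : f = 0 ∧ e = 0 := by simpa [Sing, Kind.sE, tv] using hx
      exact ⟨h.2, h.1⟩
    | elliptic a b h =>
      have hq : e ^ 2 + b * (e * f) + a * f ^ 2 = 0 := by simpa [Sing, Kind.sE, tv] using hx
      have hf : f = 0 := by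
        by_contra hf
        apply h (e / f)
        field_simp
        linear_combination hq
      subst hf
      refine ⟨?_, rfl⟩
      have : e ^ 2 = 0 := by linear_combination hq
      exact (pow_eq_zero_iff two_ne_zero).mp this
    | unitaryEven σ h2 h1 => 
      have h : (e, f) = 0 := by simpa [Sing, Kind.sE, tv] using hx.1
      exact ⟨congrArg Prod.fst h, congrArg Prod.snd h⟩
    | unitaryOdd σ h2 h1 =>
      have h : f = 0 ∧ (e = 0 ∨ σ e = 0) := by simpa [Sing, Kind.sE, tv] using hx
      refine ⟨?_, h.1⟩
      rcases h.2 with h | h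
      · exact h
      · exact (map_eq_zero σ).mp h
  rw [key.1, key.2]
  rfl

theorem stWitt13 : StWitt := by
  intro K _ _ X r
  induction r with
  | zero =>
    intro W hW
    have : W = ⊥ := by
      rw [eq_bot_iff]
      intro x hx
      rw [Submodule.mem_bot]
      exact witt_zero13 X x (hW.1 x hx)
    rw [this]
    simp
  | succ r ih =>
    intro W hW
    by_cases he : el13 K r ∈ W
    · have hL : ∀ x ∈ W, wl13 K r x = 0 := by
        intro x hx
        have h := hW.2 _ he x hx
        rw [form_el13] at h
        exact (map_eq_zero X.sig).mp h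
      have h1 := ih _ (ts_map13 X hW hL)
      have h2 := LinearMap.finrank_range_add_finrank_ker ((pi13 K r).domRestrict W)
      rw [LinearMap.range_domRestrict] at h2
      have h3 : finrank K (LinearMap.ker ((pi13 K r).domRestrict W)) ≤ 1 := by
        let g : LinearMap.ker ((pi13 K r).domRestrict W) →ₗ[K] K :=
          (ul13 K r) ∘ₗ W.subtype ∘ₗ (LinearMap.ker ((pi13 K r).domRestrict W)).subtype
        have hg : Function.Injective g := by
          rw [injective_iff_map_eq_zero]
          rintro ⟨⟨x, hx⟩, hx2⟩ hx3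
          have e1 : pi13 K r x = 0 := hx2
          have e2 : ul13 K r x = 0 := hx3
          have e3 := eq_smul13 x e1 (hL x hx)
          rw [e2, zero_smul] at e3
          apply Subtype.ext
          apply Subtype.ext
          exact e3
        calc finrank K (LinearMap.ker ((pi13 K r).domRestrict W)) ≤ finrank K K :=
              LinearMap.finrank_le_finrank_of_injective hg
          _ = 1 := finrank_self K
      omega
    · have h2 := LinearMap.finrank_range_add_finrank_ker ((wl13 K r).domRestrict W)
      have h3 : finrank K (LinearMap.range ((wl13 K r).domRestrict W)) ≤ 1 := by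
        calc finrank K (LinearMap.range ((wl13 K r).domRestrict W)) ≤ finrank K K :=
              Submodule.finrank_le _
          _ = 1 := finrank_self K
      let W' : Submodule K (Vec K (r + 1)) := W ⊓ LinearMap.ker (wl13 K r)
      have hW' : TS X W' := ⟨fun x hx => hW.1 x hx.1, fun x hx y hy => hW.2 x hx.1 y hy.1⟩
      have h4 := ih _ (ts_map13 X hW' (fun x hx => hx.2))
      have h5 : finrank K (LinearMap.ker ((wl13 K r).domRestrict W)) ≤
          finrank K (W'.map (pi13 K r)) := by
        let g : LinearMap.ker ((wl13 K r).domRestrict W) →ₗ[K] (W'.map (pi13 K r)) :=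
          LinearMap.codRestrict _ ((pi13 K r) ∘ₗ W.subtype ∘ₗ
            (LinearMap.ker ((wl13 K r).domRestrict W)).subtype) (by
              rintro ⟨⟨x, hx⟩, hx2⟩
              exact ⟨x, ⟨hx, hx2⟩, rfl⟩)
        have hg : Function.Injective g := by
          rw [injective_iff_map_eq_zero]
          rintro ⟨⟨x, hx⟩, hx2⟩ hx3
          have e1 : pi13 K r x = 0 := congrArg Subtype.val hx3
          have e3 := eq_smul13 x e1 hx2
          have e2 : ul13 K r x = 0 := by
            by_contra hne
            apply he
            have h6 : ul13 K r x • el13 K r ∈ W := e3 ▸ hx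
            have h7 := W.smul_mem (ul13 K r x)⁻¹ h6
            rwa [smul_smul, inv_mul_cancel₀ hne, one_smul] at h7
          rw [e2, zero_smul] at e3
          apply Subtype.ext
          apply Subtype.ext
          exact e3
        exact LinearMap.finrank_le_finrank_of_injective hg
      omega

end Pool.Agent.Lib.MP_e6ed9e_al.Polar
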