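import Mathlib
import Pool.Agent.Lib.MP_e6ed9e_al.Polar.Final
import Pool.Agent.Lib.MP_e6ed9e_al.Polar.Sum30
import Pool.Agent.Lib.MP_e6ed9e_al.Polar.BaseA30
import Pool.Agent.Lib.MP_e6ed9e_al.Polar.B67
import Pool.Agent.Lib.MP_e6ed9e_al.Polar.C67
import Pool.Agent.Lib.MP_e6ed9e_al.Polar.BaseD88
import Pool.Agent.Lib.MP_e6ed9e_al.Polar.E47
import Pool.Agent.Lib.MP_e6ed9e_al.Polar.Witt13
import Pool.Agent.Lib.MP_e6ed9e_al.Polar.Lift96
import Pool.Agent.Lib.MP_e6ed9e_al.Polar.Pass96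
import Pool.Agent.Lib.MP_e6ed9e_al.Polar.Comb88

/-! # The theorem for the six models, without hypotheses -/

namespace Pool.Agent.Lib.MP_e6ed9e_al.Polar

theorem stFinal : StFinal :=
  final (stLift96 stWitt13) stA30 (B67.stB67 stWitt13) (C67.stC stWitt13) (stD88 stSum30)
    (stE stSum30) (stPass96 stWitt13 stComb88)

end Pool.Agent.Lib.MP_e6ed9e_al.Polar
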