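import Mathlib
import Pool.Agent.Lib.MP_e6ed9e_al.Polar.Defs
import Pool.Agent.Lib.MP_e6ed9e_al.PS.Defs

/-! # The coordinate-free statement of the room POLAR (second layer) -/

namespace Pool.Agent.Lib.MP_e6ed9e_al.Polar

open Module SpreadPerm

/-- The geometry `g` is the geometry of one of the six kinds. -/
def Emb (F : Type) {V : Type} [Field F] [AddCommGroup V] [Module F V] (g : PolarSp.Geo V) : Prop :=
  ∃ (X : Kind F) (r : ℕ) (φ : V →ₗ[F] Vec F r), Function.Injective φ ∧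
    (∀ x, g.S x ↔ Sing X (φ x)) ∧
    (∀ x y, g.S x → g.S y → (g.P x y ↔ form X (φ x) (φ y) = 0)) ∧
    ∀ z, Sing X z → ∃ x, φ x = z

/-- EMB A -/
def StEmbA : Prop := ∀ (F V : Type) [Field F] [Finite F] [AddCommGroup V] [Module F V]
  [FiniteDimensional F V] (B : V →ₗ[F] V →ₗ[F] F), (∀ x, B x x = 0) →
  (∀ x, (∀ y, B x y = 0) → x = 0) → Emb F (PolarSp.altGeo B)

/-- EMB Q -/
def StEmbQ : Prop := ∀ (F V : Type) [Field F] [Finite F] [AddCommGroup V] [Module F V]
  [FiniteDimensional F V] (Q : QuadraticForm F V),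
  (∀ x, Q x = 0 → (∀ y, QuadraticMap.polar Q x y = 0) → x = 0) → Emb F (PolarSp.quadGeo Q)

/-- EMB H -/
def StEmbH : Prop := ∀ (F V : Type) [Field F] [Finite F] [AddCommGroup V] [Module F V]
  [FiniteDimensional F V] (σ : F →+* F) (_ : ∀ a, σ (σ a) = a) (_ : ∃ a, σ a ≠ a)
  (h : V →ₗ[F] V →ₛₗ[σ] F), (∀ x y, h y x = σ (h x y)) →
  (∀ x, (∀ y, h x y = 0) → x = 0) → Emb F (PolarSp.hermGeo h)

/-- BRIDGE: from the models to the coordinate-free statement. -/
def StBridge : Prop := StWitt → StEmbA → StEmbQ → StEmbH → StFinal → PolarSp.StMain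

end Pool.Agent.Lib.MP_e6ed9e_al.Polar
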