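import Mathlib
import Pool.Agent.Lib.MP_e6ed9e_al.Polar.Basic
import Pool.Agent.Lib.MP_e6ed9e_al.Polar.FreeDefs

/-! # BRIDGE of the room POLAR -/

namespace Pool.Agent.Lib.MP_e6ed9e_al.Polar

open Finset SpreadPerm Module

/-- Non-spreading is invariant under isomorphism of actions. -/
lemma nonSpreading_congr {G Ω Ω' : Type} [Group G] [Fintype Ω] [Fintype Ω'] [MulAction G Ω]
    [MulAction G Ω'] (e : Ω ≃ Ω') (he : ∀ (g : G) x, e (g • x) = g • e x)
    (h : NonSpreading G Ω') : NonSpreading G Ω := by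
  obtain ⟨A, B, l, hl, hA, hB, hs, h01, hd⟩ := h
  have htriv : ∀ C : Ω' → ℕ, ¬ Triv C → ¬ Triv (fun x => C (e x)) := by
    rintro C hC (⟨c, hc⟩ | ⟨i, hi⟩)
    · refine hC (Or.inl ⟨c, fun j => ?_⟩)
      have := hc (e.symm j)
      simpa using this
    · refine hC (Or.inr ⟨e i, fun j => ?_⟩)
      have := hi (e.symm j)
      simp only [Equiv.apply_symm_apply] at this
      rw [this]
      constructor
      · rintro h
        rw [← h, Equiv.apply_symm_apply]
      · rintro rfl
        simp
  refine ⟨fun x => A (e x), fun x => B (e x), l, hl, htriv A hA, htriv B hB, fun g => ?_,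
    fun x => h01 (e x), ?_⟩
  · rw [← hs g]
    rw [← Equiv.sum_comp e (fun i => A i * B (g⁻¹ • i))]
    refine sum_congr rfl (fun x _ => ?_)
    show A (e x) * B (e (g⁻¹ • x)) = A (e x) * B (g⁻¹ • e x)
    rw [he]
  · rw [Fintype.card_congr e, Equiv.sum_comp e A]
    exact hd

section

variable {F V : Type} [Field F] [AddCommGroup V] [Module F V] (g : PolarSp.Geo V)
  {X : Kind F} {r : ℕ} (φ : V →ₗ[F] Vec F r)

/-- The point of the model. -/
def toPt (hinj : Function.Injective φ) (hS : ∀ x, g.S x ↔ Sing X (φ x)) (p : PolarSp.Pt F g) :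
    Pt X r :=
  ⟨Submodule.span F {φ p.1.rep},
    finrank_span_singleton (fun h => p.1.rep_nonzero (hinj (by rw [h, map_zero]))),
    fun x hx => by
      obtain ⟨c, rfl⟩ := Submodule.mem_span_singleton.1 hx
      exact Sing_smul X c ((hS _).1 p.2)⟩

lemma toPt_bijective (hinj : Function.Injective φ) (hS : ∀ x, g.S x ↔ Sing X (φ x))
    (hr : ∀ z, Sing X z → ∃ x, φ x = z) :
    Function.Bijective (toPt g φ hinj hS) := by
  constructor
  · intro p q hpq
    have h1 : Submodule.span F {φ p.1.rep} = Submodule.span F {φ q.1.rep} :=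
      congrArg Subtype.val hpq
    have h2 : φ p.1.rep ∈ Submodule.span F {φ q.1.rep} := by
      rw [← h1]; exact Submodule.mem_span_singleton_self _
    obtain ⟨c, hc⟩ := Submodule.mem_span_singleton.1 h2
    rw [← map_smul] at hc
    have h3 : c • q.1.rep = p.1.rep := hinj hc
    apply Subtype.ext
    rw [← p.1.mk_rep, ← q.1.mk_rep]
    exact (Projectivization.mk_eq_mk_iff' F _ _ _ _).2 ⟨c, h3⟩
  · intro P
    have hP : finrank F P.1 = 1 := P.2.1
    obtain ⟨⟨x, hx⟩, hx0, hspan⟩ := finrank_eq_one_iff'.1 hP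
    have hx0' : x ≠ 0 := fun h => hx0 (Subtype.ext h)
    obtain ⟨y, hy⟩ := hr x (P.2.2 x hx)
    have hy0 : y ≠ 0 := by
      rintro rfl
      exact hx0' (by rw [← hy, map_zero])
    obtain ⟨a, ha⟩ := Projectivization.exists_smul_eq_mk_rep F y hy0
    have hrep : g.S (Projectivization.mk F y hy0).rep := by
      rw [hS, ← ha]
      have : φ ((a : F) • y) = (a : F) • x := by rw [map_smul, hy]
      rw [show (a • y : V) = (a : F) • y from rfl, this]
      exact Sing_smul X _ (P.2.2 x hx)
    refine ⟨⟨Projectivization.mk F y hy0, hrep⟩, ?_⟩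
    apply Subtype.ext
    show Submodule.span F {φ (Projectivization.mk F y hy0).rep} = P.1
    rw [← ha, show (a • y : V) = (a : F) • y from rfl, map_smul, hy]
    apply le_antisymm
    · rw [Submodule.span_singleton_le_iff_mem]
      exact P.1.smul_mem _ hx
    · intro z hz
      obtain ⟨c, hc⟩ := hspan ⟨z, hz⟩
      have hc' : c • x = z := congrArg Subtype.val hc
      rw [Submodule.mem_span_singleton]
      refine ⟨c * (a : F)⁻¹, ?_⟩
      rw [smul_smul, mul_assoc, inv_mul_cancel₀ a.ne_zero, mul_one, hc']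

end

theorem bridge39 : StBridge := by
  intro hW hA hQ hH hF F V _ _ _ _ _ g hg hM G _ _ _ hG
  haveI : Fintype F := Fintype.ofFinite F
  haveI : FiniteDimensional F V := inferInstance
  have hemb : Emb F g := by
    cases hg with
    | alt B hB hn => exact hA F V B hB hn
    | quad Q hn => exact hQ F V Q hn
    | herm σ h2 h1 h hh hn => exact hH F V σ h2 h1 h hh hn
  obtain ⟨X, r, φ, hinj, hS, hP, hr⟩ := hemb
  obtain ⟨M, hTS, hfr⟩ := hM
  have hr2 : 2 ≤ r := by
    have h1 : TS X (M.map φ) := by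
      constructor
      · rintro _ ⟨x, hx, rfl⟩
        exact (hS x).1 (hTS x hx).1
      · rintro _ ⟨x, hx, rfl⟩ _ ⟨y, hy, rfl⟩
        exact (hP x y (hTS x hx).1 (hTS y hy).1).1 ((hTS x hx).2 y hy)
    have h2 := hW F X r _ h1
    rwa [← (Submodule.equivMapOfInjective φ hinj M).finrank_eq, hfr] at h2
  obtain ⟨e, he⟩ : ∃ e : PolarSp.Pt F g ≃ Pt X r, ∀ p, e p = toPt g φ hinj hS p :=
    ⟨Equiv.ofBijective _ (toPt_bijective g φ hinj hS hr), fun p => rfl⟩
  letI : MulAction G (Pt X r) := e.symm.mulAction G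
  have hsm : ∀ (a : G) (P : Pt X r), a • P = e (a • e.symm P) := fun a P => rfl
  haveI : MulAction.IsPretransitive G (Pt X r) := ⟨fun P P' => by
    obtain ⟨a, ha⟩ := MulAction.exists_smul_eq G (e.symm P) (e.symm P')
    exact ⟨a, by rw [hsm, ha, Equiv.apply_symm_apply]⟩⟩
  have hcol : ∀ p q : PolarSp.Pt F g, Col (e p) (e q) ↔ g.P p.1.rep q.1.rep := by
    intro p q
    rw [he, he, hP _ _ p.2 q.2]
    constructor
    · intro h
      exact h _ (Submodule.mem_span_singleton_self _) _ (Submodule.mem_span_singleton_self _)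
    · intro h x hx y hy
      obtain ⟨c, rfl⟩ := Submodule.mem_span_singleton.1 hx
      obtain ⟨d, rfl⟩ := Submodule.mem_span_singleton.1 hy
      rw [form_smul_left, form_smul_right, h]
      simp
  have key : NonSpreading G (Pt X r) := by
    refine hF F X r hr2 G ?_
    intro a P P' h
    rw [hsm, hsm, hcol]
    apply hG
    rw [← hcol, Equiv.apply_symm_apply, Equiv.apply_symm_apply]
    exact h
  refine nonSpreading_congr e (fun a x => ?_) key
  rw [hsm, Equiv.symm_apply_apply]

end Pool.Agent.Lib.MP_e6ed9e_al.Polar
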