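import Mathlib
import Pool.Agent.Lib.MP_e6ed9e_al.Polar.Basic
import Pool.Agent.Lib.MP_e6ed9e_al.Polar.FreeDefs
import Pool.Agent.Lib.MP_e6ed9e_al.Polar.Witt88

/-! # EMB A of the room POLAR -/

namespace Pool.Agent.Lib.MP_e6ed9e_al.Polar

open Finset SpreadPerm Module

/-- The structure of an alternating form. -/
def altForm {F V : Type} [Field F] [AddCommGroup V] [Module F V] (B : V →ₗ[F] V →ₗ[F] F)
    (hB : ∀ x, B x x = 0) : PForm F V where
  s := RingHom.id F
  s_s _ := rfl
  eps := -1
  f x y := B x y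
  Q _ := 0
  T := 0
  f_add_left x y z := by rw [map_add, LinearMap.add_apply]
  f_smul_left a x y := by rw [map_smul, LinearMap.smul_apply, smul_eq_mul]
  f_symm x y := by
    have h := hB (x + y)
    simp only [map_add, LinearMap.add_apply, hB, zero_add, add_zero] at h
    rw [RingHom.id_apply]
    linear_combination h
  Q_smul a x := by simp
  Q_add x y := by simp
  Q_T x := ⟨0, by simp⟩
  f_self x _ := hB x

theorem embA39 : StEmbA := by
  intro F V _ _ _ _ _ B hB hn
  let P : PForm F V := altForm B hB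
  have hPf : ∀ x y, P.f x y = B x y := fun _ _ => rfl
  have hPs : P.s = RingHom.id F := rfl
  have hPe : P.eps = -1 := rfl
  have hnd : P.Nondeg := fun x _ hy => hn x hy
  obtain ⟨r, E, φ, han, hQ, hf⟩ := P.decomp hnd
  have hE : ∀ z ∈ E, z = 0 := fun z hz => han z hz rfl
  refine ⟨Kind.symplectic, r, ?_⟩
  let ι : V →ₗ[F] Vec F r :=
    { toFun := fun x => ((φ.symm x).1, (φ.symm x).2.1, 0, 0)
      map_add' := by
        intro x y
        rw [map_add]
        simp
      map_smul' := by
        intro a x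
        rw [map_smul]
        simp }
  have hι : ∀ x, ι x = ((φ.symm x).1, (φ.symm x).2.1, 0, 0) := fun _ => rfl
  have hz0 : ∀ x : (Fin r → F) × (Fin r → F) × E, (x.2.2 : V) = 0 := fun x => hE _ x.2.2.2
  refine ⟨ι, ?_, ?_, ?_, ?_⟩
  · rw [← LinearMap.ker_eq_bot, LinearMap.ker_eq_bot']
    intro x hx
    rw [hι] at hx
    have e1 : φ.symm x = 0 := by
      refine Prod.ext (congrArg (fun z : Vec F r => z.1) hx)
        (Prod.ext (congrArg (fun z : Vec F r => z.2.1) hx) (Subtype.ext (hz0 _)))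
    rw [← φ.apply_symm_apply x, e1, map_zero]
  · intro x
    show True ↔ (((0 : F), (0 : F)) = 0)
    simp
  · intro x y _ _
    have e1 := hf (φ.symm x) (φ.symm y)
    rw [φ.apply_symm_apply, φ.apply_symm_apply, hPf, hPf, hz0, map_zero,
      LinearMap.zero_apply, add_zero] at e1
    show B x y = 0 ↔ _
    rw [e1]
    simp only [form, hι, Kind.sig, Kind.eps, Kind.bE, hPs, hPe, add_zero]
  · intro z hz
    have hz2 : z.2.2 = 0 := hz
    refine ⟨φ (z.1, z.2.1, 0), ?_⟩
    rw [hι, φ.symm_apply_apply]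
    exact Prod.ext rfl (Prod.ext rfl hz2.symm)

end Pool.Agent.Lib.MP_e6ed9e_al.Polar
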