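import Pool.Agent.Lib.MP_e6ed9e_al.Polar.FreeDefs
import Pool.Agent.Lib.MP_e6ed9e_al.Polar.Witt88

/-! # EMB Q: the geometry of a quadratic form is one of the models -/

namespace Pool.Agent.Lib.MP_e6ed9e_al.Polar

open Module SpreadPerm
open QuadraticMap (polar)

/-- The `PForm` of a quadratic form. -/
def pq1 {F V : Type} [Field F] [AddCommGroup V] [Module F V] (Q : QuadraticForm F V) :
    PForm F V where
  s := RingHom.id F
  s_s := fun _ => rfl
  eps := 1
  f := fun x y => polar Q x y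
  Q := fun x => Q x
  T := AddMonoidHom.id F
  f_add_left := fun x y z => QuadraticMap.polar_add_left Q x y z
  f_smul_left := fun a x y => by rw [QuadraticMap.polar_smul_left, smul_eq_mul]
  f_symm := fun x y => by
    rw [one_mul, RingHom.id_apply]
    exact QuadraticMap.polar_comm _ _ _
  Q_smul := fun a x => by rw [QuadraticMap.map_smul, smul_eq_mul, RingHom.id_apply]
  Q_add := fun x y => QuadraticMap.map_add Q x y
  Q_T := fun x => ⟨Q x, rfl⟩
  f_self := fun x hx => by rw [QuadraticMap.polar_self, hx, smul_zero]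

/-- The value of a quadratic form on the combinations of two vectors. -/
theorem q_two1 {F E : Type} [Field F] [AddCommGroup E] [Module F E] (Q : QuadraticForm F E)
    (x y : E) (a b : F) :
    Q (a • x + b • y) = a ^ 2 * Q x + a * b * polar Q x y + b ^ 2 * Q y := by
  have h1 : Q (a • x + b • y) = Q (a • x) + Q (b • y) + polar Q (a • x) (b • y) :=
    QuadraticMap.map_add Q _ _
  rw [h1, QuadraticMap.polar_smul_left, QuadraticMap.polar_smul_right,
    QuadraticMap.map_smul, QuadraticMap.map_smul]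
  simp only [smul_eq_mul]
  ring

/-- An anisotropic quadratic form over a finite field has at most two variables. -/
theorem finrank_le_two1 {F E : Type} [Field F] [Finite F] [AddCommGroup E] [Module F E]
    [FiniteDimensional F E] (Q : QuadraticForm F E) (h : ∀ z, Q z = 0 → z = 0) :
    finrank F E ≤ 2 := by
  classical
  by_contra hc
  push Not at hc
  have : Fintype F := Fintype.ofFinite F
  obtain ⟨e, he⟩ : ∃ e : Fin 3 → E, LinearIndependent F e := by
    obtain ⟨e, he⟩ := exists_linearIndependent_of_le_finrank (R := F) (M := E) hc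
    exact ⟨e, he⟩
  let f : MvPolynomial (Fin 3) F :=
    MvPolynomial.C (Q (e 0)) * MvPolynomial.X 0 ^ 2 +
    MvPolynomial.C (Q (e 1)) * MvPolynomial.X 1 ^ 2 +
    MvPolynomial.C (Q (e 2)) * MvPolynomial.X 2 ^ 2 +
    MvPolynomial.C (polar Q (e 0) (e 1)) * (MvPolynomial.X 0 * MvPolynomial.X 1) +
    MvPolynomial.C (polar Q (e 0) (e 2)) * (MvPolynomial.X 0 * MvPolynomial.X 2) +
    MvPolynomial.C (polar Q (e 1) (e 2)) * (MvPolynomial.X 1 * MvPolynomial.X 2)
  have hX : ∀ i : Fin 3, (MvPolynomial.X i : MvPolynomial (Fin 3) F).totalDegree ≤ 1 :=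
    fun i => le_of_eq (MvPolynomial.totalDegree_X i)
  have hm : ∀ (c : F) (i j : Fin 3), (MvPolynomial.C c *
      (MvPolynomial.X i * MvPolynomial.X j) : MvPolynomial (Fin 3) F).totalDegree ≤ 2 := by
    intro c i j
    refine (MvPolynomial.totalDegree_mul _ _).trans ?_
    rw [MvPolynomial.totalDegree_C, zero_add]
    refine (MvPolynomial.totalDegree_mul _ _).trans ?_
    have := hX i
    have := hX j
    omega
  have hm2 : ∀ (c : F) (i : Fin 3), (MvPolynomial.C c *
      MvPolynomial.X i ^ 2 : MvPolynomial (Fin 3) F).totalDegree ≤ 2 := by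
    intro c i
    rw [sq]
    exact hm c i i
  have hdeg : f.totalDegree < Fintype.card (Fin 3) := by
    have h1 : f.totalDegree ≤ 2 := by
      refine (MvPolynomial.totalDegree_add _ _).trans (max_le ?_ (hm _ _ _))
      refine (MvPolynomial.totalDegree_add _ _).trans (max_le ?_ (hm _ _ _))
      refine (MvPolynomial.totalDegree_add _ _).trans (max_le ?_ (hm _ _ _))
      refine (MvPolynomial.totalDegree_add _ _).trans (max_le ?_ (hm2 _ _))
      exact (MvPolynomial.totalDegree_add _ _).trans (max_le (hm2 _ _) (hm2 _ _))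
    rw [Fintype.card_fin]
    omega
  have heval : ∀ x : Fin 3 → F, MvPolynomial.eval x f =
      Q ((x 0 • e 0 + x 1 • e 1) + x 2 • e 2) := by
    intro x
    have h1 : Q ((x 0 • e 0 + x 1 • e 1) + x 2 • e 2) =
        Q (x 0 • e 0 + x 1 • e 1) + Q (x 2 • e 2) +
          polar Q (x 0 • e 0 + x 1 • e 1) (x 2 • e 2) := QuadraticMap.map_add Q _ _
    rw [h1, q_two1, QuadraticMap.map_smul, QuadraticMap.polar_add_left,
      QuadraticMap.polar_smul_left, QuadraticMap.polar_smul_left,
      QuadraticMap.polar_smul_right, QuadraticMap.polar_smul_right]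
    simp only [f, map_add, map_mul, map_pow, MvPolynomial.eval_C, MvPolynomial.eval_X, smul_eq_mul]
    ring
  obtain ⟨p, hp⟩ := CharP.exists F
  have hp' : p.Prime := by
    rcases CharP.char_is_prime_or_zero F p with h1 | h1
    · exact h1
    · subst h1
      have := CharP.charP_to_charZero F
      exact absurd (inferInstance : Finite F) (not_finite_iff_infinite.2 inferInstance)
  have hdvd := char_dvd_card_solutions p hdeg (K := F)
  have hone : Fintype.card {x : Fin 3 → F // MvPolynomial.eval x f = 0} = 1 := by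
    rw [Fintype.card_eq_one_iff]
    refine ⟨⟨0, by rw [heval]; simp⟩, ?_⟩
    rintro ⟨x, hx⟩
    rw [heval] at hx
    have h0 := h _ hx
    apply Subtype.ext
    have h2 := Fintype.linearIndependent_iff.1 he x (by
      rw [Fin.sum_univ_three]
      exact h0)
    funext i
    exact h2 i
  rw [hone] at hdvd
  exact hp'.one_lt.ne' (Nat.dvd_one.1 hdvd)

/-- The general step: the coordinates of the complement give the embedding. -/
theorem emb_of1 {F V : Type} [Field F] [AddCommGroup V] [Module F V] (Q : QuadraticForm F V)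
    (X : Kind F) (hs : X.sig = RingHom.id F) (he : X.eps = 1) (r : ℕ) (E : Submodule F V)
    (φ : ((Fin r → F) × (Fin r → F) × E) ≃ₗ[F] V) (c : F) (hc : c ≠ 0) (ι : E →ₗ[F] F × F)
    (hinj : Function.Injective ι)
    (hQ : ∀ x, Q (φ x) = (∑ i, x.1 i * x.2.1 i) + Q (x.2.2 : V))
    (hP : ∀ x y, polar Q (φ x) (φ y) =
      ∑ i, (x.1 i * y.2.1 i + x.2.1 i * y.1 i) + polar Q (x.2.2 : V) (y.2.2 : V))
    (hS : ∀ (t : F) (z : E), t + Q (z : V) = 0 ↔ X.sE (c⁻¹ * t) (ι z))
    (hB : ∀ z z' : E, polar Q (z : V) (z' : V) = c * X.bE (ι z) (ι z'))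
    (hsurj : ∀ t e, X.sE t e → ∃ z, ι z = e) : Emb F (PolarSp.quadGeo Q) := by
  let ψ : V →ₗ[F] Vec F r :=
    ((c⁻¹ • (LinearMap.fst F (Fin r → F) ((Fin r → F) × E))).prod
      (((LinearMap.fst F (Fin r → F) E).comp
        (LinearMap.snd F (Fin r → F) ((Fin r → F) × E))).prod
        (ι.comp ((LinearMap.snd F (Fin r → F) E).comp
        (LinearMap.snd F (Fin r → F) ((Fin r → F) × E)))))).comp φ.symm.toLinearMap
  have hψ : ∀ x, ψ (φ x) = (c⁻¹ • x.1, x.2.1, ι x.2.2) := by
    intro x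
    show (c⁻¹ • (φ.symm (φ x)).1, (φ.symm (φ x)).2.1, ι (φ.symm (φ x)).2.2) = _
    rw [φ.symm_apply_apply]
  have htv : ∀ x, tv X (ψ (φ x)) = c⁻¹ * ∑ i, x.1 i * x.2.1 i := by
    intro x
    rw [hψ]
    unfold tv
    rw [Finset.mul_sum]
    refine Finset.sum_congr rfl fun i _ => ?_
    rw [hs, RingHom.id_apply]
    show c⁻¹ * x.1 i * x.2.1 i = _
    ring
  refine ⟨X, r, ψ, ?_, ?_, ?_, ?_⟩
  · intro v v' hv
    obtain ⟨x, rfl⟩ := φ.surjective v
    obtain ⟨y, rfl⟩ := φ.surjective v'
    rw [hψ, hψ] at hv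
    have h1 := congrArg Prod.fst hv
    have h2 := congrArg (fun q => q.2.1) hv
    have h3 := hinj (congrArg (fun q => q.2.2) hv)
    have h4 : x.1 = y.1 := smul_right_injective _ (inv_ne_zero hc) h1
    exact congrArg φ (Prod.ext h4 (Prod.ext h2 h3))
  · intro v
    obtain ⟨x, rfl⟩ := φ.surjective v
    show Q (φ x) = 0 ↔ X.sE (tv X (ψ (φ x))) (ψ (φ x)).2.2
    rw [hQ, htv, hψ]
    exact hS _ _
  · intro v v' _ _
    obtain ⟨x, rfl⟩ := φ.surjective v
    obtain ⟨y, rfl⟩ := φ.surjective v'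
    show polar Q (φ x) (φ y) = 0 ↔ _
    have h1 : polar Q (φ x) (φ y) = c * form X (ψ (φ x)) (ψ (φ y)) := by
      rw [hP, hB, hψ, hψ]
      unfold form
      rw [hs, he, mul_add, Finset.mul_sum]
      congr 1
      refine Finset.sum_congr rfl fun i _ => ?_
      simp only [RingHom.id_apply, Pi.smul_apply, smul_eq_mul]
      field_simp
    rw [h1, mul_eq_zero, or_iff_right hc]
  · intro z hz
    obtain ⟨w, hw⟩ := hsurj _ _ hz
    refine ⟨φ (c • z.1, z.2.1, w), ?_⟩
    rw [hψ]
    show (c⁻¹ • c • z.1, z.2.1, ι w) = z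
    rw [inv_smul_smul₀ hc, hw]

theorem stEmbQ1 : StEmbQ := by
  intro F V _ _ _ _ _ Q hn
  obtain ⟨r, E, φ, hE, hQ, hP⟩ := (pq1 Q).decomp hn
  have hE' : ∀ z : E, Q (z : V) = 0 → z = 0 := fun z hz => Subtype.ext (hE z z.2 hz)
  have hQ' : ∀ x, Q (φ x) = (∑ i, x.1 i * x.2.1 i) + Q (x.2.2 : V) := fun x => hQ x
  have hP' : ∀ x y, polar Q (φ x) (φ y) =
      ∑ i, (x.1 i * y.2.1 i + x.2.1 i * y.1 i) + polar Q (x.2.2 : V) (y.2.2 : V) := by
    intro x y
    have h1 := hP x y
    refine h1.trans ?_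
    congr 1
    refine Finset.sum_congr rfl fun i _ => ?_
    show x.1 i * y.2.1 i + 1 * (x.2.1 i * y.1 i) = _
    rw [one_mul]
  have hdim : finrank F E ≤ 2 := by
    refine finrank_le_two1 (Q.comp E.subtype) fun z hz => hE' z hz
  have hcase : finrank F E = 0 ∨ finrank F E = 1 ∨ finrank F E = 2 := by omega
  rcases hcase with h0 | h1 | h2
  · have hsub : Subsingleton E := finrank_zero_iff.1 h0
    refine emb_of1 Q .hyperbolic rfl rfl r E φ 1 one_ne_zero 0 ?_ hQ' hP' ?_ ?_ ?_
    · intro x y _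
      exact Subsingleton.elim _ _
    · intro t z
      have hz : z = 0 := Subsingleton.elim _ _
      subst hz
      show t + Q 0 = 0 ↔ (0 : F × F) = 0 ∧ 1⁻¹ * t = 0
      rw [QuadraticMap.map_zero]
      simp
    · intro z z'
      have hz : z = 0 := Subsingleton.elim _ _
      subst hz
      show polar Q 0 (z' : V) = 1 * 0
      rw [QuadraticMap.polar_zero_left, mul_zero]
    · intro t e h
      exact ⟨0, h.1.symm⟩
  · -- one variable
    let b : Basis (Fin 1) F E := finBasisOfFinrankEq F E h1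
    let e1 : E := b 0
    have he1 : e1 ≠ 0 := b.ne_zero 0
    have hz : ∀ z : E, z = b.repr z 0 • e1 := by
      intro z
      have := b.sum_repr z
      rw [Fin.sum_univ_one] at this
      exact this.symm
    set c := Q (e1 : V) with hcdef
    have hc : c ≠ 0 := fun h => he1 (hE' _ h)
    have hzv : ∀ z : E, Q (z : V) = c * (b.repr z 0) ^ 2 := by
      intro z
      have h3 : (z : V) = b.repr z 0 • (e1 : V) := congrArg Subtype.val (hz z)
      conv_lhs => rw [h3]
      rw [QuadraticMap.map_smul, smul_eq_mul]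
      ring
    have hpv : ∀ z z' : E, polar Q (z : V) (z' : V) = c * (2 * (b.repr z 0 * b.repr z' 0)) := by
      intro z z'
      have h3 : (z : V) = b.repr z 0 • (e1 : V) := congrArg Subtype.val (hz z)
      have h4 : (z' : V) = b.repr z' 0 • (e1 : V) := congrArg Subtype.val (hz z')
      conv_lhs => rw [h3, h4]
      rw [QuadraticMap.polar_smul_left, QuadraticMap.polar_smul_right, QuadraticMap.polar_self]
      simp only [smul_eq_mul, nsmul_eq_mul, Nat.cast_ofNat]
      ring
    let ι : E →ₗ[F] F × F := LinearMap.prod (b.coord 0) 0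
    have hι : ∀ z, ι z = (b.repr z 0, 0) := fun z => rfl
    refine emb_of1 Q .parabolic rfl rfl r E φ c hc ι ?_ hQ' hP' ?_ ?_ ?_
    · intro x y hxy
      rw [hι, hι] at hxy
      have h14 : b.repr x 0 = b.repr y 0 := (Prod.ext_iff.1 hxy).1
      rw [hz x, hz y, h14]
    · intro t z
      show _ ↔ (ι z).2 = 0 ∧ c⁻¹ * t + (ι z).1 ^ 2 = 0
      rw [hι, hzv]
      have h5 : c⁻¹ * t + (b.repr z 0) ^ 2 = c⁻¹ * (t + c * (b.repr z 0) ^ 2) := by
        field_simp
      show _ ↔ (0 : F) = 0 ∧ c⁻¹ * t + (b.repr z 0) ^ 2 = 0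
      rw [h5, mul_eq_zero, or_iff_right (inv_ne_zero hc)]
      simp
    · intro z z'
      rw [hpv]
      rfl
    · intro t e h
      obtain ⟨h6, _⟩ := h
      refine ⟨e.1 • e1, ?_⟩
      rw [hι]
      refine Prod.ext ?_ h6.symm
      show b.repr (e.1 • b 0) 0 = e.1
      simp
  · -- two variables
    let b : Basis (Fin 2) F E := finBasisOfFinrankEq F E h2
    let e1 : E := b 0
    let e2 : E := b 1
    have he1 : e1 ≠ 0 := b.ne_zero 0
    have hz : ∀ z : E, z = b.repr z 0 • e1 + b.repr z 1 • e2 := by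
      intro z
      have := b.sum_repr z
      rw [Fin.sum_univ_two] at this
      exact this.symm
    set c := Q (e1 : V) with hcdef
    set p := polar Q (e1 : V) (e2 : V) with hpdef
    set d := Q (e2 : V) with hddef
    have hc : c ≠ 0 := fun h => he1 (hE' _ h)
    have hzv : ∀ z : E, Q (z : V) = b.repr z 0 ^ 2 * c + b.repr z 0 * b.repr z 1 * p +
        b.repr z 1 ^ 2 * d := by
      intro z
      have h3 : (z : V) = b.repr z 0 • (e1 : V) + b.repr z 1 • (e2 : V) :=
        congrArg Subtype.val (hz z)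
      conv_lhs => rw [h3]
      rw [q_two1]
    have hpv : ∀ z z' : E, polar Q (z : V) (z' : V) =
        2 * (b.repr z 0 * b.repr z' 0) * c +
        (b.repr z 0 * b.repr z' 1 + b.repr z 1 * b.repr z' 0) * p +
        2 * (b.repr z 1 * b.repr z' 1) * d := by
      intro z z'
      have h3 : (z : V) = b.repr z 0 • (e1 : V) + b.repr z 1 • (e2 : V) :=
        congrArg Subtype.val (hz z)
      have h4 : (z' : V) = b.repr z' 0 • (e1 : V) + b.repr z' 1 • (e2 : V) :=
        congrArg Subtype.val (hz z')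
      have h5 : polar Q (e2 : V) (e1 : V) = p := QuadraticMap.polar_comm _ _ _
      conv_lhs => rw [h3, h4]
      rw [QuadraticMap.polar_add_left, QuadraticMap.polar_add_right, QuadraticMap.polar_add_right]
      simp only [QuadraticMap.polar_smul_left, QuadraticMap.polar_smul_right,
        QuadraticMap.polar_self, smul_eq_mul, nsmul_eq_mul, Nat.cast_ofNat]
      rw [h5, ← hpdef, ← hcdef, ← hddef]
      ring
    have hne : ∀ t : F, t ^ 2 + (c⁻¹ * p) * t + c⁻¹ * d ≠ 0 := by
      intro t h0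
      have h6 : Q ((t • e1 + e2 : E) : V) = 0 := by
        have h7 : ((t • e1 + e2 : E) : V) = t • (e1 : V) + (1 : F) • (e2 : V) := by
          rw [one_smul]; rfl
        rw [h7, q_two1]
        have h8 : t ^ 2 * Q (e1 : V) + t * 1 * polar Q (e1 : V) (e2 : V) + 1 ^ 2 * Q (e2 : V) =
            c * (t ^ 2 + (c⁻¹ * p) * t + c⁻¹ * d) := by
          rw [← hpdef, ← hcdef, ← hddef]
          field_simp
        rw [h8, h0, mul_zero]
      have h9 := hE' _ h6
      have h10 := congrArg (fun z => b.repr z 1) h9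
      simp [e1, e2] at h10
    let ι : E →ₗ[F] F × F := LinearMap.prod (b.coord 0) (b.coord 1)
    have hι : ∀ z, ι z = (b.repr z 0, b.repr z 1) := fun z => rfl
    refine emb_of1 Q (.elliptic (c⁻¹ * d) (c⁻¹ * p) hne) rfl rfl r E φ c hc ι ?_ hQ' hP' ?_ ?_ ?_
    · intro x y hxy
      rw [hι, hι] at hxy
      have h11 := Prod.ext_iff.1 hxy
      have h12 : b.repr x 0 = b.repr y 0 := h11.1
      have h13 : b.repr x 1 = b.repr y 1 := h11.2
      rw [hz x, hz y, h12, h13]
    · intro t z
      show _ ↔ c⁻¹ * t + ((ι z).1 ^ 2 + (c⁻¹ * p) * ((ι z).1 * (ι z).2) +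
        (c⁻¹ * d) * (ι z).2 ^ 2) = 0
      rw [hι, hzv]
      show _ ↔ c⁻¹ * t + ((b.repr z 0) ^ 2 + (c⁻¹ * p) * (b.repr z 0 * b.repr z 1) +
        (c⁻¹ * d) * (b.repr z 1) ^ 2) = 0
      have h5 : c⁻¹ * t + ((b.repr z 0) ^ 2 + (c⁻¹ * p) * (b.repr z 0 * b.repr z 1) +
        (c⁻¹ * d) * (b.repr z 1) ^ 2) = c⁻¹ * (t + (b.repr z 0 ^ 2 * c +
          b.repr z 0 * b.repr z 1 * p + b.repr z 1 ^ 2 * d)) := by
        field_simp
      rw [h5, mul_eq_zero, or_iff_right (inv_ne_zero hc)]
    · intro z z'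
      rw [hpv]
      show _ = c * (2 * ((ι z).1 * (ι z').1) + (c⁻¹ * p) * ((ι z).1 * (ι z').2 +
        (ι z).2 * (ι z').1) + 2 * (c⁻¹ * d) * ((ι z).2 * (ι z').2))
      rw [hι, hι]
      show _ = c * (2 * (b.repr z 0 * b.repr z' 0) + (c⁻¹ * p) * (b.repr z 0 * b.repr z' 1 +
        b.repr z 1 * b.repr z' 0) + 2 * (c⁻¹ * d) * (b.repr z 1 * b.repr z' 1))
      field_simp
    · intro t e _
      refine ⟨e.1 • e1 + e.2 • e2, ?_⟩
      rw [hι]
      refine Prod.ext ?_ ?_
      · show b.repr (e.1 • b 0 + e.2 • b 1) 0 = e.1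
        simp
      · show b.repr (e.1 • b 0 + e.2 • b 1) 1 = e.2
        simp

end Pool.Agent.Lib.MP_e6ed9e_al.Polar
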