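import Mathlib

/-!
Polar spaces: one structure for alternating, quadratic and hermitian forms.
-/

namespace SpreadPerm

/-- A form `f` with its quadratic map `Q`, covering the three types of classical polar spaces:
alternating forms (`Q = 0`, `T = 0`, `eps = -1`), quadratic forms (`f` the polar form, `s = id`,
`T = id`, `eps = 1`) and hermitian forms (`Q x = f x x`, `T t = t + s t`, `eps = 1`). -/
structure PForm (K V : Type*) [Field K] [AddCommGroup V] [Module K V] where
  /-- the field automorphism -/
  s : K →+* K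
  s_s : ∀ a, s (s a) = a
  /-- the sign -/
  eps : K
  /-- the form -/
  f : V → V → K
  /-- the quadratic map -/
  Q : V → K
  /-- the trace map -/
  T : K →+ K
  f_add_left : ∀ x y z, f (x + y) z = f x z + f y z
  f_smul_left : ∀ a x y, f (a • x) y = a * f x y
  f_symm : ∀ x y, f y x = eps * s (f x y)
  Q_smul : ∀ a x, Q (a • x) = a * s a * Q x
  Q_add : ∀ x y, Q (x + y) = Q x + Q y + T (f x y)
  Q_T : ∀ x, ∃ t, T t = Q x
  f_self : ∀ x, Q x = 0 → f x x = 0

namespace PForm

variable {K V : Type*} [Field K] [AddCommGroup V] [Module K V] (P : PForm K V)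

/-- Totally singular subspaces. -/
def TS (M : Submodule K V) : Prop :=
  (∀ x ∈ M, P.Q x = 0) ∧ ∀ x ∈ M, ∀ y ∈ M, P.f x y = 0

/-- Nondegenerate: no nonzero singular vector is orthogonal to all vectors. -/
def Nondeg : Prop := ∀ x, P.Q x = 0 → (∀ y, P.f x y = 0) → x = 0

/-- The vectors orthogonal to `x` -/
theorem f_add_right (x y z : V) : P.f x (y + z) = P.f x y + P.f x z := by
  rw [P.f_symm (y + z) x, P.f_add_left, map_add, mul_add, ← P.f_symm, ← P.f_symm]

theorem f_smul_right (a : K) (x y : V) : P.f x (a • y) = P.s a * P.f x y := by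
  rw [P.f_symm (a • y) x, P.f_smul_left, map_mul, P.f_symm y x]
  ring

theorem f_zero_left (y : V) : P.f 0 y = 0 := by
  have := P.f_smul_left 0 0 y
  simpa using this

theorem f_zero_right (x : V) : P.f x 0 = 0 := by
  have := P.f_smul_right 0 x 0
  simpa using this

theorem f_neg_left (x y : V) : P.f (-x) y = -P.f x y := by
  have := P.f_smul_left (-1) x y
  simpa using this

theorem f_neg_right (x y : V) : P.f x (-y) = -P.f x y := by
  have := P.f_smul_right (-1) x y
  simpa using this

theorem f_comm_zero {x y : V} (h : P.f x y = 0) : P.f y x = 0 := by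
  rw [P.f_symm, h, map_zero, mul_zero]

theorem Q_zero : P.Q 0 = 0 := by
  have := P.Q_smul 0 0
  simpa using this

theorem Q_add_of_perp {x y : V} (hx : P.Q x = 0) (hy : P.Q y = 0) (h : P.f x y = 0) :
    P.Q (x + y) = 0 := by
  rw [P.Q_add, hx, hy, h, map_zero]
  ring

theorem Q_smul_zero {x : V} (a : K) (hx : P.Q x = 0) : P.Q (a • x) = 0 := by
  rw [P.Q_smul, hx, mul_zero]

/-- The form as additive map in the first variable, for sums. -/
theorem f_sum_left {ι : Type*} (S : Finset ι) (g : ι → V) (y : V) :
    P.f (∑ i ∈ S, g i) y = ∑ i ∈ S, P.f (g i) y := by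
  classical
  induction S using Finset.induction_on with
  | empty => simp [P.f_zero_left]
  | insert a S ha ih => rw [Finset.sum_insert ha, Finset.sum_insert ha, P.f_add_left, ih]

theorem f_sum_right {ι : Type*} (S : Finset ι) (g : ι → V) (x : V) :
    P.f x (∑ i ∈ S, g i) = ∑ i ∈ S, P.f x (g i) := by
  classical
  induction S using Finset.induction_on with
  | empty => simp [P.f_zero_right]
  | insert a S ha ih => rw [Finset.sum_insert ha, Finset.sum_insert ha, P.f_add_right, ih]

/-- The linear functional `x ↦ f x y`. -/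
def fl (y : V) : V →ₗ[K] K where
  toFun x := P.f x y
  map_add' x z := P.f_add_left x z y
  map_smul' a x := P.f_smul_left a x y

@[simp] theorem fl_apply (y x : V) : P.fl y x = P.f x y := rfl

/-- The span of pairwise orthogonal singular vectors is totally singular. -/
theorem ts_span {S : Set V} (h1 : ∀ x ∈ S, P.Q x = 0) (h2 : ∀ x ∈ S, ∀ y ∈ S, P.f x y = 0) :
    P.TS (Submodule.span K S) := by
  have hf : ∀ x ∈ Submodule.span K S, ∀ y ∈ Submodule.span K S, P.f x y = 0 := by
    intro x hx
    refine Submodule.span_induction (p := fun x _ => ∀ y ∈ Submodule.span K S, P.f x y = 0)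
      ?_ ?_ ?_ ?_ hx
    · intro x hx y hy
      refine Submodule.span_induction (p := fun y _ => P.f x y = 0) ?_ ?_ ?_ ?_ hy
      · intro y hy
        exact h2 x hx y hy
      · exact P.f_zero_right x
      · intro y z _ _ hy hz
        rw [P.f_add_right, hy, hz, add_zero]
      · intro a y _ hy
        rw [P.f_smul_right, hy, mul_zero]
    · intro y _
      exact P.f_zero_left y
    · intro y z _ _ hy hz w hw
      rw [P.f_add_left, hy w hw, hz w hw, add_zero]
    · intro a y _ hy w hw
      rw [P.f_smul_left, hy w hw, mul_zero]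
  refine ⟨?_, hf⟩
  intro x hx
  refine Submodule.span_induction (p := fun x _ => P.Q x = 0) ?_ ?_ ?_ ?_ hx
  · exact h1
  · exact P.Q_zero
  · intro y z hy' hz' hy hz
    exact P.Q_add_of_perp hy hz (hf y hy' z hz')
  · intro a y _ hy
    exact P.Q_smul_zero a hy

theorem TS.mono {P : PForm K V} {M N : Submodule K V} (h : P.TS N) (hM : M ≤ N) : P.TS M :=
  ⟨fun x hx => h.1 x (hM hx), fun x hx y hy => h.2 x (hM hx) y (hM hy)⟩

theorem ts_span_singleton {x : V} (h : P.Q x = 0) : P.TS (Submodule.span K {x}) :=
  P.ts_span (fun y hy => by rw [Set.mem_singleton_iff.1 hy]; exact h)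
    (fun y hy z hz => by
      rw [Set.mem_singleton_iff.1 hy, Set.mem_singleton_iff.1 hz]; exact P.f_self x h)

end PForm

end SpreadPerm
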