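import Mathlib
import Pool.Agent.Lib.MP_e6ed9e_al.Polar.Basic

/-!
PASS: from good functions on the vectors to the points.
-/

namespace Pool.Agent.Lib.MP_e6ed9e_al.Polar

open Finset SpreadPerm Module
open scoped Classical

noncomputable section

variable {K : Type} [Field K]


section

variable (X : Kind K) {r : ℕ}

/-- The point of a singular vector. -/
def ptOf96 {x : Vec K r} (hx : x ≠ 0) (hs : Sing X x) : Pt X r :=
  ⟨Submodule.span K {x}, finrank_span_singleton hx, fun y hy => by
    obtain ⟨c, rfl⟩ := Submodule.mem_span_singleton.1 hy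
    exact Sing_smul X c hs⟩

lemma pt_exists96 (P : Pt X r) : ∃ x : Vec K r, x ∈ P.1 ∧ x ≠ 0 := by
  have hne : P.1 ≠ ⊥ := by
    intro h
    have := P.2.1
    rw [h, finrank_bot] at this
    exact zero_ne_one this
  obtain ⟨x, hx, hx0⟩ := Submodule.exists_mem_ne_zero_of_ne_bot hne
  exact ⟨x, hx, hx0⟩

/-- A vector of a point. -/
def rep96 (P : Pt X r) : Vec K r := (pt_exists96 X P).choose

lemma rep_mem96 (P : Pt X r) : rep96 X P ∈ P.1 := (pt_exists96 X P).choose_spec.1

lemma rep_ne96 (P : Pt X r) : rep96 X P ≠ 0 := (pt_exists96 X P).choose_spec.2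

lemma pt_eq96 (P : Pt X r) {x : Vec K r} (hx : x ∈ P.1) (hx0 : x ≠ 0) :
    P.1 = Submodule.span K {x} := by
  symm
  apply Submodule.eq_of_le_of_finrank_eq
  · rw [Submodule.span_singleton_le_iff_mem]; exact hx
  · rw [P.2.1, finrank_span_singleton hx0]

lemma val_eq96 (f : Vec K r → ℤ) (hf : ∀ (c : K) (x : Vec K r), c ≠ 0 → f (c • x) = f x)
    (P : Pt X r) {x : Vec K r} (hx : x ∈ P.1) (hx0 : x ≠ 0) : f x = f (rep96 X P) := by
  have h := rep_mem96 X P
  rw [pt_eq96 X P hx hx0, Submodule.mem_span_singleton] at h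
  obtain ⟨c, hc⟩ := h
  have hc0 : c ≠ 0 := by
    rintro rfl
    apply rep_ne96 X P
    rw [← hc, zero_smul]
  rw [← hc, hf c x hc0]

lemma sum_points96 [Fintype K] (W : Submodule K (Vec K r)) (hW : ∀ x ∈ W, Sing X x)
    (f : Vec K r → ℤ) (h0 : f 0 = 0)
    (hf : ∀ (c : K) (x : Vec K r), c ≠ 0 → f (c • x) = f x) :
    ∑ x ∈ univ.filter (fun x => x ∈ W), f x = ((Fintype.card K : ℤ) - 1) *
      ∑ P ∈ univ.filter (fun P : Pt X r => P.1 ≤ W), f (rep96 X P) := by
  have h1 : ∑ x ∈ univ.filter (fun x => x ∈ W), f x =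
      ∑ x ∈ univ.filter (fun x => x ∈ W ∧ x ≠ 0), f x := by
    symm
    apply Finset.sum_subset
    · intro x hx
      simp only [Finset.mem_filter, Finset.mem_univ, true_and] at hx ⊢
      exact hx.1
    · intro x hx hx'
      simp only [Finset.mem_filter, Finset.mem_univ, true_and, not_and, not_not] at hx hx'
      rw [hx' hx, h0]
  have h2 : ∑ P ∈ univ.filter (fun P : Pt X r => P.1 ≤ W),
      ∑ x ∈ univ.filter (fun x : Vec K r => x ∈ P.1 ∧ x ≠ 0), f x =
      ∑ x ∈ univ.filter (fun x => x ∈ W ∧ x ≠ 0),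
        ∑ P ∈ univ.filter (fun P : Pt X r => x ∈ P.1), f x := by
    apply Finset.sum_comm'
    intro P x
    simp only [Finset.mem_filter, Finset.mem_univ, true_and]
    constructor
    · rintro ⟨hP, hx, hx0⟩
      exact ⟨hx, hP hx, hx0⟩
    · rintro ⟨hx, hxW, hx0⟩
      refine ⟨?_, hx, hx0⟩
      rw [pt_eq96 X P hx hx0, Submodule.span_singleton_le_iff_mem]
      exact hxW
  have h3 : ∀ x ∈ univ.filter (fun x : Vec K r => x ∈ W ∧ x ≠ 0),
      ∑ P ∈ univ.filter (fun P : Pt X r => x ∈ P.1), f x = f x := by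
    intro x hx
    simp only [Finset.mem_filter, Finset.mem_univ, true_and] at hx
    have : univ.filter (fun P : Pt X r => x ∈ P.1) = {ptOf96 X hx.2 (hW x hx.1)} := by
      ext P
      simp only [Finset.mem_filter, Finset.mem_univ, true_and, Finset.mem_singleton]
      constructor
      · intro h
        exact Subtype.ext (pt_eq96 X P h hx.2)
      · rintro rfl
        exact Submodule.mem_span_singleton_self x
    rw [this, Finset.sum_singleton]
  have h4 : ∀ P ∈ univ.filter (fun P : Pt X r => P.1 ≤ W),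
      ∑ x ∈ univ.filter (fun x : Vec K r => x ∈ P.1 ∧ x ≠ 0), f x =
        ((Fintype.card K : ℤ) - 1) * f (rep96 X P) := by
    intro P _
    have ha : ∀ x ∈ univ.filter (fun x : Vec K r => x ∈ P.1 ∧ x ≠ 0), f x = f (rep96 X P) := by
      intro x hx
      simp only [Finset.mem_filter, Finset.mem_univ, true_and] at hx
      exact val_eq96 X f hf P hx.1 hx.2
    rw [Finset.sum_congr rfl ha, Finset.sum_const, nsmul_eq_mul]
    congr 1
    have hc : (univ.filter (fun x : Vec K r => x ∈ P.1)).card = Fintype.card K := by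
      rw [← Fintype.card_subtype]
      have := Module.card_eq_pow_finrank (K := K) (V := P.1)
      rw [P.2.1, pow_one] at this
      exact this
    have he : univ.filter (fun x : Vec K r => x ∈ P.1 ∧ x ≠ 0) =
        (univ.filter (fun x : Vec K r => x ∈ P.1)).erase 0 := by
      ext x
      simp only [Finset.mem_filter, Finset.mem_univ, true_and, Finset.mem_erase]
      tauto
    rw [he, Finset.card_erase_of_mem (by simp), hc]
    have := Fintype.card_pos (α := K)
    push_cast [Nat.cast_sub this]
    simp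
  rw [h1, ← Finset.sum_congr rfl h3, ← h2, Finset.sum_congr rfl h4, Finset.mul_sum]

lemma card_points96 [Fintype K] (W : Submodule K (Vec K r)) (hW : ∀ x ∈ W, Sing X x) :
    (Fintype.card K : ℤ) ^ finrank K W - 1 = ((Fintype.card K : ℤ) - 1) *
      ((univ.filter (fun P : Pt X r => P.1 ≤ W)).card : ℤ) := by
  have h := sum_points96 X W hW (fun x => if x = 0 then 0 else 1) (by simp) (by
    intro c x hc
    by_cases hx : x = 0
    · simp [hx]
    · simp [hx, hc])
  have h2 : ∀ P ∈ univ.filter (fun P : Pt X r => P.1 ≤ W),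
      (if rep96 X P = 0 then (0 : ℤ) else 1) = 1 := fun P _ => if_neg (rep_ne96 X P)
  rw [Finset.sum_congr rfl h2, Finset.sum_const, nsmul_eq_mul, mul_one] at h
  rw [← h]
  have hc : (univ.filter (fun x : Vec K r => x ∈ W)).card = Fintype.card K ^ finrank K W := by
    rw [← Fintype.card_subtype]
    exact Module.card_eq_pow_finrank (K := K) (V := W)
  have he : ∑ x ∈ univ.filter (fun x : Vec K r => x ∈ W), (if x = 0 then (0 : ℤ) else 1) =
      ∑ x ∈ univ.filter (fun x : Vec K r => x ∈ W), (1 - if x = 0 then (1 : ℤ) else 0) :=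
    Finset.sum_congr rfl fun x _ => by split_ifs <;> simp
  rw [he, Finset.sum_sub_distrib, Finset.sum_const, hc, Finset.sum_ite_eq']
  simp

/-- The subspace `w = 0`, `e = 0`. -/
def base96 (K : Type) [Field K] (r : ℕ) : Submodule K (Vec K r) where
  carrier := {x | x.2 = 0}
  zero_mem' := rfl
  add_mem' := by
    intro x y hx hy
    simp only [Set.mem_ofPred_eq, Prod.snd_add] at hx hy ⊢
    rw [hx, hy, add_zero]
  smul_mem' := by
    intro c x hx
    simp only [Set.mem_ofPred_eq, Prod.smul_snd] at hx ⊢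
    rw [hx, smul_zero]

lemma finrank_base96 (K : Type) [Field K] (r : ℕ) : finrank K (base96 K r) = r := by
  let e : (Fin r → K) ≃ₗ[K] base96 K r :=
    { toFun := fun u => ⟨(u, 0), rfl⟩
      map_add' := fun u v => by ext <;> simp
      map_smul' := fun c u => by ext <;> simp
      invFun := fun x => x.1.1
      left_inv := fun u => rfl
      right_inv := fun x => by
        obtain ⟨⟨u, w⟩, hx⟩ := x
        have : w = 0 := hx
        subst this
        rfl }
  rw [← e.finrank_eq, Module.finrank_fin_fun]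

lemma sE_zero96 : X.sE 0 0 := by
  cases X <;> simp [Kind.sE]

lemma base_ts96 : TS X (base96 K r) := by
  constructor
  · intro x hx
    have hx' : x.2 = 0 := hx
    have h1 : x.2.1 = 0 := by rw [hx']; rfl
    have h2 : x.2.2 = 0 := by rw [hx']; rfl
    unfold Sing tv
    rw [h1, h2]
    simp only [Pi.zero_apply, map_zero, mul_zero, Finset.sum_const_zero]
    exact sE_zero96 X
  · intro x hx y hy
    have hx' : x.2 = 0 := hx
    have hy' : y.2 = 0 := hy
    have h1 : x.2.1 = 0 := by rw [hx']; rfl
    have h2 : x.2.2 = 0 := by rw [hx']; rfl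
    have h3 : y.2.1 = 0 := by rw [hy']; rfl
    have h4 : y.2.2 = 0 := by rw [hy']; rfl
    unfold form
    rw [h1, h2, h3, h4]
    have : X.bE 0 0 = 0 := by
      cases X <;> simp [Kind.bE]
    rw [this]
    simp

lemma sing_w96 (w : Fin r → K) : Sing X ((0, w, 0) : Vec K r) := by
  unfold Sing tv
  simp only [Pi.zero_apply, zero_mul, Finset.sum_const_zero]
  exact sE_zero96 X

/-- PASS -/
theorem stPass96 (hW : StWitt) (hC : StComb) : StPass := by
  intro K _ _ X r hr ⟨v, hv⟩ G _ _ _ hcol
  set q : ℤ := (Fintype.card K : ℤ) with hq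
  have hq2 : 2 ≤ q := by
    have := Fintype.one_lt_card (α := K)
    rw [hq]; exact_mod_cast this
  have hq1 : q - 1 ≠ 0 := by omega
  set W0 := base96 K r
  have hW0 : TS X W0 := base_ts96 X
  set B : Finset (Pt X r) := univ.filter (fun P : Pt X r => P.1 ≤ W0) with hB
  have hBc : q ^ r - 1 = (q - 1) * (B.card : ℤ) := by
    have := card_points96 X W0 hW0.1
    rw [finrank_base96] at this
    exact this
  let vP : Pt X r → ℤ := fun P => v (rep96 X P)
  have hs0 : Sing X (0 : Vec K r) := hW0.1 0 (zero_mem _)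
  apply hC G (Pt X r) B vP
  · -- 1 < |B|
    have h1 : q ^ 2 ≤ q ^ r := pow_le_pow_right₀ (by omega) hr
    by_contra hlt
    have h2 : (B.card : ℤ) ≤ 1 := by exact_mod_cast not_lt.1 hlt
    nlinarith
  · -- a point outside
    have hne : ((0, Pi.single ⟨0, by omega⟩ 1, 0) : Vec K r) ≠ 0 := by
      intro h
      have := congrFun (congrArg (fun x : Vec K r => x.2.1) h) ⟨0, by omega⟩
      simp at this
    set P := ptOf96 X hne (sing_w96 X _) with hP
    apply Finset.card_lt_univ_of_notMem (x := P)
    rw [hB, Finset.mem_filter, not_and]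
    intro _ hle
    have : ((0, Pi.single ⟨0, by omega⟩ 1, 0) : Vec K r) ∈ W0 :=
      hle (Submodule.mem_span_singleton_self _)
    have h2 : (((Pi.single ⟨0, by omega⟩ 1, 0) : (Fin r → K) × K × K)) = 0 := this
    have := congrFun (congrArg (fun x : (Fin r → K) × K × K => x.1) h2) ⟨0, by omega⟩
    simp at this
  · intro P
    exact hv.ge _
  · obtain ⟨x, hx0, hx, hvx⟩ := hv.ne
    refine ⟨ptOf96 X hx0 hx, ?_⟩
    show v (rep96 X _) ≠ 0
    rw [← val_eq96 X v hv.smul (ptOf96 X hx0 hx) (Submodule.mem_span_singleton_self x) hx0]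
    exact hvx
  · intro g
    -- the span of the images
    set U : Set (Vec K r) := {x | ∃ P ∈ B, x ∈ (g • P).1} with hU
    have hUs : ∀ x ∈ U, Sing X x := by
      rintro x ⟨P, _, hx⟩
      exact (g • P).2.2 x hx
    have hUf : ∀ x ∈ U, ∀ y ∈ U, form X x y = 0 := by
      rintro x ⟨P, hP, hx⟩ y ⟨P', hP', hy⟩
      refine hcol g P P' ?_ x hx y hy
      intro a ha b hb
      rw [hB, Finset.mem_filter] at hP hP'
      exact hW0.2 a (hP.2 ha) b (hP'.2 hb)
    set W := Submodule.span K U with hWdef
    have hts : TS X W := TS_span X hUs hUf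
    set S : Finset (Pt X r) := univ.filter (fun P : Pt X r => P.1 ≤ W) with hS
    have hSc : q ^ finrank K W - 1 = (q - 1) * (S.card : ℤ) := card_points96 X W hts.1
    have hsub : B.image (fun P => g • P) ⊆ S := by
      intro P' hP'
      obtain ⟨P, hP, rfl⟩ := Finset.mem_image.1 hP'
      rw [hS, Finset.mem_filter]
      refine ⟨Finset.mem_univ _, fun x hx => Submodule.subset_span ⟨P, hP, hx⟩⟩
    have hinj : (B.image (fun P => g • P)).card = B.card :=
      Finset.card_image_of_injective _ (MulAction.injective g)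
    have hle : B.card ≤ S.card := by
      rw [← hinj]; exact Finset.card_le_card hsub
    have hfr : finrank K W = r := by
      apply le_antisymm (hW K X r W hts)
      have h1 : q ^ r ≤ q ^ finrank K W := by
        have : (B.card : ℤ) ≤ S.card := by exact_mod_cast hle
        nlinarith
      exact (pow_le_pow_iff_right₀ (by omega : 1 < q)).1 h1
    have hcard : S.card = B.card := by
      have : (q - 1) * (S.card : ℤ) = (q - 1) * (B.card : ℤ) := by rw [← hSc, ← hBc, hfr]
      exact_mod_cast mul_left_cancel₀ hq1 this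
    have heq : B.image (fun P => g • P) = S :=
      Finset.eq_of_subset_of_card_le hsub (by rw [hinj, hcard])
    have hsum : ∑ P ∈ S, vP P = 0 := by
      have h1 := sum_points96 X W hts.1 v hv.zero hv.smul
      rw [hv.sum W hts hfr] at h1
      exact (mul_eq_zero.1 h1.symm).resolve_left hq1
    rw [← hsum, ← heq, Finset.sum_image (fun a _ b _ h => MulAction.injective g h)]

end

end

end Pool.Agent.Lib.MP_e6ed9e_al.Polar
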